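import Pool.Agent.H47.PM.Stm

/-!
# Stub ARI: the choice of the parameters
-/

set_option autoImplicit false

namespace Pool.Agent.H47.PM.ARI

open Finset

lemma card_eq (a b : ℤ) (d : ℕ) (hd : 0 < d) (r : ℤ) :
    (((Finset.Ico a b).filter (fun y => (d : ℤ) ∣ y - r)).card : ℤ) =
      max (⌈((b : ℚ) - r) / ((d : ℤ) : ℚ)⌉ - ⌈((a : ℚ) - r) / ((d : ℤ) : ℚ)⌉) 0 := by
  have e : (Finset.Ico a b).filter (fun y => (d : ℤ) ∣ y - r) =
      (Finset.Ico a b).filter (fun y => y ≡ r [ZMOD (d : ℤ)]) := by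
    refine Finset.filter_congr fun y _ => ?_
    rw [Int.modEq_comm, Int.modEq_iff_dvd]
  rw [e]
  exact Int.Ico_filter_modEq_card a b (by exact_mod_cast hd) r

lemma cntU (a b : ℤ) (hab : a ≤ b) (d : ℕ) (hd : 0 < d) (r : ℤ) :
    (((Finset.Ico a b).filter (fun y => (d : ℤ) ∣ y - r)).card : ℝ) ≤ ((b : ℝ) - a) / d + 1 := by
  have h1 := card_eq a b d hd r
  have hdq : (0 : ℚ) < (d : ℚ) := by exact_mod_cast hd
  have h2 : (((Finset.Ico a b).filter (fun y => (d : ℤ) ∣ y - r)).card : ℚ) ≤ ((b : ℚ) - a) / d + 1 := by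
    have h3 : ((((Finset.Ico a b).filter (fun y => (d : ℤ) ∣ y - r)).card : ℤ) : ℚ) =
        ((max (⌈((b : ℚ) - r) / ((d : ℤ) : ℚ)⌉ - ⌈((a : ℚ) - r) / ((d : ℤ) : ℚ)⌉) 0 : ℤ) : ℚ) := by
      rw [h1]
    rw [Int.cast_natCast] at h3
    rw [h3]
    push_cast
    refine max_le ?_ ?_
    · have h4 := Int.ceil_lt_add_one (((b : ℚ) - r) / (d : ℚ))
      have h5 := Int.le_ceil (((a : ℚ) - r) / (d : ℚ))
      have h6 : ((b : ℚ) - a) / d = ((b : ℚ) - r) / d - ((a : ℚ) - r) / d := by ring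
      rw [h6]
      linarith
    · have : (a : ℚ) ≤ b := by exact_mod_cast hab
      have : 0 ≤ ((b : ℚ) - a) / d := div_nonneg (by linarith) hdq.le
      linarith
  have h7 : ((((Finset.Ico a b).filter (fun y => (d : ℤ) ∣ y - r)).card : ℚ) : ℝ) ≤
      ((((b : ℚ) - a) / d + 1 : ℚ) : ℝ) := by exact_mod_cast h2
  push_cast at h7
  exact h7

lemma cntL (a b : ℤ) (d : ℕ) (hd : 0 < d) (r : ℤ) :
    ((b : ℝ) - a) / d - 1 ≤ (((Finset.Ico a b).filter (fun y => (d : ℤ) ∣ y - r)).card : ℝ) := by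
  have h1 := card_eq a b d hd r
  have h2 : ((b : ℚ) - a) / d - 1 ≤ (((Finset.Ico a b).filter (fun y => (d : ℤ) ∣ y - r)).card : ℚ) := by
    have h3 : ((((Finset.Ico a b).filter (fun y => (d : ℤ) ∣ y - r)).card : ℤ) : ℚ) =
        ((max (⌈((b : ℚ) - r) / ((d : ℤ) : ℚ)⌉ - ⌈((a : ℚ) - r) / ((d : ℤ) : ℚ)⌉) 0 : ℤ) : ℚ) := by
      rw [h1]
    rw [Int.cast_natCast] at h3
    rw [h3]
    push_cast
    refine le_max_of_le_left ?_
    have h4 := Int.ceil_lt_add_one (((a : ℚ) - r) / (d : ℚ))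
    have h5 := Int.le_ceil (((b : ℚ) - r) / (d : ℚ))
    have h6 : ((b : ℚ) - a) / d = ((b : ℚ) - r) / d - ((a : ℚ) - r) / d := by ring
    rw [h6]
    linarith
  have h7 : ((((b : ℚ) - a) / d - 1 : ℚ) : ℝ) ≤
      ((((Finset.Ico a b).filter (fun y => (d : ℤ) ∣ y - r)).card : ℚ) : ℝ) := by exact_mod_cast h2
  push_cast at h7
  exact h7

open Classical in
/-- the multiplicities, except at `-1` -/
noncomputable def m0 (Q : Finset ℕ) (P K : ℕ) (s : ℕ → ℕ) (y : ℤ) : ℕ :=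
  if y < 0 then (if ∃ p ∈ Q, (p : ℤ) ^ 2 ∣ y then 1 else if ∃ p ∈ Q, (p : ℤ) ∣ y then 2 else K)
  else if y ≤ P + 1 then 1 + ∑ p ∈ Q.filter (fun p : ℕ => y = p + 1), s p
  else if ∃ p ∈ Q, (p : ℤ) ∣ y - 1 then 1 else K

section

variable {Q : Finset ℕ} {P K : ℕ} {s : ℕ → ℕ}

lemma m0_neg {y : ℤ} (hK : 2 ≤ K) (hy : y < 0) : m0 Q P K s y ≤ K := by
  unfold m0
  rw [if_pos hy]
  split_ifs <;> omega

lemma m0_big {y : ℤ} (hK : 2 ≤ K) (hy : (P : ℤ) + 2 ≤ y) : m0 Q P K s y ≤ K := by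
  unfold m0
  rw [if_neg (by omega), if_neg (by omega)]
  split_ifs <;> omega

lemma m0_pos {y : ℤ} (hK : 2 ≤ K) : 1 ≤ m0 Q P K s y := by
  unfold m0
  split_ifs <;> omega

lemma m0_mid {y : ℤ} (h0 : 0 ≤ y) (h1 : y ≤ P + 1) (h : ∀ p ∈ Q, y ≠ p + 1) : m0 Q P K s y = 1 := by
  unfold m0
  rw [if_neg (by omega), if_pos h1, Finset.filter_false_of_mem h, Finset.sum_empty, add_zero]

lemma m0_sp {p : ℕ} (hp : p ∈ Q) (hpP : p ≤ P) : m0 Q P K s (p + 1) = 1 + s p := by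
  unfold m0
  rw [if_neg (by omega), if_pos (by omega)]
  have e : Q.filter (fun q : ℕ => (p : ℤ) + 1 = q + 1) = {p} := by
    ext q
    rw [Finset.mem_filter, Finset.mem_singleton]
    constructor
    · rintro ⟨-, h⟩
      omega
    · rintro rfl
      exact ⟨hp, rfl⟩
  rw [e, Finset.sum_singleton]

lemma m0_sq {p : ℕ} (hp : p ∈ Q) {y : ℤ} (hy : y < 0) (h : (p : ℤ) ^ 2 ∣ y) : m0 Q P K s y = 1 := by
  unfold m0
  rw [if_pos hy, if_pos ⟨p, hp, h⟩]

lemma m0_two {p : ℕ} (hp : p ∈ Q) {y : ℤ} (hy : y < 0) (h : (p : ℤ) ∣ y) : m0 Q P K s y ≤ 2 := by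
  unfold m0
  rw [if_pos hy]
  split_ifs with h1 h2
  · omega
  · omega
  · exact absurd ⟨p, hp, h⟩ h2

lemma m0_two' {p : ℕ} (hp : p ∈ Q) {y : ℤ} (hy : y < 0) (h : (p : ℤ) ∣ y) (h' : ∀ q ∈ Q, ¬ (q : ℤ) ^ 2 ∣ y) :
    m0 Q P K s y = 2 := by
  unfold m0
  rw [if_pos hy, if_neg (by push Not; exact h'), if_pos ⟨p, hp, h⟩]

lemma m0_K {y : ℤ} (hy : y < 0) (h : ∀ q ∈ Q, ¬ (q : ℤ) ∣ y) : m0 Q P K s y = K := by
  unfold m0
  rw [if_pos hy, if_neg, if_neg (by push Not; exact h)]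
  rintro ⟨p, hp, h1⟩
  exact h p hp ((Dvd.intro_left _ (by ring : (p : ℤ) * p = (p : ℤ) ^ 2)).trans h1)

lemma m0_tail1 {p : ℕ} (hp : p ∈ Q) {y : ℤ} (hy : (P : ℤ) + 2 ≤ y) (h : (p : ℤ) ∣ y - 1) :
    m0 Q P K s y = 1 := by
  unfold m0
  rw [if_neg (by omega), if_neg (by omega), if_pos ⟨p, hp, h⟩]

lemma m0_tailK {y : ℤ} (hy : (P : ℤ) + 2 ≤ y) (h : ∀ q ∈ Q, ¬ (q : ℤ) ∣ y - 1) :
    m0 Q P K s y = K := by
  unfold m0
  rw [if_neg (by omega), if_neg (by omega), if_neg (by push Not; exact h)]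

lemma sum_mid : ∑ y ∈ Finset.Icc (0 : ℤ) (P + 1), m0 Q P K s y ≤ (P + 2) + ∑ p ∈ Q, s p := by
  have h1 : ∀ y ∈ Finset.Icc (0 : ℤ) (P + 1), m0 Q P K s y =
      1 + ∑ p ∈ Q, if y = (p : ℤ) + 1 then s p else 0 := by
    intro y hy
    rw [Finset.mem_Icc] at hy
    unfold m0
    rw [if_neg (by omega), if_pos hy.2, Finset.sum_filter]
  rw [Finset.sum_congr rfl h1, Finset.sum_add_distrib, Finset.sum_comm]
  refine add_le_add ?_ (Finset.sum_le_sum fun p _ => ?_)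
  · rw [Finset.sum_const, smul_eq_mul, mul_one, Int.card_Icc]
    omega
  · rw [Finset.sum_ite_eq']
    split_ifs <;> omega

end


lemma sumK (S T : Finset ℤ) (m : ℤ → ℕ) (K : ℕ) (hST : S ⊆ T) (h : ∀ y ∈ S, K ≤ m y) :
    S.card * K ≤ ∑ y ∈ T, m y := by
  have h1 := Finset.card_nsmul_le_sum S m K h
  rw [smul_eq_mul] at h1
  exact h1.trans (Finset.sum_le_sum_of_subset hST)

/-- hypotheses on the parameters -/
structure Hyp (h P : ℕ) (Q : Finset ℕ) (A B K : ℕ) (s : ℕ → ℕ) (z : ℕ) (m : ℤ → ℕ) : Prop where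
  hP : 100 ≤ P
  hhP : h ≤ P
  hQ : ∀ p ∈ Q, p.Prime ∧ h < p ∧ 11 ≤ p ∧ p ≤ P
  hσ : ∑ p ∈ Q, (1 / (p : ℝ)) ≤ 1 / 4
  hA : A = P ^ 4
  hB : B = A + P + 1
  hK : 100 ≤ K
  hs : ∀ p, s p = K * (A / (4 * p))
  hm : ∀ y, m y = if y = -1 then z else m0 Q P K s y
  hz : K ≤ z

section

variable {h P : ℕ} {Q : Finset ℕ} {A B K : ℕ} {s : ℕ → ℕ} {z : ℕ} {m : ℤ → ℕ}

lemma Hyp.m_ne (H : Hyp h P Q A B K s z m) {y : ℤ} (hy : y ≠ -1) : m y = m0 Q P K s y := by
  rw [H.hm, if_neg hy]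

lemma Hyp.A6 (H : Hyp h P Q A B K s z m) : 1000000 * P ≤ A := by
  have h1 : 100 ^ 3 ≤ P ^ 3 := Nat.pow_le_pow_left H.hP 3
  calc 1000000 * P = 100 ^ 3 * P := by norm_num
    _ ≤ P ^ 3 * P := Nat.mul_le_mul_right _ h1
    _ = A := by rw [H.hA]; ring

lemma Hyp.cardQ (H : Hyp h P Q A B K s z m) : Q.card ≤ P := by
  have h1 : Q ⊆ Finset.Icc 1 P := fun p hp => by
    have := H.hQ p hp
    rw [Finset.mem_Icc]
    omega
  have h2 := Finset.card_le_card h1
  rw [Nat.card_Icc] at h2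
  omega

lemma Hyp.ge_K (H : Hyp h P Q A B K s z m) {y : ℤ} (hy : y < 0) (h' : ∀ q ∈ Q, ¬ (q : ℤ) ∣ y) : K ≤ m y := by
  rw [H.hm]
  split_ifs with h1
  · exact H.hz
  · rw [m0_K hy h']

lemma Hyp.ne_neg_one (H : Hyp h P Q A B K s z m) {p : ℕ} (hp : p ∈ Q) {y : ℤ} (hy : (p : ℤ) ∣ y) : y ≠ -1 := by
  rintro rfl
  have h1 := Int.natAbs_dvd_natAbs.2 hy
  simp at h1
  have := (H.hQ p hp).2.2.1
  omega

/-- the estimate of `tot` -/
lemma Hyp.tot_le (H : Hyp h P Q A B K s z m) {N ν : ℕ → ℕ} {p : ℕ} (hp : p ∈ Q)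
    (hN : N p = ((Finset.Ico (-(A : ℤ)) B).filter (fun w => (p : ℤ) ^ 2 ∣ w)).card) (hν : ν p ≤ N p) :
    (tot A B m N ν p : ℝ) ≤ K * A / (2 * p) := by
  obtain ⟨hpp, hph, hp11, hpP⟩ := H.hQ p hp
  have hB := H.hB
  have hA6 := H.A6
  have hp0 : 0 < p := by omega
  have hpR : (0 : ℝ) < p := by exact_mod_cast hp0
  -- the first sum
  have t1 : ((∑ y ∈ (Finset.Icc (-(A : ℤ)) p).filter (fun y => (p : ℤ) ∣ y), m y : ℕ) : ℝ) ≤
      2 * (((p : ℝ) + 1 + A) / p + 1) := by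
    have h1 : ∀ y ∈ (Finset.Icc (-(A : ℤ)) p).filter (fun y => (p : ℤ) ∣ y), m y ≤ 2 := by
      intro y hy
      rw [Finset.mem_filter, Finset.mem_Icc] at hy
      rw [H.m_ne (H.ne_neg_one hp hy.2)]
      rcases lt_or_ge y 0 with h0 | h0
      · exact m0_two hp h0 hy.2
      · rw [m0_mid h0 (by omega)]
        · omega
        · rintro q hq rfl
          have h2 := (H.hQ q hq)
          obtain ⟨c, hc⟩ := hy.2
          have hc1 : 0 < c := by
            by_contra hcon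
            have : (p : ℤ) * c ≤ 0 := mul_nonpos_of_nonneg_of_nonpos (by omega) (by omega)
            omega
          have hc2 : c = 1 := by
            by_contra hcon
            have h3 : (2 : ℤ) ≤ c := by omega
            have : (p : ℤ) * 2 ≤ p * c := mul_le_mul_of_nonneg_left h3 (by omega)
            omega
          rw [hc2, mul_one] at hc
          have h4 : q + 1 = p := by omega
          have h5 := h2.1.eq_two_or_odd
          have h6 := hpp.eq_two_or_odd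
          omega
    have h2 := Finset.sum_le_card_nsmul _ _ 2 h1
    rw [smul_eq_mul] at h2
    have h3 : ((Finset.Icc (-(A : ℤ)) p).filter (fun y => (p : ℤ) ∣ y)).card ≤
        ((Finset.Ico (-(A : ℤ)) ((p : ℤ) + 1)).filter (fun y => (p : ℤ) ∣ y - 0)).card := by
      refine Finset.card_le_card fun y hy => ?_
      rw [Finset.mem_filter, Finset.mem_Icc] at hy
      rw [Finset.mem_filter, Finset.mem_Ico, sub_zero]
      exact ⟨by omega, hy.2⟩
    have h4 := cntU (-(A : ℤ)) ((p : ℤ) + 1) (by omega) p hp0 0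
    push_cast at h4
    have h2' : ((∑ y ∈ (Finset.Icc (-(A : ℤ)) p).filter (fun y => (p : ℤ) ∣ y), m y : ℕ) : ℝ) ≤
        (((Finset.Icc (-(A : ℤ)) p).filter (fun y => (p : ℤ) ∣ y)).card : ℝ) * 2 := by exact_mod_cast h2
    have h3' : (((Finset.Icc (-(A : ℤ)) p).filter (fun y => (p : ℤ) ∣ y)).card : ℝ) ≤
        (((Finset.Ico (-(A : ℤ)) ((p : ℤ) + 1)).filter (fun y => (p : ℤ) ∣ y - 0)).card : ℝ) := by exact_mod_cast h3
    have e : ((p : ℝ) + 1 - -(A : ℝ)) = (p : ℝ) + 1 + A := by ring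
    rw [e] at h4
    linarith
  -- the second sum
  have t2 : ((∑ y ∈ (Finset.Icc ((p : ℤ) + 2) B).filter (fun y => (p : ℤ) ∣ y - 1), m y : ℕ) : ℝ) ≤
      ((A : ℝ) + P - p) / p + 1 := by
    have h1 : ∀ y ∈ (Finset.Icc ((p : ℤ) + 2) B).filter (fun y => (p : ℤ) ∣ y - 1), m y ≤ 1 := by
      intro y hy
      rw [Finset.mem_filter, Finset.mem_Icc] at hy
      rw [H.m_ne (by omega)]
      rcases le_or_gt ((P : ℤ) + 2) y with h0 | h0
      · rw [m0_tail1 hp h0 hy.2]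
      · rw [m0_mid (by omega) (by omega)]
        rintro q hq rfl
        have h2 : (p : ℤ) ∣ q := by
          have := hy.2
          rwa [add_sub_cancel_right] at this
        have h3 : p ∣ q := by exact_mod_cast h2
        have h4 := (Nat.prime_dvd_prime_iff_eq hpp (H.hQ q hq).1).1 h3
        omega
    have h2 := Finset.sum_le_card_nsmul _ _ 1 h1
    rw [smul_eq_mul, mul_one] at h2
    have h3 : ((Finset.Icc ((p : ℤ) + 2) B).filter (fun y => (p : ℤ) ∣ y - 1)).card ≤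
        ((Finset.Ico ((p : ℤ) + 2) ((B : ℤ) + 1)).filter (fun y => (p : ℤ) ∣ y - 1)).card := by
      refine Finset.card_le_card fun y hy => ?_
      rw [Finset.mem_filter, Finset.mem_Icc] at hy
      rw [Finset.mem_filter, Finset.mem_Ico]
      exact ⟨by omega, hy.2⟩
    have h4 := cntU ((p : ℤ) + 2) ((B : ℤ) + 1) (by omega) p hp0 1
    push_cast at h4
    have h2' : ((∑ y ∈ (Finset.Icc ((p : ℤ) + 2) B).filter (fun y => (p : ℤ) ∣ y - 1), m y : ℕ) : ℝ) ≤
        (((Finset.Icc ((p : ℤ) + 2) B).filter (fun y => (p : ℤ) ∣ y - 1)).card : ℝ) := by exact_mod_cast h2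
    have h3' : (((Finset.Icc ((p : ℤ) + 2) B).filter (fun y => (p : ℤ) ∣ y - 1)).card : ℝ) ≤
        (((Finset.Ico ((p : ℤ) + 2) ((B : ℤ) + 1)).filter (fun y => (p : ℤ) ∣ y - 1)).card : ℝ) := by
      exact_mod_cast h3
    have e : ((B : ℝ) + 1 - ((p : ℝ) + 2)) = (A : ℝ) + P - p := by
      rw [hB]
      push_cast
      ring
    rw [e] at h4
    linarith
  -- the special column
  have t3 : ((m (p + 1) - 1 : ℕ) : ℝ) ≤ K * A / (4 * p) := by
    rw [H.m_ne (by omega), m0_sp hp hpP, Nat.add_sub_cancel_left, H.hs]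
    push_cast
    have h1 : ((A / (4 * p) : ℕ) : ℝ) ≤ (A : ℝ) / ((4 * p : ℕ) : ℝ) := Nat.cast_div_le
    push_cast at h1
    calc (K : ℝ) * ((A / (4 * p) : ℕ) : ℝ) ≤ K * ((A : ℝ) / (4 * p)) := mul_le_mul_of_nonneg_left h1 (by positivity)
      _ = K * A / (4 * p) := by ring
  have t4 : (N p : ℝ) ≤ ((A : ℝ) + P + 1 + A) / p ^ 2 + 1 := by
    have h4 := cntU (-(A : ℤ)) (B : ℤ) (by omega) (p ^ 2) (by positivity) 0
    push_cast at h4
    simp only [sub_zero] at h4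
    rw [← hN] at h4
    have e : ((B : ℝ) - -(A : ℝ)) = (A : ℝ) + P + 1 + A := by
      rw [hB]
      push_cast
      ring
    rw [e] at h4
    exact h4
  have t5 : (ν p : ℝ) ≤ N p := by exact_mod_cast hν
  -- the numerical inequality
  set x : ℝ := 1 / p with hx
  have hx0 : 0 < x := by positivity
  have hpx : (p : ℝ) * x = 1 := by rw [hx]; field_simp
  have hx11 : x ≤ 1 / 11 := by
    rw [hx]
    exact one_div_le_one_div_of_le (by norm_num) (by exact_mod_cast hp11)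
  have hPx : 1 ≤ (P : ℝ) * x := by
    rw [← hpx]
    exact mul_le_mul_of_nonneg_right (by exact_mod_cast hpP) hx0.le
  have d1 : ∀ u : ℝ, u / p = u * x := fun u => by rw [hx]; ring
  have d2 : ∀ u : ℝ, u / p ^ 2 = u * x ^ 2 := fun u => by rw [hx]; ring
  have d3 : (K : ℝ) * A / (4 * p) = K * A / 4 * x := by rw [hx]; ring
  have d4 : (K : ℝ) * A / (2 * p) = K * A / 2 * x := by rw [hx]; ring
  rw [d1] at t1 t2
  rw [d2] at t4
  rw [d3] at t3
  rw [d4]
  have hKA : (100 : ℝ) * A ≤ K * A := mul_le_mul_of_nonneg_right (by exact_mod_cast H.hK) (by positivity)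
  have hA6' : (1000000 : ℝ) * P ≤ A := by exact_mod_cast hA6
  have hP' : (100 : ℝ) ≤ P := by exact_mod_cast H.hP
  have e1 : ((A : ℝ) + P + 1 + A) * x ^ 2 ≤ ((A : ℝ) + P + 1 + A) * x / 11 := by
    have h1 : 0 ≤ ((A : ℝ) + P + 1 + A) * x := by positivity
    have h2 := mul_le_mul_of_nonneg_left hx11 h1
    calc ((A : ℝ) + P + 1 + A) * x ^ 2 = ((A : ℝ) + P + 1 + A) * x * x := by ring
      _ ≤ ((A : ℝ) + P + 1 + A) * x * (1 / 11) := h2
      _ = _ := by ring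
  have key : 7 * (P : ℝ) + 2 + 3 * A + 2 * (A + P + 1 + A) / 11 ≤ K * A / 4 := by linarith
  have e3 := mul_le_mul_of_nonneg_right key hx0.le
  have e4 : (tot A B m N ν p : ℝ) =
      ((∑ y ∈ (Finset.Icc (-(A : ℤ)) p).filter (fun y => (p : ℤ) ∣ y), m y : ℕ) : ℝ) +
      ((∑ y ∈ (Finset.Icc ((p : ℤ) + 2) B).filter (fun y => (p : ℤ) ∣ y - 1), m y : ℕ) : ℝ) +
      ((m (p + 1) - 1 : ℕ) : ℝ) + N p + ν p := by
    unfold tot
    push_cast
    ring
  rw [e4]
  have f1 : 2 * (((p : ℝ) + 1 + A) * x + 1) = 4 + 2 * x + 2 * (A * x) := by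
    have : ((p : ℝ) + 1 + A) * x = p * x + x + A * x := by ring
    rw [this, hpx]
    ring
  have f2 : ((A : ℝ) + P - p) * x + 1 = A * x + P * x := by
    have : ((A : ℝ) + P - p) * x = A * x + P * x - p * x := by ring
    rw [this, hpx]
    ring
  rw [f1] at t1
  rw [f2] at t2
  have f3 : (7 * (P : ℝ) + 2 + 3 * A + 2 * (A + P + 1 + A) / 11) * x =
      7 * (P * x) + 2 * x + 3 * (A * x) + 2 * (((A : ℝ) + P + 1 + A) * x / 11) := by ring
  have f4 : (K : ℝ) * A / 4 * x + K * A / 4 * x = K * A / 2 * x := by ring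
  linarith

lemma Hyp.cop (H : Hyp h P Q A B K s z m) {p q : ℕ} (hp : p ∈ Q) (hq : q ∈ Q.erase p) : q.Coprime p := by
  rw [Finset.mem_erase] at hq
  exact (Nat.coprime_primes (H.hQ q hq.2).1 (H.hQ p hp).1).2 hq.1

lemma Hyp.sumErase (H : Hyp h P Q A B K s z m) (p : ℕ) : ∑ q ∈ Q.erase p, (1 / (q : ℝ)) ≤ 1 / 4 :=
  (Finset.sum_le_sum_of_subset_of_nonneg (Finset.erase_subset _ _) fun _ _ _ => by positivity).trans H.hσ

lemma Hyp.cardE (H : Hyp h P Q A B K s z m) {p : ℕ} (hp : p ∈ Q) : (Q.erase p).card + 1 ≤ P := by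
  rw [Finset.card_erase_add_one hp]
  exact H.cardQ

lemma Hyp.size1 (H : Hyp h P Q A B K s z m) {p : ℕ} (hp : p ∈ Q) : 4 * p * ((Q.erase p).card + 1) ≤ A := by
  have h1 := H.cardE hp
  have h2 := (H.hQ p hp).2.2.2
  have hP := H.hP
  calc 4 * p * ((Q.erase p).card + 1) ≤ (P ^ 2) * P * P := by
        refine Nat.mul_le_mul (Nat.mul_le_mul ?_ h2) h1
        nlinarith
    _ = A := by rw [H.hA]; ring

lemma Hyp.final (_H : Hyp h P Q A B K s z m) {c p : ℕ} (hc : (A : ℝ) / (2 * p) ≤ c) :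
    (K : ℝ) * A / (2 * p) ≤ (c * K : ℕ) := by
  have h1 := mul_le_mul_of_nonneg_right hc (Nat.cast_nonneg (α := ℝ) K)
  push_cast
  calc (K : ℝ) * A / (2 * p) = A / (2 * p) * K := by ring
    _ ≤ _ := h1

lemma Hyp.head (H : Hyp h P Q A B K s z m) (hS : SIEV) {p : ℕ} (hp : p ∈ Q) (r : ℤ) (hr : ¬ (p : ℤ) ∣ r) :
    (K : ℝ) * A / (2 * p) ≤ ((∑ y ∈ (Finset.Icc (-(A : ℤ)) (-1)).filter (fun y => (p : ℤ) ∣ y - r), m y : ℕ) : ℝ) := by
  have hp0 : 0 < p := (H.hQ p hp).1.pos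
  have h1 := hS (-(A : ℤ)) A p (Q.erase p) r (fun _ => 0) hp0
    (fun q hq => ⟨(H.hQ q (Finset.mem_of_mem_erase hq)).1.pos, H.cop hp hq⟩) (H.sumErase p) (H.size1 hp)
  refine (H.final h1).trans ?_
  have h2 := sumK ((Finset.Ico (-(A : ℤ)) (-(A : ℤ) + A)).filter (fun y => (p : ℤ) ∣ y - r ∧
    ∀ q ∈ Q.erase p, ¬ (q : ℤ) ∣ y - 0)) ((Finset.Icc (-(A : ℤ)) (-1)).filter (fun y => (p : ℤ) ∣ y - r)) m K
    (fun y hy => by
      rw [Finset.mem_filter, Finset.mem_Ico] at hy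
      rw [Finset.mem_filter, Finset.mem_Icc]
      exact ⟨by omega, hy.2.1⟩)
    (fun y hy => by
      rw [Finset.mem_filter, Finset.mem_Ico] at hy
      refine H.ge_K (by omega) fun q hq hqy => ?_
      rcases eq_or_ne q p with rfl | hqp
      · apply hr
        have := dvd_sub hqy hy.2.1
        rwa [sub_sub_cancel] at this
      · refine hy.2.2 q (Finset.mem_erase.2 ⟨hqp, hq⟩) ?_
        rwa [sub_zero])
  exact_mod_cast h2

lemma Hyp.tail (H : Hyp h P Q A B K s z m) (hS : SIEV) {p : ℕ} (hp : p ∈ Q) (j : ℕ) (hj : 2 ≤ j) (hjh : j ≤ h) :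
    (K : ℝ) * A / (2 * p) ≤
      ((∑ y ∈ (Finset.Icc ((P : ℤ) + 2) B).filter (fun y => (p : ℤ) ∣ y - j), m y : ℕ) : ℝ) := by
  have hp0 : 0 < p := (H.hQ p hp).1.pos
  have hph := (H.hQ p hp).2.1
  have hB := H.hB
  have h1 := hS ((P : ℤ) + 2) A p (Q.erase p) j (fun _ => 1) hp0
    (fun q hq => ⟨(H.hQ q (Finset.mem_of_mem_erase hq)).1.pos, H.cop hp hq⟩) (H.sumErase p) (H.size1 hp)
  refine (H.final h1).trans ?_
  have h2 := sumK ((Finset.Ico ((P : ℤ) + 2) ((P : ℤ) + 2 + A)).filter (fun y => (p : ℤ) ∣ y - j ∧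
    ∀ q ∈ Q.erase p, ¬ (q : ℤ) ∣ y - 1)) ((Finset.Icc ((P : ℤ) + 2) B).filter (fun y => (p : ℤ) ∣ y - j)) m K
    (fun y hy => by
      rw [Finset.mem_filter, Finset.mem_Ico] at hy
      rw [Finset.mem_filter, Finset.mem_Icc]
      exact ⟨by omega, hy.2.1⟩)
    (fun y hy => by
      rw [Finset.mem_filter, Finset.mem_Ico] at hy
      rw [H.m_ne (by omega), m0_tailK hy.1.1]
      intro q hq hqy
      rcases eq_or_ne q p with rfl | hqp
      · have h3 := dvd_sub hqy hy.2.1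
        have h4 : y - 1 - (y - (j : ℤ)) = ((j - 1 : ℕ) : ℤ) := by
          rw [Nat.cast_sub (by omega)]
          push_cast
          ring
        rw [h4] at h3
        have h5 : q ∣ j - 1 := by exact_mod_cast h3
        have h6 := Nat.le_of_dvd (by omega) h5
        omega
      · exact hy.2.2 q (Finset.mem_erase.2 ⟨hqp, hq⟩) hqy)
  exact_mod_cast h2

lemma Hyp.sec (H : Hyp h P Q A B K s z m) (hS : SIEV) {N ν : ℕ → ℕ} {p : ℕ} (hp : p ∈ Q)
    (hN : N p = ((Finset.Ico (-(A : ℤ)) B).filter (fun w => (p : ℤ) ^ 2 ∣ w)).card) (hν : 10 * ν p ≤ N p)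
    (r : ℤ) (hr : (p : ℤ) ∣ r) (hr2 : ¬ (p : ℤ) ^ 2 ∣ r) :
    N p + ν p + 1 ≤ ∑ y ∈ (Finset.Icc (-(A : ℤ)) (-1)).filter (fun y => (p : ℤ) ^ 2 ∣ y - r), m y +
      ((Finset.Ico (0 : ℤ) B).filter (fun w => (p : ℤ) ^ 2 ∣ w - r)).card := by
  classical
  obtain ⟨hpp, hph, hp11, hpP⟩ := H.hQ p hp
  have hp0 : 0 < p := hpp.pos
  have hB := H.hB
  have hP := H.hP
  have hpR : (0 : ℝ) < p := by exact_mod_cast hp0
  set R : Finset ℕ := (Q.erase p).image (fun q => q ^ 2) with hR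
  have hRc : R.card ≤ (Q.erase p).card := Finset.card_image_le
  have h1 := hS (-(A : ℤ)) A (p ^ 2) R r (fun _ => 0) (by positivity)
    (fun q hq => by
      rw [hR, Finset.mem_image] at hq
      obtain ⟨q', hq', rfl⟩ := hq
      exact ⟨pow_pos (H.hQ q' (Finset.mem_of_mem_erase hq')).1.pos 2, (H.cop hp hq').pow 2 2⟩)
    (by
      rw [hR, Finset.sum_image (fun a _ b _ hab => Nat.pow_left_injective (n := 2) (by norm_num) hab)]
      refine (Finset.sum_le_sum fun q hq => ?_).trans (H.sumErase p)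
      have hq1 : (1 : ℝ) ≤ q := by
        exact_mod_cast (H.hQ q (Finset.mem_of_mem_erase hq)).1.one_le
      push_cast
      exact one_div_le_one_div_of_le (by positivity) (by nlinarith))
    (by
      have h2 := H.cardE hp
      calc 4 * p ^ 2 * (R.card + 1) ≤ P * P ^ 2 * P := by
            refine Nat.mul_le_mul (Nat.mul_le_mul (by omega) (Nat.pow_le_pow_left hpP 2)) (by omega)
        _ = A := by rw [H.hA]; ring)
  set S := (Finset.Ico (-(A : ℤ)) (-(A : ℤ) + A)).filter (fun y => ((p ^ 2 : ℕ) : ℤ) ∣ y - r ∧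
    ∀ q ∈ R, ¬ (q : ℤ) ∣ y - 0) with hSdef
  set T := (Finset.Icc (-(A : ℤ)) (-1)).filter (fun y => (p : ℤ) ^ 2 ∣ y - r) with hT
  have hST : S ⊆ T := by
    intro y hy
    rw [hSdef, Finset.mem_filter, Finset.mem_Ico] at hy
    rw [hT, Finset.mem_filter, Finset.mem_Icc]
    refine ⟨by omega, ?_⟩
    have := hy.2.1
    push_cast at this
    exact this
  have hpy : ∀ y ∈ T, (p : ℤ) ∣ y := by
    intro y hy
    rw [hT, Finset.mem_filter] at hy
    have h3 : (p : ℤ) ∣ y - r := (Dvd.intro_left _ (by ring : (p : ℤ) * p = (p : ℤ) ^ 2)).trans hy.2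
    have := dvd_add h3 hr
    rwa [sub_add_cancel] at this
  have h2 : T.card + S.card ≤ ∑ y ∈ T, m y := by
    have h3 : ∀ y ∈ T, (1 + if y ∈ S then 1 else 0) ≤ m y := by
      intro y hy
      have h4 := hpy y hy
      have hy0 : y < 0 := by
        rw [hT, Finset.mem_filter, Finset.mem_Icc] at hy
        omega
      rw [H.m_ne (H.ne_neg_one hp h4)]
      split_ifs with h5
      · rw [m0_two' hp hy0 h4]
        intro q hq hq2
        rw [hSdef, Finset.mem_filter] at h5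
        rcases eq_or_ne q p with rfl | hqp
        · apply hr2
          have h6 := h5.2.1
          push_cast at h6
          have := dvd_sub hq2 h6
          rwa [sub_sub_cancel] at this
        · refine h5.2.2 (q ^ 2) ?_ ?_
          · rw [hR, Finset.mem_image]
            exact ⟨q, Finset.mem_erase.2 ⟨hqp, hq⟩, rfl⟩
          · push_cast
            rwa [sub_zero]
      · exact m0_pos (by have := H.hK; omega)
    have h4 := Finset.sum_le_sum h3
    rw [Finset.sum_add_distrib, Finset.sum_const, smul_eq_mul, mul_one, Finset.sum_ite_mem,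
      Finset.inter_eq_right.2 hST, Finset.sum_const, smul_eq_mul, mul_one] at h4
    exact h4
  -- the residue class in the whole interval
  have h3 : ((Finset.Ico (-(A : ℤ)) B).filter (fun y => ((p ^ 2 : ℕ) : ℤ) ∣ y - r)).card ≤
      T.card + ((Finset.Ico (0 : ℤ) B).filter (fun w => (p : ℤ) ^ 2 ∣ w - r)).card := by
    refine le_trans (Finset.card_le_card ?_) (Finset.card_union_le _ _)
    intro y hy
    rw [Finset.mem_filter, Finset.mem_Ico] at hy
    rw [Finset.mem_union, hT, Finset.mem_filter, Finset.mem_filter, Finset.mem_Icc, Finset.mem_Ico]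
    have h4 := hy.2
    push_cast at h4
    rcases lt_or_ge y 0 with h5 | h5
    · exact Or.inl ⟨by omega, h4⟩
    · exact Or.inr ⟨by omega, h4⟩
  have h4 := cntL (-(A : ℤ)) (B : ℤ) (p ^ 2) (by positivity) r
  have h5 : (N p : ℝ) ≤ ((B : ℝ) - -(A : ℝ)) / p ^ 2 + 1 := by
    have h4 := cntU (-(A : ℤ)) (B : ℤ) (by omega) (p ^ 2) (by positivity) 0
    push_cast at h4
    simp only [sub_zero] at h4
    rw [← hN] at h4
    exact h4
  have h6 : (((Finset.Ico (-(A : ℤ)) B).filter (fun y => ((p ^ 2 : ℕ) : ℤ) ∣ y - r)).card : ℝ) ≤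
      T.card + ((Finset.Ico (0 : ℤ) B).filter (fun w => (p : ℤ) ^ 2 ∣ w - r)).card := by exact_mod_cast h3
  have h7 : ((T.card : ℝ) + S.card) ≤ ((∑ y ∈ T, m y : ℕ) : ℝ) := by exact_mod_cast h2
  have h8 : (10 : ℝ) * ν p ≤ N p := by exact_mod_cast hν
  push_cast at h1 h4 h6
  set x : ℝ := 1 / p with hx
  have hx0 : 0 < x := by positivity
  have hpx : (p : ℝ) * x = 1 := by rw [hx]; field_simp
  have hPx : 1 ≤ (P : ℝ) * x := by
    rw [← hpx]
    exact mul_le_mul_of_nonneg_right (by exact_mod_cast hpP) hx0.le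
  have d2 : ∀ u : ℝ, u / p ^ 2 = u * x ^ 2 := fun u => by rw [hx]; ring
  have d3 : (A : ℝ) / (2 * p ^ 2) = A * x ^ 2 / 2 := by rw [hx]; ring
  rw [d2] at h4 h5
  rw [d3] at h1
  have e : ((B : ℝ) - -(A : ℝ)) = (A : ℝ) + P + 1 + A := by
    rw [hB]
    push_cast
    ring
  rw [e] at h4 h5
  have hPR : (100 : ℝ) ≤ P := by exact_mod_cast hP
  have g1 : (10000 : ℝ) ≤ A * x ^ 2 := by
    have g2 : (A : ℝ) = P ^ 4 := by rw [H.hA]; push_cast; ring
    have g3 : (A : ℝ) * x ^ 2 = P ^ 2 * (P * x) ^ 2 := by rw [g2]; ring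
    rw [g3]
    have g4 : (1 : ℝ) ≤ (P * x) ^ 2 := one_le_pow₀ hPx
    have g5 : (100 : ℝ) ^ 2 ≤ (P : ℝ) ^ 2 := pow_le_pow_left₀ (by norm_num) hPR 2
    calc (10000 : ℝ) = 100 ^ 2 * 1 := by norm_num
      _ ≤ (P : ℝ) ^ 2 * (P * x) ^ 2 := mul_le_mul g5 g4 (by norm_num) (by positivity)
  have g2 : ((P : ℝ) + 1) * x ^ 2 ≤ A * x ^ 2 := by
    refine mul_le_mul_of_nonneg_right ?_ (by positivity)
    have := H.A6
    have h9 : (1000000 : ℝ) * P ≤ A := by exact_mod_cast this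
    linarith
  have g3 : ((A : ℝ) + P + 1 + A) * x ^ 2 = 2 * (A * x ^ 2) + (P + 1) * x ^ 2 := by ring
  rw [g3] at h4 h5
  have goal : (N p : ℝ) + ν p + 1 ≤ ((∑ y ∈ T, m y : ℕ) : ℝ) +
      ((Finset.Ico (0 : ℤ) B).filter (fun w => (p : ℤ) ^ 2 ∣ w - r)).card := by
    linarith
  exact_mod_cast goal

end

theorem t (hS : SIEV) : ARI := by
  classical
  intro h P Q hP hhP hQ hσ hσ' n hn
  obtain ⟨A, hA⟩ : ∃ A, A = P ^ 4 := ⟨_, rfl⟩
  obtain ⟨B, hB⟩ : ∃ B, B = A + P + 1 := ⟨_, rfl⟩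
  obtain ⟨K, hKdef⟩ : ∃ K, K = n / (3 * A) := ⟨_, rfl⟩
  obtain ⟨s, hs⟩ : ∃ s : ℕ → ℕ, ∀ p, s p = K * (A / (4 * p)) := ⟨_, fun _ => rfl⟩
  have hA6 : 1000000 * P ≤ A := by
    have h1 : 100 ^ 3 ≤ P ^ 3 := Nat.pow_le_pow_left hP 3
    calc 1000000 * P = 100 ^ 3 * P := by norm_num
      _ ≤ P ^ 3 * P := Nat.mul_le_mul_right _ h1
      _ = A := by rw [hA]; ring
  have hA0 : 0 < A := by omega
  have hnA : A * A ≤ n := by
    refine le_trans (le_of_eq ?_) hn
    rw [hA]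
    ring
  have hK1 : K * (3 * A) ≤ n := by
    rw [hKdef]
    exact Nat.div_mul_le_self _ _
  have hK2 : n < (K + 1) * (3 * A) := by
    rw [hKdef]
    exact (Nat.div_lt_iff_lt_mul (by omega)).1 (Nat.lt_succ_self _)
  have hK100 : 100 ≤ K := by
    by_contra hcon
    have h1 : (K + 1) * (3 * A) ≤ 100 * (3 * A) := Nat.mul_le_mul_right _ (by omega)
    have h2 : 100 * (3 * A) ≤ A * A := by
      calc 100 * (3 * A) = 300 * A := by ring
        _ ≤ A * A := Nat.mul_le_mul_right _ (by omega)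
    omega
  -- the sum without `-1`
  set z : ℕ := n - ∑ y ∈ (Finset.Icc (-(A : ℤ)) B).erase (-1), m0 Q P K s y with hz
  have hcQ : Q.card ≤ P := by
    have h1 : Q ⊆ Finset.Icc 1 P := fun p hp => by
      have := hQ p hp
      rw [Finset.mem_Icc]
      omega
    have h2 := Finset.card_le_card h1
    rw [Nat.card_Icc] at h2
    omega
  have hsum1 : ∑ y ∈ (Finset.Icc (-(A : ℤ)) B).erase (-1), m0 Q P K s y ≤
      A * K + ((P + 2) + ∑ p ∈ Q, s p) + A * K := by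
    have h1 : (Finset.Icc (-(A : ℤ)) B).erase (-1) ⊆
        (Finset.Ico (-(A : ℤ)) 0 ∪ Finset.Icc (0 : ℤ) (P + 1)) ∪ Finset.Ico ((P : ℤ) + 2) (P + 2 + A) := by
      intro y hy
      rw [Finset.mem_erase, Finset.mem_Icc] at hy
      rw [Finset.mem_union, Finset.mem_union, Finset.mem_Ico, Finset.mem_Icc, Finset.mem_Ico]
      omega
    have hun : ∀ (S T : Finset ℤ) (f : ℤ → ℕ), ∑ y ∈ S ∪ T, f y ≤ ∑ y ∈ S, f y + ∑ y ∈ T, f y := by
      intro S T f
      rw [← Finset.sum_union_inter]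
      exact Nat.le_add_right _ _
    refine (Finset.sum_le_sum_of_subset h1).trans ((hun _ _ _).trans (add_le_add ((hun _ _ _).trans
      (add_le_add ?_ sum_mid)) ?_))
    · have h2 := Finset.sum_le_card_nsmul (Finset.Ico (-(A : ℤ)) 0) (m0 Q P K s) K fun y hy => by
        rw [Finset.mem_Ico] at hy
        exact m0_neg (by omega) hy.2
      rw [Int.card_Ico, smul_eq_mul] at h2
      refine h2.trans (le_of_eq ?_)
      congr 1
      omega
    · have h2 := Finset.sum_le_card_nsmul (Finset.Ico ((P : ℤ) + 2) (P + 2 + A)) (m0 Q P K s) K fun y hy => by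
        rw [Finset.mem_Ico] at hy
        exact m0_big (by omega) hy.1
      rw [Int.card_Ico, smul_eq_mul] at h2
      refine h2.trans (le_of_eq ?_)
      congr 1
      omega
  have hsp : ∀ p ∈ Q, (s p : ℝ) ≤ K * A / 4 * (1 / p) := by
    intro p hp
    rw [hs]
    have h1 : ((A / (4 * p) : ℕ) : ℝ) ≤ (A : ℝ) / ((4 * p : ℕ) : ℝ) := Nat.cast_div_le
    push_cast at h1 ⊢
    calc (K : ℝ) * ((A / (4 * p) : ℕ) : ℝ) ≤ K * ((A : ℝ) / (4 * p)) := mul_le_mul_of_nonneg_left h1 (by positivity)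
      _ = K * A / 4 * (1 / p) := by ring
  have hssum : ((∑ p ∈ Q, s p : ℕ) : ℝ) ≤ K * A / 16 := by
    push_cast
    refine (Finset.sum_le_sum hsp).trans ?_
    rw [← Finset.mul_sum]
    have h1 : (0 : ℝ) ≤ K * A / 4 := by positivity
    calc (K : ℝ) * A / 4 * ∑ p ∈ Q, (1 / (p : ℝ)) ≤ K * A / 4 * (1 / 4) := mul_le_mul_of_nonneg_left hσ h1
      _ = _ := by ring
  have hzK : ∑ y ∈ (Finset.Icc (-(A : ℤ)) B).erase (-1), m0 Q P K s y + K ≤ n := by
    have h1 : ((∑ y ∈ (Finset.Icc (-(A : ℤ)) B).erase (-1), m0 Q P K s y : ℕ) : ℝ) ≤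
        ((A * K + ((P + 2) + ∑ p ∈ Q, s p) + A * K : ℕ) : ℝ) := by exact_mod_cast hsum1
    have h2 : ((A * K + ((P + 2) + ∑ p ∈ Q, s p) + A * K : ℕ) : ℝ) =
        2 * (K * A) + (P + 2) + ((∑ p ∈ Q, s p : ℕ) : ℝ) := by
      push_cast
      ring
    have h3 : (K : ℝ) * (3 * A) ≤ n := by exact_mod_cast hK1
    have h4 : (1000000 : ℝ) * P ≤ A := by exact_mod_cast hA6
    have h5 : (100 : ℝ) * A ≤ K * A := mul_le_mul_of_nonneg_right (by exact_mod_cast hK100) (by positivity)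
    have h6 : (100 : ℝ) ≤ P := by exact_mod_cast hP
    have h7 : (K : ℝ) * 1000000 ≤ K * A := mul_le_mul_of_nonneg_left (by linarith) (by positivity)
    have h8 : ((∑ y ∈ (Finset.Icc (-(A : ℤ)) B).erase (-1), m0 Q P K s y : ℕ) : ℝ) + K ≤ n := by
      rw [h2] at h1
      have h9 : (0 : ℝ) ≤ K := by positivity
      linarith
    exact_mod_cast h8
  have H : Hyp h P Q A B K s z (fun y => if y = -1 then z else m0 Q P K s y) :=
    { hP := hP, hhP := hhP, hQ := hQ, hσ := hσ, hA := hA, hB := hB, hK := hK100, hs := hs, hm := fun _ => rfl,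
      hz := by omega }
  obtain ⟨N, hN⟩ : ∃ N : ℕ → ℕ, ∀ p, N p =
      ((Finset.Ico (-(A : ℤ)) B).filter (fun w => (p : ℤ) ^ 2 ∣ w)).card := ⟨_, fun _ => rfl⟩
  obtain ⟨ν, hν⟩ : ∃ ν : ℕ → ℕ, ∀ p, ν p = padicValNat p (N p).factorial := ⟨_, fun _ => rfl⟩
  have hν10 : ∀ p ∈ Q, 10 * ν p ≤ N p := by
    intro p hp
    have hpf : Fact p.Prime := ⟨(hQ p hp).1⟩
    have h1 := sub_one_mul_padicValNat_factorial (p := p) (N p)
    rw [← hν] at h1
    have h2 : 10 * ν p ≤ (p - 1) * ν p := Nat.mul_le_mul_right _ (by have := (hQ p hp).2.2.1; omega)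
    omega
  have htot : ∀ p ∈ Q, (tot A B (fun y => if y = -1 then z else m0 Q P K s y) N ν p : ℝ) ≤ K * A / (2 * p) :=
    fun p hp => H.tot_le hp (hN p) (by have := hν10 p hp; omega)
  have hmB : ∑ y ∈ Finset.Icc (-(A : ℤ)) B, (fun y => if y = -1 then z else m0 Q P K s y) y = n := by
    have h1 : (-1 : ℤ) ∈ Finset.Icc (-(A : ℤ)) B := by
      rw [Finset.mem_Icc]
      omega
    rw [← Finset.sum_erase_add _ _ h1]
    have h2 : ∑ y ∈ (Finset.Icc (-(A : ℤ)) B).erase (-1), (fun y => if y = -1 then z else m0 Q P K s y) y =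
        ∑ y ∈ (Finset.Icc (-(A : ℤ)) B).erase (-1), m0 Q P K s y := by
      refine Finset.sum_congr rfl fun y hy => ?_
      exact if_neg (Finset.ne_of_mem_erase hy)
    rw [h2]
    simp only [if_true]
    omega
  refine ⟨A, B, fun y => if y = -1 then z else m0 Q P K s y, N, ν, ?_, hmB, ?_⟩
  · exact
      { prm := fun p hp => ⟨(hQ p hp).1, (hQ p hp).2.1, by have := (hQ p hp).2.2.1; omega, (hQ p hp).2.2.2⟩
        hB := by omega
        hA := by
          rw [hA]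
          exact Nat.pow_le_pow_right (by omega) (by norm_num)
        hh := by omega
        pos := fun y _ => by
          rcases eq_or_ne y (-1) with rfl | hy
          · rw [H.hm, if_pos rfl]
            have := H.hz
            omega
          · rw [H.m_ne hy]
            exact m0_pos (by omega)
        mid := fun y hy hy' => by
          rw [Finset.mem_Icc] at hy
          rw [H.m_ne (by omega)]
          exact m0_mid hy.1 hy.2 hy'
        headsq := fun p hp y hy hy' => by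
          rw [Finset.mem_Icc] at hy
          have h1 : (p : ℤ) ∣ y := (Dvd.intro_left _ (by ring : (p : ℤ) * p = (p : ℤ) ^ 2)).trans hy'
          rw [H.m_ne (H.ne_neg_one hp h1)]
          exact m0_sq hp (by omega) hy'
        tail1 := fun p hp y hy hy' => by
          rw [Finset.mem_Icc] at hy
          rw [H.m_ne (by omega)]
          exact m0_tail1 hp hy.1 hy'
        nn := fun p _ => hN p
        nu1 := fun p _ => by
          rw [hν]
          exact pow_padicValNat_dvd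
        nu2 := fun p hp => by
          have hpf : Fact p.Prime := ⟨(hQ p hp).1⟩
          rw [hν]
          exact pow_succ_padicValNat_not_dvd (Nat.factorial_ne_zero _)
        head := fun p hp r hr => by
          have h1 := (htot p hp).trans (H.head hS hp r hr)
          exact_mod_cast h1
        tail := fun p hp j hj hjh => by
          have h1 := (htot p hp).trans (H.tail hS hp j hj hjh)
          exact_mod_cast h1
        sec := fun p hp r hr hr2 => H.sec hS hp (hN p) (hν10 p hp) r hr hr2 }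
  · have h1 : ∑ p ∈ Q, ((fun y : ℤ => if y = -1 then z else m0 Q P K s y) ((p : ℤ) + 1) - 1) = ∑ p ∈ Q, s p := by
      refine Finset.sum_congr rfl fun p hp => ?_
      have h0 := H.m_ne (y := (p : ℤ) + 1) (by omega)
      refine (congrArg (fun u => u - 1) h0).trans ?_
      rw [m0_sp hp (hQ p hp).2.2.2, Nat.add_sub_cancel_left]
    rw [h1]
    have h2 : ∀ p ∈ Q, (K : ℝ) * (A / 4 * (1 / p) - 1) ≤ s p := by
      intro p hp
      have hp0 : 0 < p := (hQ p hp).1.pos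
      rw [hs]
      push_cast
      refine mul_le_mul_of_nonneg_left ?_ (by positivity)
      have h3 := Nat.lt_succ_floor ((A : ℝ) / ((4 * p : ℕ) : ℝ))
      rw [Nat.floor_div_natCast, Nat.floor_natCast] at h3
      push_cast at h3
      have h4 : (A : ℝ) / (4 * p) = A / 4 * (1 / p) := by ring
      rw [h4] at h3
      linarith
    have h3 := Finset.sum_le_sum h2
    rw [← Finset.mul_sum, Finset.sum_sub_distrib, ← Finset.mul_sum, Finset.sum_const, nsmul_eq_mul, mul_one] at h3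
    push_cast
    have h4 : (1000000 : ℝ) * P ≤ A := by exact_mod_cast hA6
    have h5 : (Q.card : ℝ) ≤ P := by exact_mod_cast hcQ
    have h6 : (A : ℝ) / 4 * (1 / 8) ≤ A / 4 * ∑ p ∈ Q, (1 / (p : ℝ)) :=
      mul_le_mul_of_nonneg_left hσ' (by positivity)
    have h7 : (A : ℝ) / 33 ≤ A / 4 * ∑ p ∈ Q, (1 / (p : ℝ)) - Q.card := by linarith
    have h8 := mul_le_mul_of_nonneg_left h7 (Nat.cast_nonneg (α := ℝ) K)
    have h9 : (n : ℝ) < ((K : ℝ) + 1) * (3 * A) := by exact_mod_cast hK2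
    have h10 : (100 : ℝ) * A ≤ K * A := mul_le_mul_of_nonneg_right (by exact_mod_cast hK100) (by positivity)
    have h11 : (n : ℝ) / 400 ≤ K * (A / 33) := by
      have e1 : (K : ℝ) * (A / 33) = K * A / 33 := by ring
      have e2 : ((K : ℝ) + 1) * (3 * A) = 3 * (K * A) + 3 * A := by ring
      rw [e1]
      rw [e2] at h9
      linarith
    linarith

end Pool.Agent.H47.PM.ARI
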