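import Pool.Agent.H47.PM.Stm

set_option autoImplicit false

namespace Pool.Agent.H47.PM.BRD

open Finset Function

variable {n : ℕ}

/-- placements on the columns of `S` -/
abbrev PL (B : Fin n → Finset (Fin n)) (S : Finset (Fin n)) : Type :=
  {τ : {i // i ∈ S} ↪ Fin n // ∀ i : {i // i ∈ S}, τ i ∈ B i}

/-- permutations as pairs of embeddings -/
noncomputable def e1 (S : Finset (Fin n)) :
    Equiv.Perm (Fin n) ≃ Σ f : {i // i ∈ S} ↪ Fin n, ({i // i ∉ S} ↪ ↥((Set.range f)ᶜ)) :=
  (Equiv.embeddingEquivOfFinite (Fin n)).symm.trans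
    ((Equiv.embeddingCongr (Equiv.sumCompl (fun i => i ∈ S)).symm (Equiv.refl _)).trans
      Equiv.sumEmbeddingEquivSigmaEmbeddingRestricted)

lemma e1_fst (S : Finset (Fin n)) (σ : Equiv.Perm (Fin n)) (i : {i // i ∈ S}) :
    (e1 S σ).1 i = σ i := rfl

/-- permutations extending a placement -/
noncomputable def permEquiv (B : Fin n → Finset (Fin n)) (S : Finset (Fin n)) :
    {σ : Equiv.Perm (Fin n) // ∀ i ∈ S, σ i ∈ B i} ≃
      Σ τ : PL B S, ({i // i ∉ S} ↪ ↥((Set.range (τ : {i // i ∈ S} ↪ Fin n))ᶜ)) :=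
  ((e1 S).subtypeEquiv (q := fun y => ∀ i : {i // i ∈ S}, y.1 i ∈ B i) (fun σ =>
    ⟨fun h i => by rw [e1_fst]; exact h i i.2, fun h i hi => by
      have := h ⟨i, hi⟩
      rwa [e1_fst] at this⟩)).trans
    (Equiv.subtypeSigmaEquiv _ (fun f : {i // i ∈ S} ↪ Fin n => ∀ i : {i // i ∈ S}, f i ∈ B i))

lemma card_compl (S : Finset (Fin n)) : Fintype.card {i // i ∉ S} = n - S.card := by
  rw [Fintype.card_subtype_compl, Fintype.card_coe, Fintype.card_fin]

lemma card_perm (B : Fin n → Finset (Fin n)) (S : Finset (Fin n)) :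
    Nat.card {σ : Equiv.Perm (Fin n) // ∀ i ∈ S, σ i ∈ B i} =
      Nat.card (PL B S) * (n - S.card).factorial := by
  classical
  rw [Nat.card_congr (permEquiv B S), Nat.card_eq_fintype_card, Fintype.card_sigma,
    Nat.card_eq_fintype_card]
  rw [Finset.sum_congr rfl (g := fun _ => (n - S.card).factorial)]
  · rw [Finset.sum_const, Finset.card_univ, smul_eq_mul]
  · intro τ _
    rw [Fintype.card_embedding_eq, card_compl]
    have : Fintype.card ↥((Set.range (τ : {i // i ∈ S} ↪ Fin n))ᶜ) = n - S.card := by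
      rw [Fintype.card_compl_set, Fintype.card_fin, Set.card_range_of_injective τ.1.injective,
        Fintype.card_coe]
    rw [this, Nat.descFactorial_self]

/-- the functions of the board with given set of rook columns -/
noncomputable def gEquiv (B : Fin n → Finset (Fin n)) (x : ℕ) (S : Finset (Fin n)) :
    {g : Fin n → Fin n ⊕ Fin x // (Injective g ∧ ∀ i r, g i = Sum.inl r → r ∈ B i) ∧
      ∀ i, i ∈ S ↔ (g i).isLeft} ≃ PL B S × ({i // i ∉ S} ↪ Fin x) where
  toFun g :=
    (⟨⟨fun i => (g.1 i).getLeft ((g.2.2 i).1 i.2), fun i j hij => by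
        have hi := Sum.inl_getLeft _ ((g.2.2 i).1 i.2)
        have hj := Sum.inl_getLeft _ ((g.2.2 j).1 j.2)
        have : g.1 i = g.1 j := by rw [← hi, ← hj]; exact congrArg _ hij
        exact Subtype.ext (g.2.1.1 this)⟩,
      fun i => g.2.1.2 i _ (Sum.inl_getLeft _ ((g.2.2 i).1 i.2)).symm⟩,
    ⟨fun i => (g.1 i).getRight (by
        have h1 : ¬ (g.1 i).isLeft := fun h => i.2 ((g.2.2 i).2 h)
        simpa using h1), fun i j hij => by
        have h1 : (g.1 i).isRight := by
          have h1 : ¬ (g.1 i).isLeft := fun h => i.2 ((g.2.2 i).2 h)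
          simpa using h1
        have h2 : (g.1 j).isRight := by
          have h1 : ¬ (g.1 j).isLeft := fun h => j.2 ((g.2.2 j).2 h)
          simpa using h1
        have hi := Sum.inr_getRight _ h1
        have hj := Sum.inr_getRight _ h2
        have : g.1 i = g.1 j := by rw [← hi, ← hj]; exact congrArg _ hij
        exact Subtype.ext (g.2.1.1 this)⟩)
  invFun y := ⟨fun i => if h : i ∈ S then Sum.inl (y.1.1 ⟨i, h⟩) else Sum.inr (y.2 ⟨i, h⟩), by
    refine ⟨⟨?_, ?_⟩, ?_⟩
    · intro i j hij
      by_cases hi : i ∈ S <;> by_cases hj : j ∈ S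
      · simp only [hi, hj, dite_true, Sum.inl.injEq] at hij
        have := y.1.1.injective hij
        exact congrArg Subtype.val this
      · simp [hi, hj] at hij
      · simp [hi, hj] at hij
      · simp only [hi, hj, dite_false, Sum.inr.injEq] at hij
        have := y.2.injective hij
        exact congrArg Subtype.val this
    · intro i r h
      by_cases hi : i ∈ S
      · simp only [hi, dite_true, Sum.inl.injEq] at h
        rw [← h]
        exact y.1.2 ⟨i, hi⟩
      · simp [hi] at h
    · intro i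
      by_cases hi : i ∈ S
      · simp [hi]
      · simp [hi]⟩
  left_inv g := by
    apply Subtype.ext
    funext i
    by_cases hi : i ∈ S
    · simp only [hi, dite_true]
      exact Sum.inl_getLeft _ _
    · simp only [hi, dite_false]
      exact Sum.inr_getRight _ _
  right_inv y := by
    apply Prod.ext
    · apply Subtype.ext
      ext i
      simp
    · ext i
      have := i.2
      simp [this]

lemma card_g (B : Fin n → Finset (Fin n)) (x : ℕ) :
    Nat.card {g : Fin n → Fin n ⊕ Fin x // Injective g ∧ ∀ i r, g i = Sum.inl r → r ∈ B i} =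
      ∑ S : Finset (Fin n), Nat.card (PL B S) * x.descFactorial (n - S.card) := by
  classical
  have e : {g : Fin n → Fin n ⊕ Fin x // Injective g ∧ ∀ i r, g i = Sum.inl r → r ∈ B i} ≃
      Σ S : Finset (Fin n), (PL B S × ({i // i ∉ S} ↪ Fin x)) :=
    { toFun := fun g => ⟨univ.filter (fun i => (g.1 i).isLeft), gEquiv B x _ ⟨g.1, g.2, fun i => by simp⟩⟩
      invFun := fun y => ⟨((gEquiv B x y.1).symm y.2).1, ((gEquiv B x y.1).symm y.2).2.1⟩
      left_inv := fun g => by
        apply Subtype.ext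
        simp
      right_inv := fun y => by
        obtain ⟨S, y⟩ := y
        have h1 : (univ.filter (fun i => (((gEquiv B x S).symm y).1 i).isLeft)) = S := by
          ext i
          rw [mem_filter]
          simp [((gEquiv B x S).symm y).2.2 i]
        have key : ∀ (T : Finset (Fin n)) (hT : T = S)
            (h : ∀ i, i ∈ T ↔ (((gEquiv B x S).symm y).1 i).isLeft),
            (⟨T, gEquiv B x T ⟨((gEquiv B x S).symm y).1, ((gEquiv B x S).symm y).2.1, h⟩⟩ :
              Σ S : Finset (Fin n), (PL B S × ({i // i ∉ S} ↪ Fin x))) = ⟨S, y⟩ := by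
          intro T hT h
          subst hT
          have : (⟨((gEquiv B x T).symm y).1, ((gEquiv B x T).symm y).2.1, h⟩ :
              {g : Fin n → Fin n ⊕ Fin x // (Injective g ∧ ∀ i r, g i = Sum.inl r → r ∈ B i) ∧
                ∀ i, i ∈ T ↔ (g i).isLeft}) = (gEquiv B x T).symm y := rfl
          rw [this, Equiv.apply_symm_apply]
        exact key _ h1 (fun i => by rw [mem_filter]; simp) }
  rw [Nat.card_congr e, Nat.card_eq_fintype_card, Fintype.card_sigma]
  refine Finset.sum_congr rfl fun S _ => ?_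
  rw [Fintype.card_prod, Fintype.card_embedding_eq, card_compl, Fintype.card_fin,
    Nat.card_eq_fintype_card]

lemma perm_eq (B : Fin n → Finset (Fin n)) :
    (Matrix.of (fun r i : Fin n => if r ∈ B i then (-1 : ℤ) else 1)).permanent =
      ∑ S : Finset (Fin n), (-2 : ℤ) ^ S.card *
        ((Nat.card (PL B S) : ℤ) * ((n - S.card).factorial : ℤ)) := by
  classical
  unfold Matrix.permanent
  have h1 : ∀ σ : Equiv.Perm (Fin n),
      ∏ i, Matrix.of (fun r i : Fin n => if r ∈ B i then (-1 : ℤ) else 1) (σ i) i =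
        ∑ S : Finset (Fin n), (-2 : ℤ) ^ S.card * (if ∀ i ∈ S, σ i ∈ B i then 1 else 0) := by
    intro σ
    have h2 : ∏ i, Matrix.of (fun r i : Fin n => if r ∈ B i then (-1 : ℤ) else 1) (σ i) i =
        ∏ i : Fin n, (1 + (if σ i ∈ B i then (-2 : ℤ) else 0)) := by
      refine Finset.prod_congr rfl fun i _ => ?_
      rw [Matrix.of_apply]
      split_ifs <;> norm_num
    rw [h2, Finset.prod_one_add, Finset.powerset_univ]
    refine Finset.sum_congr rfl fun S _ => ?_
    by_cases h : ∀ i ∈ S, σ i ∈ B i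
    · rw [if_pos h, mul_one, Finset.prod_congr rfl (g := fun _ => (-2 : ℤ)) (fun i hi => if_pos (h i hi)),
        Finset.prod_const]
    · rw [if_neg h, mul_zero]
      push Not at h
      obtain ⟨i, hi, hb⟩ := h
      exact Finset.prod_eq_zero hi (if_neg hb)
  rw [Finset.sum_congr rfl fun σ _ => h1 σ, Finset.sum_comm]
  refine Finset.sum_congr rfl fun S _ => ?_
  rw [← Finset.mul_sum]
  congr 1
  rw [← Nat.cast_mul, ← card_perm, Finset.sum_boole, Nat.card_eq_fintype_card,
    Fintype.card_subtype]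

theorem t : TK → Pool.Agent.H47.PM.BRD := by
  intro hTK n B M hM
  rw [perm_eq]
  have h1 : (-2 : ℤ) ^ n * ∑ x ∈ range M, (-1 : ℤ) ^ x *
      (Nat.card {g : Fin n → Fin n ⊕ Fin x // Function.Injective g ∧
        ∀ i r, g i = Sum.inl r → r ∈ B i} : ℤ) =
      ∑ S : Finset (Fin n), (-2 : ℤ) ^ S.card * ((Nat.card (PL B S) : ℤ) *
        ((-2 : ℤ) ^ (n - S.card) * ∑ x ∈ range M, (-1 : ℤ) ^ x *
          (x.descFactorial (n - S.card) : ℤ))) := by
    rw [Finset.sum_congr rfl (fun x _ => by rw [card_g])]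
    push_cast
    simp_rw [Finset.mul_sum]
    rw [Finset.sum_comm]
    refine Finset.sum_congr rfl fun S _ => ?_
    refine Finset.sum_congr rfl fun x _ => ?_
    have h2 : S.card ≤ n := by
      have := S.card_le_univ
      rwa [Fintype.card_fin] at this
    have h3 : (-2 : ℤ) ^ n = (-2 : ℤ) ^ S.card * (-2 : ℤ) ^ (n - S.card) := by
      rw [← pow_add]
      congr 1
      omega
    rw [h3]
    ring
  rw [h1]
  refine Int.ModEq.sum fun S _ => ?_
  exact ((hTK M hM (n - S.card)).symm.mul_left _).mul_left _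

end Pool.Agent.H47.PM.BRD
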