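import Pool.Agent.H47.PM.Stm

set_option autoImplicit false

namespace Pool.Agent.H47.PM.CNI

open Finset Pool.Agent.H47.PM

/-- the condition on `g` -/
def PP (n : ℕ) (lam a : Fin n → ℕ) (x : ℕ) (g : Fin n → Fin n ⊕ Fin x) : Prop :=
  Function.Injective g ∧ ∀ i r, g i = Sum.inl r → ((r : ℕ) < lam i ∨ n ≤ (r : ℕ) + a i)

/-- the condition on `g`, with the exceptional set `C` -/
def QQ (n : ℕ) (lam a : Fin n → ℕ) (x : ℕ) (C : Finset (Fin n)) (g : Fin n → Fin n ⊕ Fin x) : Prop :=
  Function.Injective g ∧ (∀ i ∈ C, ∃ r : Fin n, g i = Sum.inl r ∧ n ≤ (r : ℕ) + a i) ∧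
    (∀ i, i ∉ C → ∀ r : Fin n, g i = Sum.inl r → (r : ℕ) < lam i)

open Classical in
/-- the exceptional set -/
noncomputable def SS (n : ℕ) (lam : Fin n → ℕ) (x : ℕ) (g : Fin n → Fin n ⊕ Fin x) :
    Finset (Fin n) :=
  univ.filter (fun i => ∃ r : Fin n, g i = Sum.inl r ∧ lam i ≤ (r : ℕ))

lemma PQ (n h : ℕ) (lam a : Fin n → ℕ) (hl : ∀ i, lam i + h ≤ n) (ha : ∀ i, a i ≤ h) (x : ℕ)
    (C : Finset (Fin n)) (g : Fin n → Fin n ⊕ Fin x) :
    (PP n lam a x g ∧ SS n lam x g = C) ↔ QQ n lam a x C g := by
  constructor
  · rintro ⟨⟨h1, h2⟩, rfl⟩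
    refine ⟨h1, ?_, ?_⟩
    · intro i hi
      unfold SS at hi
      rw [Finset.mem_filter] at hi
      obtain ⟨_, r, hr, hr2⟩ := hi
      refine ⟨r, hr, ?_⟩
      rcases h2 i r hr with h3 | h3
      · omega
      · exact h3
    · intro i hi r hr
      unfold SS at hi
      rw [Finset.mem_filter] at hi
      by_contra hcon
      exact hi ⟨Finset.mem_univ _, r, hr, by omega⟩
  · rintro ⟨h1, h2, h3⟩
    refine ⟨⟨h1, ?_⟩, ?_⟩
    · intro i r hr
      by_cases hi : i ∈ C
      · obtain ⟨r', hr', h4⟩ := h2 i hi
        right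
        have : r = r' := by
          have := hr.symm.trans hr'
          exact Sum.inl_injective this
        rw [this]; exact h4
      · left; exact h3 i hi r hr
    · ext i
      unfold SS
      rw [Finset.mem_filter]
      constructor
      · rintro ⟨_, r, hr, h4⟩
        by_contra hi
        have := h3 i hi r hr
        omega
      · intro hi
        obtain ⟨r, hr, h4⟩ := h2 i hi
        refine ⟨Finset.mem_univ _, r, hr, ?_⟩
        have := hl i
        have := ha i
        omega

/-- the row index counted from the last row -/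
def ph (n x : ℕ) : Fin n ⊕ Fin x → ℕ
  | Sum.inl r => n - 1 - (r : ℕ)
  | Sum.inr _ => 0

/-- the pair of maps -/
noncomputable def eqv (n h : ℕ) (lam a : Fin n → ℕ) (hl : ∀ i, lam i + h ≤ n) (ha : ∀ i, a i ≤ h)
    (x : ℕ) (C : Finset (Fin n)) :
    {g : Fin n → Fin n ⊕ Fin x // QQ n lam a x C g} ≃
      {f : C → Fin h // Function.Injective f ∧ ∀ c, (f c : ℕ) < a c} ×
      {f : {i : Fin n // i ∉ C} → Fin n ⊕ Fin x // Function.Injective f ∧
        ∀ (i : {i : Fin n // i ∉ C}) (r : Fin n), f i = Sum.inl r → (r : ℕ) < lam i} where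
  toFun g := (⟨fun c => ⟨ph n x (g.1 c), by
      obtain ⟨r, hr, h4⟩ := g.2.2.1 c c.2
      rw [hr]
      simp only [ph]
      have := ha c
      have := r.2
      omega⟩, by
      constructor
      · intro c d hcd
        obtain ⟨r, hr, h4⟩ := g.2.2.1 c c.2
        obtain ⟨s, hs, h5⟩ := g.2.2.1 d d.2
        simp only [Fin.mk.injEq, hr, hs, ph] at hcd
        have h6 : r = s := by
          apply Fin.ext
          have := r.2
          have := s.2
          omega
        apply Subtype.ext
        apply g.2.1
        rw [hr, hs, h6]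
      · intro c
        obtain ⟨r, hr, h4⟩ := g.2.2.1 c c.2
        simp only [hr, ph]
        have := r.2
        omega⟩,
    ⟨fun i => g.1 i, by
      constructor
      · intro i j hij
        exact Subtype.ext (g.2.1 hij)
      · intro i r hr
        exact g.2.2.2 i i.2 r hr⟩)
  invFun q := ⟨fun i => if hi : i ∈ C then
      Sum.inl ⟨n - 1 - (q.1.1 ⟨i, hi⟩ : ℕ), by have := i.2; omega⟩ else q.2.1 ⟨i, hi⟩, by
    refine ⟨?_, ?_, ?_⟩
    · intro i j hij
      simp only at hij
      by_cases hi : i ∈ C
      · by_cases hj : j ∈ C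
        · rw [dif_pos hi, dif_pos hj] at hij
          have h1 := congrArg Fin.val (Sum.inl_injective hij)
          simp only at h1
          have h2 := (q.1.1 ⟨i, hi⟩).2
          have h3 := (q.1.1 ⟨j, hj⟩).2
          have h4 := hl i
          have h5 : q.1.1 ⟨i, hi⟩ = q.1.1 ⟨j, hj⟩ := by
            apply Fin.ext
            omega
          have h6 := q.1.2.1 h5
          exact congrArg Subtype.val h6
        · rw [dif_pos hi, dif_neg hj] at hij
          have h1 := q.2.2.2 ⟨j, hj⟩ _ hij.symm
          simp only at h1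
          have h2 := (q.1.1 ⟨i, hi⟩).2
          have h4 := hl j
          omega
      · by_cases hj : j ∈ C
        · rw [dif_neg hi, dif_pos hj] at hij
          have h1 := q.2.2.2 ⟨i, hi⟩ _ hij
          simp only at h1
          have h2 := (q.1.1 ⟨j, hj⟩).2
          have h4 := hl i
          omega
        · rw [dif_neg hi, dif_neg hj] at hij
          exact congrArg Subtype.val (q.2.2.1 hij)
    · intro i hi
      refine ⟨_, dif_pos hi, ?_⟩
      simp only
      have h1 := q.1.2.2 ⟨i, hi⟩
      have h2 := i.2
      simp only at h1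
      omega
    · intro i hi r hr
      beta_reduce at hr
      rw [dif_neg hi] at hr
      exact q.2.2.2 ⟨i, hi⟩ r hr⟩
  left_inv := by
    intro g
    apply Subtype.ext
    funext i
    by_cases hi : i ∈ C
    · simp only [hi, dif_pos]
      obtain ⟨r, hr, h4⟩ := g.2.2.1 i hi
      refine Eq.trans ?_ hr.symm
      congr 1
      apply Fin.ext
      have h5 : ph n x (g.1 i) = n - 1 - (r : ℕ) := by rw [hr]; rfl
      simp only [h5]
      have := r.2
      omega
    · simp only [hi, dif_neg, not_false_eq_true]
  right_inv := by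
    intro q
    apply Prod.ext
    · apply Subtype.ext
      funext c
      apply Fin.ext
      simp only [c.2, dif_pos, ph]
      have h2 := (q.1.1 c).2
      have h3 := hl c
      have h4 : (⟨(c : Fin n), c.2⟩ : C) = c := rfl
      rw [h4]
      omega
    · apply Subtype.ext
      funext i
      simp only [i.2, dif_neg, not_false_eq_true]

lemma card_lt (n m : ℕ) (hm : m ≤ n) : (univ.filter (fun r : Fin n => (r : ℕ) < m)).card = m := by
  rw [← Finset.card_map Fin.valEmbedding]
  have : (univ.filter (fun r : Fin n => (r : ℕ) < m)).map Fin.valEmbedding = Finset.range m := by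
    ext k
    simp only [Finset.mem_map, Finset.mem_filter, Finset.mem_univ, true_and,
      Fin.valEmbedding_apply, Finset.mem_range]
    constructor
    · rintro ⟨r, hr, rfl⟩; exact hr
    · intro hk
      exact ⟨⟨k, by omega⟩, hk, rfl⟩
  rw [this, Finset.card_range]

lemma second (hN : NST) (n h : ℕ) (lam : Fin n → ℕ) (hm : Monotone lam)
    (hl : ∀ i, lam i + h ≤ n) (x : ℕ) (C : Finset (Fin n)) :
    (Nat.card {f : {i : Fin n // i ∉ C} → Fin n ⊕ Fin x // Function.Injective f ∧
        ∀ (i : {i : Fin n // i ∉ C}) (r : Fin n), f i = Sum.inl r → (r : ℕ) < lam i} : ℤ) =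
      FF n lam C x := by
  set D : Finset (Fin n) := univ \ C with hD
  set k := D.card with hk
  let e : Fin k ≃o D := D.orderIsoOfFin rfl
  let A : Fin k → Finset (Fin n ⊕ Fin x) := fun j =>
    (univ.filter (fun r : Fin n => (r : ℕ) < lam (e j))).disjSum (univ : Finset (Fin x))
  have hA : Monotone A := by
    intro i j hij
    apply Finset.disjSum_mono_left
    intro r hr
    rw [Finset.mem_filter] at hr ⊢
    refine ⟨hr.1, lt_of_lt_of_le hr.2 (hm ?_)⟩
    exact e.monotone hij
  have h1 := hN k (Fin n ⊕ Fin x) A hA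
  have hmem : ∀ (j : Fin k) (s : Fin n ⊕ Fin x), s ∈ A j ↔
      ∀ r : Fin n, s = Sum.inl r → (r : ℕ) < lam (e j) := by
    intro j s
    rcases s with r | y
    · simp only [A, Finset.inl_mem_disjSum, Finset.mem_filter, Finset.mem_univ, true_and]
      constructor
      · intro hr r' hr'
        rw [← Sum.inl_injective hr']; exact hr
      · intro h; exact h r rfl
    · simp only [A, Finset.inr_mem_disjSum, Finset.mem_univ, true_iff]
      intro r hr
      exact absurd hr (by simp)
  let ee : Fin k ≃ {i : Fin n // i ∉ C} :=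
    e.toEquiv.trans (Equiv.subtypeEquivRight (fun i => by simp [hD]))
  have hee : ∀ j, ((ee j : {i : Fin n // i ∉ C}) : Fin n) = (e j : Fin n) := fun j => rfl
  have h2 : Nat.card {f : {i : Fin n // i ∉ C} → Fin n ⊕ Fin x // Function.Injective f ∧
        ∀ (i : {i : Fin n // i ∉ C}) (r : Fin n), f i = Sum.inl r → (r : ℕ) < lam i} =
      Nat.card {f : Fin k → Fin n ⊕ Fin x // Function.Injective f ∧ ∀ i, f i ∈ A i} := by
    refine Nat.card_congr (Equiv.subtypeEquiv (Equiv.arrowCongr ee.symm (Equiv.refl _)) ?_)
    intro f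
    constructor
    · rintro ⟨h3, h4⟩
      refine ⟨?_, ?_⟩
      · intro i j hij
        exact ee.injective (h3 hij)
      · intro i
        rw [hmem]
        intro r hr
        exact h4 (ee i) r hr
    · rintro ⟨h3, h4⟩
      refine ⟨?_, ?_⟩
      · intro i j hij
        apply ee.symm.injective
        apply h3
        change f (ee (ee.symm i)) = f (ee (ee.symm j))
        rw [Equiv.apply_symm_apply, Equiv.apply_symm_apply]
        exact hij
      · intro i r hr
        have h5 := (hmem _ _).mp (h4 (ee.symm i)) r (by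
          change f (ee (ee.symm i)) = _
          rw [Equiv.apply_symm_apply]; exact hr)
        have h6 : ((e (ee.symm i) : D) : Fin n) = (i : Fin n) := by
          rw [← hee, Equiv.apply_symm_apply]
        rw [h6] at h5
        exact h5
  rw [h2, h1]
  unfold FF
  rw [← hD]
  rw [← Finset.prod_coe_sort D, ← Equiv.prod_comp e.toEquiv]
  refine Finset.prod_congr rfl (fun j _ => ?_)
  have h3 : (A j).card = lam (e j) + x := by
    simp only [A]
    rw [Finset.card_disjSum, card_lt n _ (by have := hl (e j); omega)]
    simp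
  rw [h3]
  -- the rank of e j
  have h4 : (D.filter (fun i => i < ((e j : D) : Fin n))).card = (j : ℕ) := by
    have h5 : (D.filter (fun i => i < ((e j : D) : Fin n))) =
        ((univ : Finset (Fin k)).filter (fun i => i < j)).map
          (e.toEquiv.toEmbedding.trans (Function.Embedding.subtype _)) := by
      ext i
      simp only [Finset.mem_filter, Finset.mem_map, Finset.mem_univ, true_and,
        Function.Embedding.trans_apply, Function.Embedding.subtype_apply,
        Equiv.coe_toEmbedding]
      constructor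
      · rintro ⟨hi, hi2⟩
        refine ⟨e.symm ⟨i, hi⟩, ?_, ?_⟩
        · rw [OrderIso.symm_apply_lt]
          exact hi2
        · change ((e (e.symm ⟨i, hi⟩) : D) : Fin n) = i
          rw [OrderIso.apply_symm_apply]
      · rintro ⟨i', hi', rfl⟩
        refine ⟨(e i').2, ?_⟩
        exact (e.lt_iff_lt.mpr hi')
    rw [h5, Finset.card_map]
    have : (univ.filter (fun i : Fin k => i < j)) = univ.filter (fun r : Fin k => (r : ℕ) < (j : ℕ)) := by
      apply Finset.filter_congr
      intro i _
      exact Iff.rfl
    rw [this, card_lt k j (le_of_lt j.2)]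
  have h6 : (D.filter (fun i => i < ((e j : D) : Fin n))).card +
      (C.filter (fun i => i < ((e j : D) : Fin n))).card = ((e j : D) : Fin n) := by
    rw [← Finset.card_union_of_disjoint]
    · have : (D.filter (fun i => i < ((e j : D) : Fin n))) ∪
          (C.filter (fun i => i < ((e j : D) : Fin n))) =
          univ.filter (fun r : Fin n => (r : ℕ) < (((e j : D) : Fin n) : ℕ)) := by
        ext i
        simp only [Finset.mem_union, Finset.mem_filter, hD, Finset.mem_sdiff, Finset.mem_univ,
          true_and]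
        constructor
        · rintro (⟨_, h⟩ | ⟨_, h⟩) <;> exact h
        · intro h
          by_cases hi : i ∈ C
          · right; exact ⟨hi, h⟩
          · left; exact ⟨hi, h⟩
      rw [this, card_lt n _ (le_of_lt (((e j : D) : Fin n)).2)]
    · rw [Finset.disjoint_left]
      intro i h7 h8
      rw [Finset.mem_filter] at h7 h8
      have h10 : i ∈ univ \ C := h7.1
      exact (Finset.mem_sdiff.mp h10).2 h8.1
  rw [h4] at h6
  unfold vv
  have h9 : ((e.toEquiv j : D) : Fin n) = ((e j : D) : Fin n) := rfl
  rw [h9]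
  have h7 : (((e j : D) : Fin n) : ℤ) = (j : ℤ) +
      ((C.filter (fun i => i < ((e j : D) : Fin n))).card : ℤ) := by
    exact_mod_cast h6.symm
  push_cast
  rw [h7]
  ring

theorem t : NST → CNI := by
  intro hN n h lam a hm hl ha x
  classical
  have h1 : Nat.card {g : Fin n → Fin n ⊕ Fin x // Function.Injective g ∧
      ∀ i r, g i = Sum.inl r → ((r : ℕ) < lam i ∨ n ≤ (r : ℕ) + a i)} =
      (univ.filter (fun g : Fin n → Fin n ⊕ Fin x => PP n lam a x g)).card := by
    rw [Nat.card_eq_fintype_card, Fintype.card_subtype]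
    congr 1
    ext g
    simp only [Finset.mem_filter, PP]
  rw [h1, Finset.card_eq_sum_card_fiberwise (f := SS n lam x) (t := univ)
    (fun _ _ => Finset.mem_coe.mpr (Finset.mem_univ _))]
  push_cast
  refine Finset.sum_congr rfl (fun C _ => ?_)
  rw [Finset.filter_filter]
  have h2 : (univ.filter (fun g : Fin n → Fin n ⊕ Fin x => PP n lam a x g ∧ SS n lam x g = C)).card =
      Nat.card {g : Fin n → Fin n ⊕ Fin x // QQ n lam a x C g} := by
    rw [Nat.card_eq_fintype_card, Fintype.card_subtype]
    congr 1
    apply Finset.filter_congr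
    intro g _
    exact PQ n h lam a hl ha x C g
  rw [h2, Nat.card_congr (eqv n h lam a hl ha x C), Nat.card_prod]
  push_cast
  rw [second hN n h lam hm hl x C]
  rfl

end Pool.Agent.H47.PM.CNI
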