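import Pool.Agent.H47.PM.Stm

set_option autoImplicit false
set_option linter.unusedSectionVars false

namespace Pool.Agent.H47.PM.CNT

open Finset

/-- the multiset of the roots for `C = {c}` -/
def U (n : ℕ) (lam : Fin n → ℕ) (c : Fin n) : Multiset ℤ :=
  (univ \ {c} : Finset (Fin n)).val.map (fun i => vv n lam i - (if c < i then 1 else 0))

theorem FF_single (n : ℕ) (lam : Fin n → ℕ) (c : Fin n) (x : ℤ) :
    FF n lam {c} x = ((U n lam c).map (fun u => x - u)).prod := by
  unfold FF U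
  rw [Multiset.map_map]
  change _ = ∏ i ∈ univ \ {c}, (x - (vv n lam i - (if c < i then 1 else 0)))
  refine prod_congr rfl fun i _ => ?_
  by_cases h : c < i
  · rw [filter_singleton, if_pos h, if_pos h]
    simp
    ring
  · rw [filter_singleton, if_neg h, if_neg h]
    simp

theorem Ucard (n : ℕ) (lam : Fin n → ℕ) (c : Fin n) (P : ℤ → Prop) [DecidablePred P] :
    ((U n lam c).filter P).card =
      ((univ \ {c} : Finset (Fin n)).filter
        (fun i => P (vv n lam i - (if c < i then 1 else 0)))).card := by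
  unfold U
  rw [Multiset.filter_map, Multiset.card_map]
  rfl

theorem mem_U {n : ℕ} {lam : Fin n → ℕ} {c : Fin n} {u : ℤ} :
    u ∈ U n lam c ↔ ∃ i, i ≠ c ∧ vv n lam i - (if c < i then 1 else 0) = u := by
  unfold U
  rw [Multiset.mem_map]
  constructor
  · rintro ⟨i, hi, h⟩
    rw [Finset.mem_val] at hi
    exact ⟨i, by simpa using hi, h⟩
  · rintro ⟨i, hi, h⟩
    refine ⟨i, ?_, h⟩
    rw [Finset.mem_val]
    simpa using hi

theorem pow_dvd_prod {ι : Type} [DecidableEq ι] (s t : Finset ι) (hst : s ⊆ t) (f : ι → ℤ) (p : ℤ) (k : ℕ)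
    (hk : k ≤ s.card) (h : ∀ i ∈ s, p ∣ f i) : p ^ k ∣ ∏ i ∈ t, f i := by
  refine (pow_dvd_pow p hk).trans ?_
  refine dvd_trans ?_ (prod_dvd_prod_of_subset s t f hst)
  rw [← prod_const]
  exact prod_dvd_prod_of_dvd _ _ h

section
variable {h P A B : ℕ} {Q : Finset ℕ} {m : ℤ → ℕ} {N ν : ℕ → ℕ} (D : Dat h P A B Q m N ν)
  {n : ℕ} {lam : Fin n → ℕ} (hv : Monotone (vv n lam))
  (hr : ∀ i, vv n lam i ∈ Finset.Icc (-(A : ℤ)) B)
  (hc : ∀ y ∈ Finset.Icc (-(A : ℤ)) B, (univ.filter (fun i => vv n lam i = y)).card = m y)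

include hc in
theorem cnt (T : Finset ℤ) (hT : T ⊆ Finset.Icc (-(A : ℤ)) B) :
    (univ.filter (fun i => vv n lam i ∈ T)).card = ∑ y ∈ T, m y := by
  rw [card_eq_sum_card_fiberwise (f := vv n lam) (t := T)]
  · refine sum_congr rfl fun y hy => ?_
    rw [← hc y (hT hy)]
    congr 1
    ext i
    simp only [mem_filter, mem_univ, true_and]
    constructor
    · rintro ⟨_, h⟩; exact h
    · intro h; exact ⟨h ▸ hy, h⟩
  · intro i hi
    simp only [coe_filter, mem_univ, true_and, Set.mem_ofPred_eq] at hi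
    exact hi

include D hc in
theorem ex_of_mem (y : ℤ) (hy : y ∈ Finset.Icc (-(A : ℤ)) B) : ∃ i, vv n lam i = y := by
  have h1 := D.pos y hy
  rw [← hc y hy] at h1
  obtain ⟨i, hi⟩ := card_pos.1 h1
  exact ⟨i, (mem_filter.1 hi).2⟩

include hv in
theorem lt_of_vlt {i j : Fin n} (hij : vv n lam i < vv n lam j) : i < j := by
  by_contra hcon
  exact absurd (hv (not_lt.1 hcon)) (not_le.2 hij)

include D hv hc in
/-- every integer of the range is a root -/
theorem run (c : Fin n) (w : ℤ) (h1 : -(A : ℤ) ≤ w) (h2 : w < B) :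
    w ∈ U n lam c := by
  rw [mem_U]
  rcases lt_or_ge w (vv n lam c) with h3 | h3
  · obtain ⟨i, hi⟩ := ex_of_mem D hc w (mem_Icc.2 ⟨h1, h2.le⟩)
    have h4 : i < c := lt_of_vlt hv (by rw [hi]; exact h3)
    exact ⟨i, h4.ne, by rw [if_neg (not_lt.2 h4.le), hi, sub_zero]⟩
  · obtain ⟨i, hi⟩ := ex_of_mem D hc (w + 1) (mem_Icc.2 ⟨by linarith, by linarith⟩)
    have h4 : c < i := lt_of_vlt hv (by rw [hi]; linarith)
    exact ⟨i, h4.ne', by rw [if_pos h4, hi]; ring⟩

/-- the special columns -/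
def Sp (n : ℕ) (lam : Fin n → ℕ) (Q : Finset ℕ) : Finset (Fin n) :=
  univ.filter (fun l => ∃ p ∈ Q, vv n lam l = p + 1 ∧ ∃ i, i < l ∧ vv n lam i = vv n lam l)

/-- the number of the roots divisible by `p` -/
noncomputable def n0 (n : ℕ) (lam : Fin n → ℕ) (p : ℕ) (c : Fin n) : ℕ :=
  ((U n lam c).filter (fun u => (p : ℤ) ∣ u)).card

include D hv hr hc in
/-- roots divisible by `p` for a special column of level `p + 1` -/
theorem n0_add_le {p : ℕ} (hp : p ∈ Q) {l i0 : Fin n} (hl : vv n lam l = p + 1) (hi0 : i0 < l)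
    (hi0' : vv n lam i0 = p + 1) :
    n0 n lam p l + 1 ≤ ∑ y ∈ (Finset.Icc (-(A : ℤ)) p).filter (fun y => (p : ℤ) ∣ y), m y +
      ∑ y ∈ (Finset.Icc ((p : ℤ) + 2) B).filter (fun y => (p : ℤ) ∣ y - 1), m y +
      (m (p + 1) - 1) := by
  obtain ⟨hpp, -, hp2, hpP⟩ := D.prm p hp
  have hB := D.hB
  have hPB : (p : ℤ) + 2 ≤ B := by exact_mod_cast (by omega : p + 2 ≤ B)
  have hp0 : (0 : ℤ) < p := by exact_mod_cast hpp.pos
  rw [n0, Ucard, ← cnt hc _ (filter_subset_filter _ (Icc_subset_Icc_right (by linarith)) |>.trans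
    (filter_subset _ _)), ← cnt hc _ ((filter_subset _ _).trans (Icc_subset_Icc_left (by linarith))),
    ← hc (p + 1) (mem_Icc.2 ⟨by linarith, by linarith⟩)]
  set S1 := univ.filter (fun i => vv n lam i ∈
    (Finset.Icc (-(A : ℤ)) p).filter (fun y => (p : ℤ) ∣ y)) with hS1
  set S2 := univ.filter (fun i => vv n lam i ∈
    (Finset.Icc ((p : ℤ) + 2) B).filter (fun y => (p : ℤ) ∣ y - 1)) with hS2
  set S3 := univ.filter (fun i => vv n lam i = (p : ℤ) + 1) with hS3
  have hl3 : l ∈ S3 := mem_filter.2 ⟨mem_univ _, hl⟩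
  have hi3 : i0 ∈ S3.erase l := mem_erase.2 ⟨hi0.ne, mem_filter.2 ⟨mem_univ _, hi0'⟩⟩
  have hsub : (univ \ {l} : Finset (Fin n)).filter
      (fun i => (p : ℤ) ∣ vv n lam i - (if l < i then 1 else 0)) ⊆ S1 ∪ S2 ∪ (S3.erase l).erase i0 := by
    intro i hi
    obtain ⟨h1, h2⟩ := mem_filter.1 hi
    have h1' : i ≠ l := by simpa using h1
    have hri := mem_Icc.1 (hr i)
    rcases lt_trichotomy (vv n lam i) (p + 1) with h3 | h3 | h3
    · have h4 : i < l := lt_of_vlt hv (by rw [hl]; exact h3)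
      rw [if_neg (not_lt.2 h4.le), sub_zero] at h2
      exact mem_union_left _ (mem_union_left _ (mem_filter.2 ⟨mem_univ _, mem_filter.2
        ⟨mem_Icc.2 ⟨hri.1, by linarith⟩, h2⟩⟩))
    · refine mem_union_right _ (mem_erase.2 ⟨?_, mem_erase.2 ⟨h1', mem_filter.2 ⟨mem_univ _, h3⟩⟩⟩)
      rintro rfl
      rw [if_neg (not_lt.2 hi0.le), sub_zero, h3] at h2
      have h5 : (p : ℤ) ∣ 1 := (Int.dvd_add_right (dvd_refl _)).1 h2
      have h6 := Int.le_of_dvd one_pos h5
      have h7 := hpp.two_le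
      omega
    · have h4 : l < i := lt_of_vlt hv (by rw [hl]; exact h3)
      rw [if_pos h4] at h2
      exact mem_union_left _ (mem_union_right _ (mem_filter.2 ⟨mem_univ _, mem_filter.2
        ⟨mem_Icc.2 ⟨by linarith, hri.2⟩, h2⟩⟩))
  have h1 := (card_le_card hsub).trans ((card_union_le _ _).trans (add_le_add_left (card_union_le _ _) _))
  have h2 : ((S3.erase l).erase i0).card + 1 = (S3.erase l).card := card_erase_add_one hi3
  have h3 : (S3.erase l).card + 1 = S3.card := card_erase_add_one hl3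
  omega

include D hv hr hc in
/-- the earlier special columns have more roots divisible by `p` -/
theorem n0_lt {p q : ℕ} (hp : p ∈ Q) (hq : q ∈ Q) {l i0 c : Fin n} (hl : vv n lam l = p + 1)
    (hi0 : i0 < l) (hi0' : vv n lam i0 = p + 1) (hcl : c < l) (hcq : vv n lam c = q + 1) :
    n0 n lam p l + 1 ≤ n0 n lam p c := by
  obtain ⟨hpp, -, hp2, hpP⟩ := D.prm p hp
  obtain ⟨hqq, -, hq2, hqP⟩ := D.prm q hq
  have hp0 : (0 : ℤ) < p := by exact_mod_cast hpp.pos
  have hpodd : Odd p := hpp.odd_of_ne_two (by omega)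
  have hqodd : Odd q := hqq.odd_of_ne_two (by omega)
  have hqp : (q : ℤ) + 1 ≤ p + 1 := by rw [← hl, ← hcq]; exact hv hcl.le
  have hA := D.hA
  have hB := D.hB
  have hPB : (p : ℤ) + 2 ≤ B := by exact_mod_cast (by omega : p + 2 ≤ B)
  rw [n0, n0, Ucard, Ucard]
  have hndvd : ∀ z : ℤ, 0 < z → z ≤ p + 1 → z ≠ p → ¬ (p : ℤ) ∣ z := by
    intro z hz1 hz2 hz3 ⟨k, hk⟩
    have hk1 : 0 < k := by
      by_contra hcon
      have : (p : ℤ) * k ≤ 0 := mul_nonpos_of_nonneg_of_nonpos hp0.le (not_lt.1 hcon)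
      linarith
    rcases eq_or_lt_of_le (show (1 : ℤ) ≤ k from hk1) with h | h
    · rw [← h, mul_one] at hk
      exact hz3 hk
    · have h2 : (2 : ℤ) ≤ k := h
      have h3 : (p : ℤ) * 2 ≤ p * k := mul_le_mul_of_nonneg_left h2 hp0.le
      have h4 : (3 : ℤ) ≤ p := by exact_mod_cast (by omega : 3 ≤ p)
      linarith
  have hpar : ∀ q' ∈ Q, (p : ℤ) ≠ q' + 1 := by
    intro q' hq' he
    have hq'1 := D.prm q' hq'
    have h1 : Odd q' := hq'1.1.odd_of_ne_two (by omega)
    have h2 : p = q' + 1 := by exact_mod_cast he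
    rw [h2] at hpodd
    exact absurd hpodd (Nat.not_odd_iff_even.2 h1.add_one)
  have hcp : ¬ (p : ℤ) ∣ vv n lam c := by
    rw [hcq]
    exact hndvd _ (by positivity) hqp (fun h => hpar q hq h.symm)
  have hpp1 : ¬ (p : ℤ) ∣ p + 1 := hndvd _ (by positivity) le_rfl (by omega)
  set S := (univ \ {l} : Finset (Fin n)).filter
      (fun i => (p : ℤ) ∣ vv n lam i - (if l < i then 1 else 0)) with hS
  set T := (univ \ {c} : Finset (Fin n)).filter
      (fun i => (p : ℤ) ∣ vv n lam i - (if c < i then 1 else 0)) with hT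
  have hlT : l ∈ T := by
    refine mem_filter.2 ⟨by simpa using hcl.ne', ?_⟩
    rw [if_pos hcl, hl]
    simp
  have hTl : (T.erase l).card + 1 = T.card := card_erase_add_one hlT
  rcases le_or_gt i0 c with hi0c | hi0c
  · have hvi : vv n lam i0 ≤ vv n lam c := hv hi0c
    have hsub : S ⊆ T.erase l := by
      intro i hi
      obtain ⟨h1, h2⟩ := mem_filter.1 hi
      have h1' : i ≠ l := by simpa using h1
      rcases lt_trichotomy i c with h3 | h3 | h3
      · have h4 : i < l := h3.trans hcl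
        refine mem_erase.2 ⟨h1', mem_filter.2 ⟨by simpa using h3.ne, ?_⟩⟩
        rw [if_neg (not_lt.2 h4.le)] at h2
        rw [if_neg (not_lt.2 h3.le)]
        exact h2
      · exfalso
        rw [h3, if_neg (not_lt.2 hcl.le), sub_zero] at h2
        exact hcp h2
      · rcases lt_or_ge i l with h4 | h4
        · exfalso
          rw [if_neg (not_lt.2 h4.le), sub_zero] at h2
          have h5 : vv n lam i ≤ vv n lam l := hv h4.le
          have h6 : vv n lam c ≤ vv n lam i := hv h3.le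
          have h7 : vv n lam i = p + 1 := by linarith
          rw [h7] at h2
          exact hpp1 h2
        · have h5 : l < i := lt_of_le_of_ne h4 (Ne.symm h1')
          refine mem_erase.2 ⟨h1', mem_filter.2 ⟨by simpa using h3.ne', ?_⟩⟩
          rw [if_pos h5] at h2
          rw [if_pos h3]
          exact h2
    have := card_le_card hsub
    omega
  · have hi0T : i0 ∈ T.erase l := by
      refine mem_erase.2 ⟨hi0.ne, mem_filter.2 ⟨by simpa using hi0c.ne', ?_⟩⟩
      rw [if_pos hi0c, hi0']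
      simp
    have hTi : ((T.erase l).erase i0).card + 1 = (T.erase l).card := card_erase_add_one hi0T
    have hR : (univ.filter (fun i => vv n lam i = (p : ℤ))).card = 1 := by
      rw [hc p (mem_Icc.2 ⟨by linarith, by linarith⟩)]
      exact D.mid p (mem_Icc.2 ⟨hp0.le, by exact_mod_cast (by omega : p ≤ P + 1)⟩) hpar
    have hsub : S \ univ.filter (fun i => vv n lam i = (p : ℤ)) ⊆ (T.erase l).erase i0 := by
      intro i hi
      obtain ⟨hi1, hi2⟩ := mem_sdiff.1 hi
      obtain ⟨h1, h2⟩ := mem_filter.1 hi1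
      have hi2' : vv n lam i ≠ p := fun h => hi2 (mem_filter.2 ⟨mem_univ _, h⟩)
      have h1' : i ≠ l := by simpa using h1
      have hii0 : i ≠ i0 := by
        rintro rfl
        rw [if_neg (not_lt.2 hi0.le), sub_zero, hi0'] at h2
        exact hpp1 h2
      refine mem_erase.2 ⟨hii0, ?_⟩
      rcases lt_trichotomy i c with h3 | h3 | h3
      · have h4 : i < l := h3.trans hcl
        refine mem_erase.2 ⟨h1', mem_filter.2 ⟨by simpa using h3.ne, ?_⟩⟩
        rw [if_neg (not_lt.2 h4.le)] at h2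
        rw [if_neg (not_lt.2 h3.le)]
        exact h2
      · exfalso
        rw [h3, if_neg (not_lt.2 hcl.le), sub_zero] at h2
        exact hcp h2
      · rcases lt_or_ge i l with h4 | h4
        · exfalso
          rw [if_neg (not_lt.2 h4.le), sub_zero] at h2
          have h5 : vv n lam i ≤ vv n lam l := hv h4.le
          have h6 : vv n lam c ≤ vv n lam i := hv h3.le
          have h7 : (0 : ℤ) < vv n lam c := by rw [hcq]; positivity
          exact hndvd _ (by linarith) (by linarith) hi2' h2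
        · have h5 : l < i := lt_of_le_of_ne h4 (Ne.symm h1')
          refine mem_erase.2 ⟨h1', mem_filter.2 ⟨by simpa using h3.ne', ?_⟩⟩
          rw [if_pos h5] at h2
          rw [if_pos h3]
          exact h2
    have h1 := card_le_card hsub
    have h2 := card_le_card_sdiff_add_card (s := S) (t := univ.filter (fun i => vv n lam i = (p : ℤ)))
    omega

include D in
/-- the multiples of `p²` in the range -/
theorem wlem {p : ℕ} (hp : p ∈ Q) : ∃ w0 : ℤ, w0 ≤ 0 ∧ 0 ≤ w0 + N p ∧ 2 ≤ N p ∧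
    ∀ w : ℤ, (w0 ≤ w ∧ w < w0 + N p) ↔ (-(A : ℤ) ≤ (p : ℤ) ^ 2 * w ∧ (p : ℤ) ^ 2 * w < B) := by
  obtain ⟨hpp, -, hp2, hpP⟩ := D.prm p hp
  have hA := D.hA
  have hB := D.hB
  have hp0 : (0 : ℤ) < (p : ℤ) ^ 2 := by have := hpp.pos; positivity
  have hN := D.nn p hp
  have heq := Int.Ico_filter_dvd_eq (-(A : ℤ)) B hp0
  have hN2 : 2 ≤ N p := by
    rw [hN]
    have hsub : ({-(p : ℤ) ^ 2, 0} : Finset ℤ) ⊆
        (Finset.Ico (-(A : ℤ)) B).filter (fun w => (p : ℤ) ^ 2 ∣ w) := by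
      intro w hw
      rw [mem_insert, mem_singleton] at hw
      have h1 : (p : ℤ) ^ 2 ≤ A := by
        have : p ^ 2 ≤ A := (Nat.pow_le_pow_left hpP 2).trans hA
        exact_mod_cast this
      have h2 : (0 : ℤ) < B := by exact_mod_cast (by omega : 0 < B)
      rcases hw with rfl | rfl
      · refine mem_filter.2 ⟨mem_Ico.2 ⟨by linarith, by linarith⟩, (dvd_neg.2 dvd_rfl)⟩
      · exact mem_filter.2 ⟨mem_Ico.2 ⟨by linarith, h2⟩, dvd_zero _⟩
    refine le_trans ?_ (card_le_card hsub)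
    rw [card_pair]
    exact (neg_lt_zero.2 hp0).ne
  set a0 : ℤ := ⌈(-(A : ℤ) : ℤ) / (((p : ℤ) ^ 2 : ℤ) : ℚ)⌉ with ha0
  set b0 : ℤ := ⌈((B : ℤ) : ℚ) / (((p : ℤ) ^ 2 : ℤ) : ℚ)⌉ with hb0
  have hcard : N p = (Finset.Ico a0 b0).card := by
    rw [hN, heq, card_map]
  have hab : a0 + N p = b0 := by
    rw [hcard, Int.card_Ico]
    have : 0 < (Finset.Ico a0 b0).card := by omega
    rw [Int.card_Ico] at this
    omega
  have hmem : ∀ w : ℤ, (a0 ≤ w ∧ w < a0 + N p) ↔ (-(A : ℤ) ≤ (p : ℤ) ^ 2 * w ∧ (p : ℤ) ^ 2 * w < B) := by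
    intro w
    rw [hab, ← mem_Ico, ← mem_Ico]
    constructor
    · intro h
      have h1 : w * (p : ℤ) ^ 2 ∈ (Finset.Ico (-(A : ℤ)) B).filter (fun w => (p : ℤ) ^ 2 ∣ w) := by
        rw [heq]
        exact mem_map.2 ⟨w, h, rfl⟩
      rw [mul_comm]
      exact (mem_filter.1 h1).1
    · intro h
      have h1 : (p : ℤ) ^ 2 * w ∈ (Finset.Ico (-(A : ℤ)) B).filter (fun w => (p : ℤ) ^ 2 ∣ w) :=
        mem_filter.2 ⟨h, dvd_mul_right _ _⟩
      rw [heq] at h1
      obtain ⟨w', h2, h3⟩ := mem_map.1 h1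
      have h4 : w' * (p : ℤ) ^ 2 = (p : ℤ) ^ 2 * w := h3
      have h5 : w' = w := by
        rw [mul_comm] at h4
        exact mul_left_cancel₀ hp0.ne' h4
      exact h5 ▸ h2
  have h0 := (hmem 0).2 ⟨by simp, by rw [mul_zero]; exact_mod_cast (by omega : 0 < B)⟩
  exact ⟨a0, h0.1, by linarith [h0.2], hN2, hmem⟩

include D hv hr hc in
/-- the first condition for one column -/
theorem cond1 {p : ℕ} (hp : p ∈ Q) {c : Fin n} (hc0 : 0 ≤ vv n lam c) (x : ℤ) (hx : ¬ (p : ℤ) ∣ x) :
    tot A B m N ν p ≤ ((U n lam c).filter (fun u => (p : ℤ) ∣ x - u)).card := by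
  refine (D.head p hp x hx).trans ?_
  rw [Ucard, ← cnt hc _ ((filter_subset _ _).trans (Icc_subset_Icc_right (by
    have := D.hB; exact_mod_cast (by omega : (-1 : ℤ) ≤ (B : ℤ)))))]
  refine card_le_card fun i hi => ?_
  obtain ⟨h1, h2⟩ := mem_filter.1 ((mem_filter.1 hi).2)
  have h3 := mem_Icc.1 h1
  have h4 : i < c := lt_of_vlt hv (by linarith)
  refine mem_filter.2 ⟨by simpa using h4.ne, ?_⟩
  rw [if_neg (not_lt.2 h4.le), sub_zero]
  rw [← neg_sub]
  exact (dvd_neg.2 h2)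

include D hv hr hc in
/-- the second condition for one column -/
theorem cond2 {p : ℕ} (hp : p ∈ Q) {c : Fin n} (hc0 : 0 ≤ vv n lam c) (x : ℤ) (hx : (p : ℤ) ∣ x)
    (hx2 : ¬ (p : ℤ) ^ 2 ∣ x) :
    N p + ν p + 1 ≤ ((U n lam c).filter (fun u => (p : ℤ) ^ 2 ∣ x - u)).card := by
  refine (D.sec p hp x hx hx2).trans ?_
  rw [Ucard, ← cnt hc _ ((filter_subset _ _).trans (Icc_subset_Icc_right (by
    have := D.hB; exact_mod_cast (by omega : (-1 : ℤ) ≤ (B : ℤ)))))]
  set T := (univ \ {c} : Finset (Fin n)).filter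
      (fun i => (p : ℤ) ^ 2 ∣ x - (vv n lam i - (if c < i then 1 else 0))) with hT
  have hsplit := card_filter_add_card_filter_not (s := T)
    (fun i => vv n lam i - (if c < i then (1 : ℤ) else 0) < 0)
  rw [← hsplit]
  refine add_le_add (card_le_card fun i hi => ?_) ?_
  · obtain ⟨h1, h2⟩ := mem_filter.1 ((mem_filter.1 hi).2)
    have h3 := mem_Icc.1 h1
    have h4 : i < c := lt_of_vlt hv (by linarith)
    refine mem_filter.2 ⟨mem_filter.2 ⟨by simpa using h4.ne, ?_⟩, ?_⟩
    · rw [if_neg (not_lt.2 h4.le), sub_zero, ← neg_sub]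
      exact (dvd_neg.2 h2)
    · rw [if_neg (not_lt.2 h4.le), sub_zero]
      linarith
  · refine card_le_card_of_surjOn (fun i => vv n lam i - (if c < i then (1 : ℤ) else 0)) ?_
    intro w hw
    obtain ⟨h1, h2⟩ := mem_filter.1 (mem_coe.1 hw)
    have h3 := mem_Ico.1 h1
    have hA0 : (0 : ℤ) ≤ A := by positivity
    obtain ⟨i, hi, hiw⟩ := mem_U.1 (run D hv hc c w (by linarith) h3.2)
    refine ⟨i, mem_coe.2 (mem_filter.2 ⟨mem_filter.2 ⟨by simpa using hi, ?_⟩, ?_⟩), hiw⟩
    · rw [hiw, ← neg_sub]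
      exact (dvd_neg.2 h2)
    · rw [hiw]
      exact not_lt.2 h3.1

include hc in
theorem uniq {y : ℤ} (hy : y ∈ Finset.Icc (-(A : ℤ)) B) (hm : m y = 1) {i j : Fin n}
    (hi : vv n lam i = y) (hj : vv n lam j = y) : i = j := by
  have h1 := hc y hy
  rw [hm] at h1
  exact card_le_one.1 h1.le i (mem_filter.2 ⟨mem_univ _, hi⟩) j (mem_filter.2 ⟨mem_univ _, hj⟩)

include D hv hr hc in
/-- the roots divisible by `p²` -/
theorem cond3 {p : ℕ} (hp : p ∈ Q) {l : Fin n} (hl : vv n lam l = p + 1) (w0 : ℤ)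
    (hw : ∀ w : ℤ, (w0 ≤ w ∧ w < w0 + N p) ↔ (-(A : ℤ) ≤ (p : ℤ) ^ 2 * w ∧ (p : ℤ) ^ 2 * w < B)) :
    (U n lam l).filter (fun u => (p : ℤ) ^ 2 ∣ u) =
      (Finset.Ico w0 (w0 + N p)).val.map (fun w => (p : ℤ) ^ 2 * w) := by
  obtain ⟨hpp, -, hp2, hpP⟩ := D.prm p hp
  have hp0 : (0 : ℤ) < p := by exact_mod_cast hpp.pos
  have hp3 : (3 : ℤ) ≤ p := by exact_mod_cast (by omega : 3 ≤ p)
  have hp20 : (0 : ℤ) < (p : ℤ) ^ 2 := by positivity
  have hbig : (p : ℤ) + 1 < (p : ℤ) ^ 2 := by nlinarith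
  have hB := D.hB
  have hPB : (p : ℤ) + 2 ≤ B := by exact_mod_cast (by omega : p + 2 ≤ B)
  have hsmall : ∀ u : ℤ, 0 < u → u ≤ p + 1 → ¬ (p : ℤ) ^ 2 ∣ u := by
    intro u h1 h2 h3
    have := Int.le_of_dvd h1 h3
    linarith
  have hleft : ∀ i : Fin n, i < l → (p : ℤ) ^ 2 ∣ vv n lam i → m (vv n lam i) = 1 := by
    intro i hi h2
    have h1 : vv n lam i ≤ p + 1 := by rw [← hl]; exact hv hi.le
    have hri := mem_Icc.1 (hr i)
    rcases lt_trichotomy (vv n lam i) 0 with h3 | h3 | h3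
    · exact D.headsq p hp _ (mem_Icc.2 ⟨hri.1, by linarith⟩) h2
    · rw [h3]
      exact D.mid 0 (mem_Icc.2 ⟨le_rfl, by positivity⟩) (fun q _ h => by
        have : (0 : ℤ) ≤ q := by positivity
        linarith)
    · exact absurd h2 (hsmall _ h3 h1)
  have hright : ∀ i : Fin n, l < i → (p : ℤ) ^ 2 ∣ vv n lam i - 1 → m (vv n lam i) = 1 := by
    intro i hi h2
    have h1 : (p : ℤ) + 1 ≤ vv n lam i := by rw [← hl]; exact hv hi.le
    have hri := mem_Icc.1 (hr i)
    rcases le_or_gt (vv n lam i) (P + 1) with h3 | h3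
    · refine D.mid _ (mem_Icc.2 ⟨by linarith, h3⟩) (fun q hq h => ?_)
      rw [h, add_sub_cancel_right] at h2
      have h4 : p ^ 2 ∣ q := by exact_mod_cast h2
      have hqq := (D.prm q hq).1
      have h5 : p ∣ q := (dvd_pow_self p two_ne_zero).trans h4
      have h6 : p = q := (Nat.prime_dvd_prime_iff_eq hpp hqq).1 h5
      rw [h6] at h4
      have h7 := Nat.le_of_dvd hqq.pos h4
      have h8 := hqq.two_le
      nlinarith
    · exact D.tail1 p hp _ (mem_Icc.2 ⟨by linarith, hri.2⟩) ((dvd_pow_self _ two_ne_zero).trans h2)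
  have hmix : ∀ i j : Fin n, i < l → l < j → vv n lam i = vv n lam j - 1 →
      ¬ (p : ℤ) ^ 2 ∣ vv n lam i := by
    intro i j hi hj h
    have h1 : vv n lam i ≤ p + 1 := by rw [← hl]; exact hv hi.le
    have h2 : (p : ℤ) + 1 ≤ vv n lam j := by rw [← hl]; exact hv hj.le
    exact hsmall _ (by linarith) h1
  have hnd : ((U n lam l).filter (fun u => (p : ℤ) ^ 2 ∣ u)).Nodup := by
    unfold U
    rw [Multiset.filter_map]
    refine Multiset.Nodup.map_on ?_ (Multiset.Nodup.filter _ (Finset.nodup _))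
    intro i hi j hj hij
    obtain ⟨hi1, hi2⟩ := Multiset.mem_filter.1 hi
    obtain ⟨hj1, hj2⟩ := Multiset.mem_filter.1 hj
    have hil : i ≠ l := by
      rw [Finset.mem_val] at hi1
      simpa using hi1
    have hjl : j ≠ l := by
      rw [Finset.mem_val] at hj1
      simpa using hj1
    simp only [Function.comp_apply] at hi2 hj2
    rcases lt_or_gt_of_ne hil with h1 | h1 <;> rcases lt_or_gt_of_ne hjl with h2 | h2
    · rw [if_neg (not_lt.2 h1.le), if_neg (not_lt.2 h2.le), sub_zero, sub_zero] at hij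
      rw [if_neg (not_lt.2 h1.le), sub_zero] at hi2
      exact uniq hc (hr i) (hleft i h1 hi2) rfl hij.symm
    · rw [if_neg (not_lt.2 h1.le), if_pos h2, sub_zero] at hij
      rw [if_neg (not_lt.2 h1.le), sub_zero] at hi2
      exact absurd hi2 (hmix i j h1 h2 hij)
    · rw [if_pos h1, if_neg (not_lt.2 h2.le), sub_zero] at hij
      rw [if_neg (not_lt.2 h2.le), sub_zero] at hj2
      exact absurd hj2 (hmix j i h2 h1 hij.symm)
    · rw [if_pos h1, if_pos h2] at hij
      rw [if_pos h1] at hi2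
      exact uniq hc (hr i) (hright i h1 hi2) rfl (by linarith)
  have hnd2 : ((Finset.Ico w0 (w0 + N p)).val.map (fun w => (p : ℤ) ^ 2 * w)).Nodup :=
    Multiset.Nodup.map (fun a b h => mul_left_cancel₀ hp20.ne' h) (Finset.nodup _)
  refine (Multiset.Nodup.ext hnd hnd2).2 fun u => ?_
  rw [Multiset.mem_filter, Multiset.mem_map]
  constructor
  · rintro ⟨h1, w, rfl⟩
    obtain ⟨i, hi, hiu⟩ := mem_U.1 h1
    have hri := mem_Icc.1 (hr i)
    refine ⟨w, Finset.mem_val.symm ▸ mem_Ico.2 ((hw w).2 ?_), rfl⟩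
    rcases lt_or_gt_of_ne hi with h3 | h3
    · rw [if_neg (not_lt.2 h3.le), sub_zero] at hiu
      have h1 : vv n lam i ≤ p + 1 := by rw [← hl]; exact hv h3.le
      exact ⟨by linarith, by linarith⟩
    · rw [if_pos h3] at hiu
      have h1 : (p : ℤ) + 1 ≤ vv n lam i := by rw [← hl]; exact hv h3.le
      have hA0 : (0 : ℤ) ≤ A := by positivity
      exact ⟨by linarith, by linarith⟩
  · rintro ⟨w, h1, rfl⟩
    rw [Finset.mem_val, mem_Ico] at h1
    have h2 := (hw w).1 h1
    exact ⟨run D hv hc l _ h2.1 h2.2, dvd_mul_right _ _⟩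

include D hc in
theorem card_Sp : (Sp n lam Q).card = ∑ p ∈ Q, (m (p + 1) - 1) := by
  rw [card_eq_sum_card_fiberwise (f := fun l => (vv n lam l - 1).toNat) (t := Q)]
  · refine sum_congr rfl fun p hp => ?_
    obtain ⟨hpp, -, hp2, hpP⟩ := D.prm p hp
    have hB := D.hB
    have hmem : ((p : ℤ) + 1) ∈ Finset.Icc (-(A : ℤ)) B :=
      mem_Icc.2 ⟨by positivity |> fun (h : (0 : ℤ) ≤ (p : ℤ) + 1) => by
        have : (0 : ℤ) ≤ A := by positivity
        linarith, by exact_mod_cast (by omega : p + 1 ≤ B)⟩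
    have h1 := hc _ hmem
    have hpos := D.pos _ hmem
    rw [← h1] at hpos
    have hne : (univ.filter (fun i => vv n lam i = (p : ℤ) + 1)).Nonempty := card_pos.1 hpos
    have h2 := card_erase_add_one (min'_mem _ hne)
    rw [← h1]
    have h3 : (Sp n lam Q).filter (fun l => (vv n lam l - 1).toNat = p) =
        (univ.filter (fun i => vv n lam i = (p : ℤ) + 1)).erase
          ((univ.filter (fun i => vv n lam i = (p : ℤ) + 1)).min' hne) := by
      ext l
      rw [mem_filter, Sp, mem_filter, mem_erase, mem_filter]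
      constructor
      · rintro ⟨⟨-, q, hq, hl, i, hi, hil⟩, h4⟩
        rw [hl, add_sub_cancel_right, Int.toNat_natCast] at h4
        subst h4
        refine ⟨?_, mem_univ _, hl⟩
        rintro rfl
        have := min'_le (univ.filter (fun i => vv n lam i = (q : ℤ) + 1)) i
          (mem_filter.2 ⟨mem_univ _, by rw [hil, hl]⟩)
        exact absurd hi (not_lt.2 this)
      · rintro ⟨h4, -, h5⟩
        refine ⟨⟨mem_univ _, p, hp, h5, _, lt_of_le_of_ne (min'_le _ l
          (mem_filter.2 ⟨mem_univ _, h5⟩)) (Ne.symm h4), ?_⟩, ?_⟩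
        · have := (mem_filter.1 (min'_mem _ hne)).2
          rw [this, h5]
        · rw [h5, add_sub_cancel_right, Int.toNat_natCast]
    rw [h3]
    omega
  · intro l hl
    rw [mem_coe, Sp, mem_filter] at hl
    obtain ⟨-, q, hq, hl, -⟩ := hl
    rw [mem_coe]
    simp only [hl, add_sub_cancel_right, Int.toNat_natCast]
    exact hq

end

theorem t (hLST : LST) (hPB : PADB) (hPC : PADC) : CNT := by
  intro h P A B Q m N ν D n hn
  obtain ⟨lam, hmono, hlam, hv, hr, hc⟩ := hLST A B n m D.pos hn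
  have key : ∀ l ∈ Sp n lam Q, ∃ q ∈ Q, (vv n lam l - 1).toNat = q ∧ vv n lam l = q + 1 ∧
      ∃ i, i < l ∧ vv n lam i = q + 1 := by
    intro l hl
    rw [Sp, mem_filter] at hl
    obtain ⟨-, q, hq, hl, i, hi, hil⟩ := hl
    exact ⟨q, hq, by rw [hl, add_sub_cancel_right, Int.toNat_natCast], hl, i, hi, by rw [hil, hl]⟩
  have hB := D.hB
  have hE : ∀ (p : ℕ), p ∈ Q → ∀ l i0 : Fin n, vv n lam l = p + 1 → i0 < l → vv n lam i0 = p + 1 →
      n0 n lam p l + N p + ν p + 1 ≤ tot A B m N ν p := by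
    intro p hp l i0 hl hi0 hi0'
    have := n0_add_le D hv hr hc hp hl hi0 hi0'
    unfold tot
    omega
  refine ⟨lam, Sp n lam Q, fun l => (vv n lam l - 1).toNat,
    fun l => n0 n lam (vv n lam l - 1).toNat l + N (vv n lam l - 1).toNat +
      ν (vv n lam l - 1).toNat, hmono, fun i => ?_, card_Sp D hc, ?_, ?_, ?_, ?_⟩
  · have := hlam i
    have := D.hh
    omega
  · intro l hl
    obtain ⟨q, hq, he, -⟩ := key l hl
    have := D.prm q hq
    simp only [he]
    exact ⟨this.1, this.2.1, this.2.2.1⟩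
  · -- sets with at least two elements
    intro l hl C hCL hC2 hCh x
    obtain ⟨p, hp, he, hlv, i0, hi0, hi0v⟩ := key l hl
    simp only [he]
    obtain ⟨hpp, hhp, hp2, hpP⟩ := D.prm p hp
    have hT := hE p hp l i0 hlv hi0 hi0v
    have hCv : ∀ c ∈ C, 0 < vv n lam c ∧ vv n lam c ≤ P + 1 := by
      intro c hcC
      obtain ⟨q, hq, -, hcv, -⟩ := key c (hCL hcC)
      have := (D.prm q hq).2.2.2
      rw [hcv]
      exact ⟨by positivity, by exact_mod_cast (by omega : q + 1 ≤ P + 1)⟩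
    have hB1 : (-1 : ℤ) ≤ B := by have : (0 : ℤ) ≤ B := by positivity
                                  linarith
    unfold FF
    by_cases hx : (p : ℤ) ∣ x
    · refine pow_dvd_prod (univ.filter (fun i => vv n lam i ∈
        (Finset.Icc ((P : ℤ) + 2) B).filter (fun y => (p : ℤ) ∣ y - (C.card : ℕ)))) _ ?_ _ _ _ ?_ ?_
      · intro i hi
        obtain ⟨h1, h2⟩ := mem_filter.1 ((mem_filter.1 hi).2)
        refine mem_sdiff.2 ⟨mem_univ _, fun h3 => ?_⟩
        have := (hCv i h3).2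
        have := (mem_Icc.1 h1).1
        linarith
      · have hP0 : (0 : ℤ) ≤ P := by positivity
        have hA0 : (0 : ℤ) ≤ A := by positivity
        rw [cnt hc _ ((filter_subset _ _).trans (Icc_subset_Icc_left (by linarith)))]
        exact hT.trans (D.tail p hp _ hC2 hCh)
      · intro i hi
        obtain ⟨h1, h2⟩ := mem_filter.1 ((mem_filter.1 hi).2)
        have h3 : C.filter (fun c => c < i) = C := by
          refine filter_true_of_mem fun c hcC => lt_of_vlt hv ?_
          have := (hCv c hcC).2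
          have := (mem_Icc.1 h1).1
          linarith
        rw [h3, show x - vv n lam i + (C.card : ℤ) = x - (vv n lam i - (C.card : ℕ)) by push_cast; ring]
        exact dvd_sub hx h2
    · refine pow_dvd_prod (univ.filter (fun i => vv n lam i ∈
        (Finset.Icc (-(A : ℤ)) (-1)).filter (fun y => (p : ℤ) ∣ y - x))) _ ?_ _ _ _ ?_ ?_
      · intro i hi
        obtain ⟨h1, h2⟩ := mem_filter.1 ((mem_filter.1 hi).2)
        refine mem_sdiff.2 ⟨mem_univ _, fun h3 => ?_⟩
        have := (hCv i h3).1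
        have := (mem_Icc.1 h1).2
        linarith
      · rw [cnt hc _ ((filter_subset _ _).trans (Icc_subset_Icc_right hB1))]
        exact hT.trans (D.head p hp x hx)
      · intro i hi
        obtain ⟨h1, h2⟩ := mem_filter.1 ((mem_filter.1 hi).2)
        have h3 : C.filter (fun c => c < i) = ∅ := by
          refine filter_false_of_mem fun c hcC => not_lt.2 (le_of_lt (lt_of_vlt hv ?_))
          have := (hCv c hcC).1
          have := (mem_Icc.1 h1).2
          linarith
        rw [h3, card_empty, Nat.cast_zero, add_zero, ← neg_sub]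
        exact dvd_neg.2 h2
  · -- earlier columns
    intro l hl c hcS hcl x
    obtain ⟨p, hp, he, hlv, i0, hi0, hi0v⟩ := key l hl
    obtain ⟨q, hq, -, hcv, -⟩ := key c hcS
    simp only [he]
    have hT := hE p hp l i0 hlv hi0 hi0v
    have hc0 : 0 ≤ vv n lam c := by rw [hcv]; positivity
    have hlt := n0_lt D hv hr hc hp hq hlv hi0 hi0v hcl hcv
    obtain ⟨w0, hw1, hw2, hN2, hw⟩ := wlem D hp
    rw [FF_single]
    refine hPB p (D.prm p hp).1 (U n lam c) (N p) (ν p) _ w0 (fun x hx => ?_) (fun x hx hx2 => ?_)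
      (fun w h1 h2 => ?_) (D.nu1 p hp) ?_ x
    · exact hT.trans (cond1 D hv hr hc hp hc0 x hx)
    · have := cond2 D hv hr hc hp hc0 x hx hx2
      unfold n0 at hlt ⊢
      omega
    · have := (hw w).1 ⟨h1, h2⟩
      exact run D hv hc c _ this.1 this.2
    · unfold n0 at hlt ⊢
      omega
  · -- exact valuation
    intro l hl
    obtain ⟨p, hp, he, hlv, i0, hi0, hi0v⟩ := key l hl
    simp only [he]
    have hT := hE p hp l i0 hlv hi0 hi0v
    have hl0 : 0 ≤ vv n lam l := by rw [hlv]; positivity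
    obtain ⟨w0, hw1, hw2, hN2, hw⟩ := wlem D hp
    obtain ⟨hpp, hhp, hp2, hpP⟩ := D.prm p hp
    simp only [FF_single]
    refine hPC p hpp (by omega) (U n lam l) (N p) (ν p) _ w0 rfl (by omega) (fun x hx => ?_)
      (fun x hx hx2 => ?_) (cond3 D hv hr hc hp hlv w0 hw) hw1 hw2 (D.nu1 p hp) (D.nu2 p hp)
    · exact hT.trans (cond1 D hv hr hc hp hl0 x hx)
    · have := cond2 D hv hr hc hp hl0 x hx hx2
      unfold n0
      omega

end Pool.Agent.H47.PM.CNT
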