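import Pool.Agent.H47.PM.Stm

set_option autoImplicit false

namespace Pool.Agent.H47.PM.EXP

open Finset

theorem t (hB : BRD) (hC : CNI) : EXP := by
  intro n h lam a hmono hlam ha M hM
  have h1 := hB n (fun i => univ.filter (fun r : Fin n => (r : ℕ) < lam i ∨ n ≤ (r : ℕ) + a i)) M hM
  have h2 : (Matrix.of (fun r i : Fin n => if r ∈ univ.filter (fun r : Fin n =>
      (r : ℕ) < lam i ∨ n ≤ (r : ℕ) + a i) then (-1 : ℤ) else 1)) = mat n lam a := by
    ext r i
    simp [mat]
  rw [h2] at h1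
  refine h1.trans ?_
  have h3 : ∀ x : ℕ, (Nat.card {g : Fin n → Fin n ⊕ Fin x // Function.Injective g ∧
        ∀ i r, g i = Sum.inl r → r ∈ univ.filter (fun r : Fin n =>
          (r : ℕ) < lam i ∨ n ≤ (r : ℕ) + a i)} : ℤ) =
      ∑ C : Finset (Fin n), (NN n h a C : ℤ) * FF n lam C x := by
    intro x
    rw [← hC n h lam a hmono hlam ha x]
    simp only [mem_filter, mem_univ, true_and]
  rw [sum_congr rfl (fun x _ => by rw [h3 x])]

end Pool.Agent.H47.PM.EXP
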