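import Pool.Agent.H47.PM.Stm

/-!
Project PM, stub LST: from multiplicities to `lam`.
-/

set_option autoImplicit false

namespace Pool.Agent.H47.PM

open Finset

theorem LST.t : LST := by
  intro A B n m hm hs
  set S : ℕ → ℕ := fun k => ∑ j ∈ range k, m (-(A : ℤ) + j) with hS
  have S0 : S 0 = 0 := by simp [hS]
  have hS1 : ∀ k, S (k + 1) = S k + m (-(A : ℤ) + k) := fun k => Finset.sum_range_succ _ _
  have hn : S (A + B + 1) = n := by
    rw [← hs, hS]
    refine Finset.sum_bij (fun (j : ℕ) _ => -(A : ℤ) + j) ?_ ?_ ?_ ?_
    · intro j hj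
      rw [Finset.mem_range] at hj
      rw [Finset.mem_Icc]
      constructor <;> omega
    · intro j _ j' _ h
      omega
    · intro y hy
      rw [Finset.mem_Icc] at hy
      refine ⟨(y + A).toNat, ?_, ?_⟩
      · rw [Finset.mem_range]
        omega
      · omega
    · intro j _
      rfl
  have step : ∀ k, k ≤ A + B → S k + 1 ≤ S (k + 1) := by
    intro k hk
    rw [hS1]
    have := hm (-(A : ℤ) + k) (by rw [Finset.mem_Icc]; constructor <;> omega)
    omega
  have mono : ∀ l k, k ≤ l → l ≤ A + B + 1 → S k + (l - k) ≤ S l := by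
    intro l
    induction l with
    | zero => intro k hk _; have : k = 0 := by omega
              subst this; omega
    | succ l ih =>
      intro k hk hl
      rcases Nat.lt_or_ge l k with h | h
      · have : k = l + 1 := by omega
        subst this
        omega
      · have h1 := ih k h (by omega)
        have h2 := step l (by omega)
        omega
  set K : ℕ → ℕ := fun i => Nat.findGreatest (fun k => S k ≤ i) (A + B) with hK
  have K1 : ∀ i, K i ≤ A + B := fun i => Nat.findGreatest_le _
  have K2 : ∀ i, S (K i) ≤ i := fun i =>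
    Nat.findGreatest_spec (P := fun k => S k ≤ i) (Nat.zero_le _) (by rw [S0]; exact Nat.zero_le _)
  have K3 : ∀ i, i < n → i < S (K i + 1) := by
    intro i hi
    rcases Nat.lt_or_ge (K i) (A + B) with h | h
    · have := Nat.findGreatest_is_greatest (P := fun k => S k ≤ i) (k := K i + 1) (n := A + B)
        (Nat.lt_succ_self _) h
      simpa using this
    · have : K i = A + B := le_antisymm (K1 i) h
      rw [this, hn]
      exact hi
  have K4 : ∀ i j, j ≤ A + B → S j ≤ i → i < S (j + 1) → K i = j := by
    intro i j hj h1 h2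
    have h3 : j ≤ K i := Nat.le_findGreatest hj h1
    by_contra h
    have h4 : j + 1 ≤ K i := by omega
    have h5 := mono (K i) (j + 1) h4 (by have := K1 i; omega)
    have := K2 i
    omega
  have K5 : ∀ i, K i ≤ i := by
    intro i
    have h1 := mono (K i) 0 (Nat.zero_le _) (by have := K1 i; omega)
    have := K2 i
    omega
  have K6 : ∀ i i', i ≤ i' → K i ≤ K i' := fun i i' h =>
    Nat.le_findGreatest (K1 i) ((K2 i).trans h)
  have K7 : ∀ i i', i < n → i ≤ i' → K i' - K i ≤ i' - i := by
    intro i i' hi h
    rcases Nat.lt_or_ge (K i) (K i') with h' | h'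
    · have h1 := mono (K i') (K i + 1) h' (by have := K1 i'; omega)
      have h2 := K2 i'
      have h3 := K3 i hi
      omega
    · omega
  have hv : ∀ i : Fin n, vv n (fun i : Fin n => (i : ℕ) + A - K i) i = -(A : ℤ) + K i := by
    intro i
    unfold vv
    have := K5 i
    simp only
    omega
  refine ⟨fun i => (i : ℕ) + A - K i, ?_, ?_, ?_, ?_, ?_⟩
  · intro i i' h
    have h1 : (i : ℕ) ≤ i' := h
    have h2 := K7 i i' i.2 h1
    have h3 := K5 i
    have h4 := K5 i'
    simp only
    omega
  · intro i
    have h1 := K3 i i.2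
    have h2 := mono (A + B + 1) (K i + 1) (by have := K1 i; omega) le_rfl
    have h3 := K5 i
    have h4 := K1 i
    simp only
    omega
  · intro i i' h
    rw [hv, hv]
    have := K6 i i' h
    omega
  · intro i
    rw [hv, Finset.mem_Icc]
    have := K1 i
    constructor <;> omega
  · intro y hy
    rw [Finset.mem_Icc] at hy
    obtain ⟨j, hj⟩ : ∃ j : ℕ, y = -(A : ℤ) + j := ⟨(y + A).toNat, by omega⟩
    have hjB : j ≤ A + B := by omega
    have h1 : S (j + 1) ≤ n := by
      rw [← hn]
      have := mono (A + B + 1) (j + 1) (by omega) le_rfl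
      omega
    have h2 : ((univ : Finset (Fin n)).filter
        (fun i => vv n (fun i : Fin n => (i : ℕ) + A - K i) i = y)).card
        = (Finset.Ico (S j) (S (j + 1))).card := by
      refine Finset.card_bij (fun i _ => (i : ℕ)) ?_ ?_ ?_
      · intro i hi
        rw [Finset.mem_filter, hv] at hi
        have h3 : K i = j := by
          have := hi.2
          omega
        rw [Finset.mem_Ico, ← h3]
        exact ⟨K2 i, K3 i i.2⟩
      · intro i _ i' _ h
        exact Fin.ext h
      · intro i hi
        rw [Finset.mem_Ico] at hi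
        refine ⟨⟨i, by omega⟩, ?_, rfl⟩
        rw [Finset.mem_filter, hv]
        refine ⟨Finset.mem_univ _, ?_⟩
        have := K4 i j hjB hi.1 hi.2
        simp only [this]
        exact hj.symm
    rw [h2, Nat.card_Ico, hS1, hj]
    omega

end Pool.Agent.H47.PM
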