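import Pool.Agent.H47.PM.Stm

/-!
Project PM, stub NST: the number of the injections into nested sets.
-/

set_option autoImplicit false

namespace Pool.Agent.H47.PM.NST

open Finset

/-- the injections into the nested sets -/
noncomputable def Fk {α : Type} [DecidableEq α] [Fintype α] (k : ℕ) (A : Fin k → Finset α) :
    Finset (Fin k → α) := by
  classical
  exact univ.filter (fun f => Function.Injective f ∧ ∀ i, f i ∈ A i)

lemma mem_Fk {α : Type} [DecidableEq α] [Fintype α] {k : ℕ} {A : Fin k → Finset α} {f : Fin k → α} :
    f ∈ Fk k A ↔ Function.Injective f ∧ ∀ i, f i ∈ A i := by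
  classical
  simp [Fk]

lemma main (α : Type) [DecidableEq α] [Fintype α] (k : ℕ) : ∀ (A : Fin k → Finset α), Monotone A →
    ((Fk k A).card : ℤ) = ∏ i : Fin k, (((A i).card : ℤ) - i) := by
  induction k with
  | zero =>
    intro A _
    have : Fk 0 A = univ := by
      ext f
      rw [mem_Fk]
      simp only [mem_univ, iff_true]
      exact ⟨fun i => i.elim0, fun i => i.elim0⟩
    rw [this]
    simp
  | succ k ih =>
    intro A hA
    classical
    have hA' : Monotone (fun i : Fin k => A i.castSucc) := fun i j h => hA (Fin.castSucc_le_castSucc_iff.2 h)
    have h1 := ih _ hA'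
    rw [Fin.prod_univ_castSucc]
    simp only [Fin.val_castSucc, Fin.val_last]
    rw [← h1]
    have h2 : (Fk (k + 1) A).card = ∑ b ∈ Fk k (fun i : Fin k => A i.castSucc),
        ((Fk (k + 1) A).filter (fun a => (fun i : Fin k => a i.castSucc) = b)).card := by
      apply Finset.card_eq_sum_card_fiberwise
      intro f hf
      have hf' := mem_Fk.1 (Finset.mem_coe.1 hf)
      apply Finset.mem_coe.2
      rw [mem_Fk]
      exact ⟨fun i j h => Fin.castSucc_injective k (hf'.1 h), fun i => hf'.2 _⟩
    have h3 : ∀ b ∈ Fk k (fun i : Fin k => A i.castSucc),
        ((((Fk (k + 1) A).filter (fun a => (fun i : Fin k => a i.castSucc) = b)).card : ℕ) : ℤ) =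
          ((A (Fin.last k)).card : ℤ) - k := by
      intro b hb
      have hb' := mem_Fk.1 hb
      have h4 : ((Fk (k + 1) A).filter (fun a => (fun i : Fin k => a i.castSucc) = b)).card =
          (A (Fin.last k) \ univ.image b).card := by
        refine Finset.card_bij' (fun a _ => a (Fin.last k)) (fun x _ => Fin.snoc (α := fun _ => α) b x) ?_ ?_ ?_ ?_
        · intro a ha
          rw [Finset.mem_filter, mem_Fk] at ha
          obtain ⟨⟨ha1, ha2⟩, ha3⟩ := ha
          rw [Finset.mem_sdiff, Finset.mem_image]
          refine ⟨ha2 _, ?_⟩
          rintro ⟨i, _, hi⟩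
          rw [← ha3] at hi
          have := ha1 hi
          exact (Fin.castSucc_lt_last i).ne this
        · intro x hx
          rw [Finset.mem_sdiff, Finset.mem_image] at hx
          rw [Finset.mem_filter, mem_Fk]
          refine ⟨⟨?_, ?_⟩, ?_⟩
          · intro i j
            refine Fin.lastCases ?_ (fun i => ?_) i
            · refine Fin.lastCases ?_ (fun j => ?_) j
              · intro _
                rfl
              · intro h
                rw [Fin.snoc_last, Fin.snoc_castSucc] at h
                exact absurd ⟨j, mem_univ _, h.symm⟩ hx.2
            · refine Fin.lastCases ?_ (fun j => ?_) j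
              · intro h
                rw [Fin.snoc_last, Fin.snoc_castSucc] at h
                exact absurd ⟨i, mem_univ _, h⟩ hx.2
              · intro h
                rw [Fin.snoc_castSucc, Fin.snoc_castSucc] at h
                rw [hb'.1 h]
          · intro i
            refine Fin.lastCases ?_ (fun i => ?_) i
            · rw [Fin.snoc_last]
              exact hx.1
            · rw [Fin.snoc_castSucc]
              exact hb'.2 i
          · funext i
            rw [Fin.snoc_castSucc]
        · intro a ha
          rw [Finset.mem_filter] at ha
          funext i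
          refine Fin.lastCases ?_ (fun i => ?_) i
          · rw [Fin.snoc_last]
          · rw [Fin.snoc_castSucc, ← ha.2]
        · intro x _
          rw [Fin.snoc_last]
      have h5 : univ.image b ⊆ A (Fin.last k) := by
        intro x hx
        rw [Finset.mem_image] at hx
        obtain ⟨i, _, rfl⟩ := hx
        exact hA (Fin.le_last _) (hb'.2 i)
      have h6 : (univ.image b).card = k := by
        rw [Finset.card_image_of_injective _ hb'.1]
        simp
      rw [h4, Finset.card_sdiff_of_subset h5, Nat.cast_sub (Finset.card_le_card h5), h6]
    rw [h2]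
    push_cast
    rw [Finset.sum_congr rfl h3, Finset.sum_const, nsmul_eq_mul]

theorem t : NST := by
  intro k α _ _ A hA
  classical
  rw [← main α k A hA]
  congr 1
  rw [Nat.card_eq_fintype_card, Fintype.card_subtype]
  congr 1

end Pool.Agent.H47.PM.NST
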