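import Pool.Agent.H47.PM.Stm

set_option autoImplicit false

namespace Pool.Agent.H47.PM.PADB

open Finset

lemma dvd_one (p x : ℤ) (U : Multiset ℤ) :
    p ^ (U.filter (fun u => p ∣ x - u)).card ∣ (U.map (fun u => x - u)).prod := by
  induction U using Multiset.induction_on with
  | empty => simp
  | cons u U ih =>
    rw [Multiset.map_cons, Multiset.prod_cons]
    by_cases h : p ∣ x - u
    · rw [Multiset.filter_cons_of_pos (p := fun u => p ∣ x - u) _ h, Multiset.card_cons, pow_succ, mul_comm]
      exact mul_dvd_mul h ih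
    · rw [Multiset.filter_cons_of_neg (p := fun u => p ∣ x - u) _ h]
      exact ih.mul_left _

lemma dvd_two (p x : ℤ) (U : Multiset ℤ) :
    p ^ ((U.filter (fun u => p ∣ x - u)).card + (U.filter (fun u => p ^ 2 ∣ x - u)).card) ∣
      (U.map (fun u => x - u)).prod := by
  induction U using Multiset.induction_on with
  | empty => simp
  | cons u U ih =>
    rw [Multiset.map_cons, Multiset.prod_cons]
    by_cases h2 : p ^ 2 ∣ x - u
    · have h : p ∣ x - u := (dvd_pow_self p two_ne_zero).trans h2
      rw [Multiset.filter_cons_of_pos (p := fun u => p ∣ x - u) _ h,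
        Multiset.filter_cons_of_pos (p := fun u => p ^ 2 ∣ x - u) _ h2, Multiset.card_cons,
        Multiset.card_cons]
      have e : (U.filter (fun u => p ∣ x - u)).card + 1 +
          ((U.filter (fun u => p ^ 2 ∣ x - u)).card + 1) =
          2 + ((U.filter (fun u => p ∣ x - u)).card + (U.filter (fun u => p ^ 2 ∣ x - u)).card) := by
        ring
      rw [e, pow_add]
      exact mul_dvd_mul h2 ih
    · rw [Multiset.filter_cons_of_neg (p := fun u => p ^ 2 ∣ x - u) _ h2]
      by_cases h : p ∣ x - u
      · rw [Multiset.filter_cons_of_pos (p := fun u => p ∣ x - u) _ h, Multiset.card_cons]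
        have e : (U.filter (fun u => p ∣ x - u)).card + 1 +
            (U.filter (fun u => p ^ 2 ∣ x - u)).card =
            1 + ((U.filter (fun u => p ∣ x - u)).card + (U.filter (fun u => p ^ 2 ∣ x - u)).card) := by
          ring
        rw [e, pow_add, pow_one]
        exact mul_dvd_mul h ih
      · rw [Multiset.filter_cons_of_neg (p := fun u => p ∣ x - u) _ h]
        exact ih.mul_left _

lemma fact_dvd (X w0 : ℤ) (N : ℕ) : (N.factorial : ℤ) ∣ ∏ i ∈ range N, (X - (w0 + i)) := by
  have h : ∏ i ∈ range N, (X - (w0 + i)) = (-1) ^ N * ∏ i ∈ range N, ((w0 - X) + i) := by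
    have h0 : ((-1 : ℤ)) ^ N = ∏ _i ∈ range N, (-1 : ℤ) := by rw [Finset.prod_const, card_range]
    rw [h0, ← Finset.prod_mul_distrib]
    exact Finset.prod_congr rfl fun i _ => by ring
  rw [h]
  exact (Nat.factorial_coe_dvd_prod N (w0 - X)).mul_left _

theorem t : Pool.Agent.H47.PM.PADB := by
  intro p hp U N ν E w0 h1 h2 h3 h4 h5 x
  by_cases hx : (p : ℤ) ∣ x
  · by_cases hx2 : (p : ℤ) ^ 2 ∣ x
    · obtain ⟨X, rfl⟩ := hx2
      have hp0 : (p : ℤ) ≠ 0 := by exact_mod_cast hp.ne_zero
      set W : Multiset ℤ := (range N).val.map (fun i : ℕ => (p : ℤ) ^ 2 * (w0 + i)) with hWd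
      have hnd : W.Nodup := by
        refine Multiset.Nodup.map ?_ (range N).nodup
        intro i j hij
        have := mul_left_cancel₀ (pow_ne_zero 2 hp0) hij
        have h := add_left_cancel this
        exact_mod_cast h
      have hsub : W ⊆ U := by
        intro u hu
        rw [hWd, Multiset.mem_map] at hu
        obtain ⟨i, hi, rfl⟩ := hu
        have hi' : i < N := by simpa using hi
        exact h3 _ (by omega) (by omega)
      obtain ⟨V, hV⟩ := Multiset.le_iff_exists_add.1 ((Multiset.le_iff_subset hnd).2 hsub)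
      have hWp : W.filter (fun u => (p : ℤ) ∣ u) = W := by
        rw [Multiset.filter_eq_self]
        intro u hu
        rw [hWd, Multiset.mem_map] at hu
        obtain ⟨i, -, rfl⟩ := hu
        exact ((dvd_pow_self (p : ℤ) two_ne_zero)).mul_right _
      have hWc : W.card = N := by rw [hWd]; simp
      have hc : (U.filter (fun u => (p : ℤ) ∣ u)).card = N + (V.filter (fun u => (p : ℤ) ∣ u)).card := by
        rw [hV, Multiset.filter_add, Multiset.card_add, hWp, hWc]
      have hVf : V.filter (fun u => (p : ℤ) ∣ (p : ℤ) ^ 2 * X - u) = V.filter (fun u => (p : ℤ) ∣ u) := by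
        refine Multiset.filter_congr fun u _ => ?_
        exact (dvd_sub_right ((dvd_pow_self (p : ℤ) two_ne_zero).mul_right _))
      have hd1 : (p : ℤ) ^ (2 * N + ν) ∣ (W.map (fun u => (p : ℤ) ^ 2 * X - u)).prod := by
        have e : (W.map (fun u => (p : ℤ) ^ 2 * X - u)).prod =
            (p : ℤ) ^ (2 * N) * ∏ i ∈ range N, (X - (w0 + i)) := by
          rw [hWd, Multiset.map_map]
          change ∏ i ∈ range N, ((p : ℤ) ^ 2 * X - (p : ℤ) ^ 2 * (w0 + i)) = _
          rw [Finset.prod_congr rfl (g := fun i : ℕ => (p : ℤ) ^ 2 * (X - (w0 + i)))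
            (fun i _ => by ring), Finset.prod_mul_distrib, Finset.prod_const, card_range, ← pow_mul]
        rw [e, pow_add]
        refine mul_dvd_mul_left _ ?_
        refine dvd_trans ?_ (fact_dvd X w0 N)
        exact_mod_cast h4
      have hd2 : (p : ℤ) ^ (V.filter (fun u => (p : ℤ) ∣ u)).card ∣
          (V.map (fun u => (p : ℤ) ^ 2 * X - u)).prod := by
        rw [← hVf]
        exact dvd_one _ _ _
      rw [hV, Multiset.map_add, Multiset.prod_add]
      have hd3 := mul_dvd_mul hd1 hd2
      rw [← pow_add] at hd3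
      refine dvd_trans (pow_dvd_pow _ ?_) hd3
      omega
    · refine (pow_dvd_pow _ ?_).trans (dvd_two p x U)
      have e : U.filter (fun u => (p : ℤ) ∣ x - u) = U.filter (fun u => (p : ℤ) ∣ u) :=
        Multiset.filter_congr fun u _ => dvd_sub_right hx
      rw [e]
      exact h2 x hx hx2
  · exact (pow_dvd_pow _ (h1 x hx)).trans (dvd_one p x U)

end Pool.Agent.H47.PM.PADB
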