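import Pool.Agent.H47.PM.Stm

/-!
Project PM, stub PADC: the exact `p`-adic valuation of the alternating sum.
-/

set_option autoImplicit false

namespace Pool.Agent.H47.PM.PADC

open Finset

lemma cast_desc (n k : ℕ) : ((n.descFactorial k : ℕ) : ℤ) = ∏ i ∈ range k, ((n : ℤ) - i) := by
  induction k with
  | zero => simp
  | succ k ih =>
    rw [Finset.prod_range_succ, ← ih, Nat.descFactorial_succ]
    rcases le_or_gt k n with h | h
    · push_cast [Nat.cast_sub h]
      ring
    · rw [Nat.descFactorial_of_lt h]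
      simp

lemma pow_dvd_prod (d : ℤ) (f : ℤ → ℤ) (W : Multiset ℤ) (h : ∀ u ∈ W, d ∣ f u) :
    d ^ W.card ∣ (W.map f).prod := by
  induction W using Multiset.induction_on with
  | empty => simp
  | cons a s ih =>
    rw [Multiset.card_cons, pow_succ', Multiset.map_cons, Multiset.prod_cons]
    exact mul_dvd_mul (h a (Multiset.mem_cons_self a s))
      (ih fun u hu => h u (Multiset.mem_cons_of_mem hu))

lemma prod_modEq (m : ℤ) (f g : ℤ → ℤ) (W : Multiset ℤ) (h : ∀ u ∈ W, f u ≡ g u [ZMOD m]) :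
    (W.map f).prod ≡ (W.map g).prod [ZMOD m] := by
  induction W using Multiset.induction_on with
  | empty => simp
  | cons a s ih =>
    rw [Multiset.map_cons, Multiset.prod_cons, Multiset.map_cons, Multiset.prod_cons]
    exact (h a (Multiset.mem_cons_self a s)).mul
      (ih fun u hu => h u (Multiset.mem_cons_of_mem hu))

lemma split_prod (U : Multiset ℤ) (P : ℤ → Prop) [DecidablePred P] (f : ℤ → ℤ) :
    (U.map f).prod = ((U.filter P).map f).prod * ((U.filter (fun u => ¬ P u)).map f).prod := by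
  rw [← Multiset.prod_add, ← Multiset.map_add, Multiset.filter_add_not]

lemma prod_Ico (X w0 : ℤ) (N : ℕ) :
    ∏ w ∈ Finset.Ico w0 (w0 + N), (X - w) = ∏ i ∈ range N, (X - w0 - i) := by
  refine Finset.prod_bij' (fun w _ => (w - w0).toNat) (fun i _ => w0 + i) ?_ ?_ ?_ ?_ ?_
  · intro w hw
    rw [Finset.mem_Ico] at hw
    rw [Finset.mem_range]
    omega
  · intro i hi
    rw [Finset.mem_range] at hi
    rw [Finset.mem_Ico]
    omega
  · intro w hw
    rw [Finset.mem_Ico] at hw
    omega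
  · intro i hi
    omega
  · intro w hw
    rw [Finset.mem_Ico] at hw
    have : (((w - w0).toNat : ℕ) : ℤ) = w - w0 := Int.toNat_of_nonneg (by omega)
    rw [this]
    ring

/-- the sum over the multiples of `d` -/
lemma sum_mult (F : ℕ → ℤ) (D : ℤ) (d M : ℕ) (hd : 0 < d) (h : ∀ x, ¬ d ∣ x → D ∣ F x) :
    D ∣ ∑ x ∈ range (d * M), F x - ∑ X ∈ range M, F (d * X) := by
  have h1 : ∑ X ∈ range M, F (d * X) = ∑ x ∈ (range (d * M)).filter (fun x => d ∣ x), F x := by
    refine Finset.sum_bij' (fun X _ => d * X) (fun x _ => x / d) ?_ ?_ ?_ ?_ ?_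
    · intro X hX
      rw [Finset.mem_range] at hX
      rw [Finset.mem_filter, Finset.mem_range]
      exact ⟨Nat.mul_lt_mul_of_pos_left hX hd, dvd_mul_right _ _⟩
    · intro x hx
      rw [Finset.mem_filter, Finset.mem_range] at hx
      rw [Finset.mem_range]
      exact Nat.div_lt_of_lt_mul hx.1
    · intro X _
      exact Nat.mul_div_cancel_left X hd
    · intro x hx
      rw [Finset.mem_filter] at hx
      exact Nat.mul_div_cancel' hx.2
    · intro X _
      rfl
  rw [h1, ← Finset.sum_filter_add_sum_filter_not (range (d * M)) (fun x => d ∣ x), add_sub_cancel_left]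
  exact Finset.dvd_sum fun x hx => h x (Finset.mem_filter.1 hx).2

theorem t (hTK : TK) : PADC := by
  intro p hp hp2 U N ν E w0 hE h2 hA hB hC hw0 hw0N hν hν'
  obtain ⟨q, hq⟩ : ∃ q : ℤ, q = (p : ℤ) := ⟨_, rfl⟩
  simp only [← hq] at hE h2 hA hB hC ⊢
  have hqp : Prime q := by
    rw [hq]
    exact Nat.prime_iff_prime_int.1 hp
  obtain ⟨n0, hn0⟩ : ∃ n0, n0 = (U.filter (fun u => q ∣ u)).card := ⟨_, rfl⟩
  rw [← hn0] at hE h2
  -- the three cases
  have c1 : ∀ x : ℤ, ¬ q ^ 2 ∣ x → q ^ (E + 1) ∣ (U.map (fun u => x - u)).prod := by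
    intro x hx
    by_cases hx1 : q ∣ x
    · rw [split_prod U (fun u => q ∣ u), split_prod (U.filter (fun u => q ∣ u)) (fun u => q ^ 2 ∣ x - u)]
      apply Dvd.dvd.mul_right
      have e1 : (U.filter (fun u => q ∣ u)).filter (fun u => q ^ 2 ∣ x - u) =
          U.filter (fun u => q ^ 2 ∣ x - u) := by
        rw [Multiset.filter_filter]
        apply Multiset.filter_congr
        intro u _
        constructor
        · exact fun h => h.1
        · intro h
          refine ⟨h, ?_⟩
          have h3 : q ∣ x - u := (Dvd.intro _ (by ring : q * q = q ^ 2)).trans h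
          exact (dvd_sub_right hx1).1 h3
      have d1 := pow_dvd_prod (q ^ 2) (fun u => x - u)
        ((U.filter (fun u => q ∣ u)).filter (fun u => q ^ 2 ∣ x - u)) (by
          intro u hu
          exact (Multiset.mem_filter.1 hu).2)
      have d2 := pow_dvd_prod q (fun u => x - u)
        ((U.filter (fun u => q ∣ u)).filter (fun u => ¬ q ^ 2 ∣ x - u)) (by
          intro u hu
          exact dvd_sub hx1 (Multiset.mem_filter.1 (Multiset.mem_filter.1 hu).1).2)
      have d3 := mul_dvd_mul d1 d2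
      rw [← pow_mul, ← pow_add] at d3
      refine (pow_dvd_pow q ?_).trans d3
      have e2 : ((U.filter (fun u => q ∣ u)).filter (fun u => q ^ 2 ∣ x - u)).card +
          ((U.filter (fun u => q ∣ u)).filter (fun u => ¬ q ^ 2 ∣ x - u)).card = n0 := by
        rw [← Multiset.card_add, Multiset.filter_add_not, hn0]
      have e3 := hB x hx1 hx
      rw [← hn0, ← e1] at e3
      omega
    · rw [split_prod U (fun u => q ∣ x - u)]
      apply Dvd.dvd.mul_right
      have d1 := pow_dvd_prod q (fun u => x - u) (U.filter (fun u => q ∣ x - u)) (by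
        intro u hu
        exact (Multiset.mem_filter.1 hu).2)
      exact (pow_dvd_pow q (hA x hx1)).trans d1
  -- the multiples of `p ^ 2`
  obtain ⟨A, hAd⟩ : ∃ A, A = U.filter (fun u => ¬ q ∣ u) := ⟨_, rfl⟩
  obtain ⟨B, hBd⟩ : ∃ B, B = (U.filter (fun u => q ∣ u)).filter (fun u => ¬ q ^ 2 ∣ u) := ⟨_, rfl⟩
  have hC' : (U.filter (fun u => q ∣ u)).filter (fun u => q ^ 2 ∣ u) =
      (Finset.Ico w0 (w0 + N)).val.map (fun w => q ^ 2 * w) := by
    rw [← hC, Multiset.filter_filter]
    apply Multiset.filter_congr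
    intro u _
    constructor
    · exact fun h => h.1
    · exact fun h => ⟨h, (Dvd.intro _ (by ring : q * q = q ^ 2)).trans h⟩
  have hcard : B.card + N = n0 := by
    have e2 : ((U.filter (fun u => q ∣ u)).filter (fun u => q ^ 2 ∣ u)).card +
        ((U.filter (fun u => q ∣ u)).filter (fun u => ¬ q ^ 2 ∣ u)).card = n0 := by
      rw [← Multiset.card_add, Multiset.filter_add_not, hn0]
    rw [hC', Multiset.card_map, ← hBd] at e2
    have e3 : (Finset.Ico w0 (w0 + N)).val.card = N := by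
      rw [Finset.card_val, Int.card_Ico]
      omega
    omega
  obtain ⟨s, hs⟩ : ∃ s : ℕ, (s : ℤ) = - w0 := ⟨(-w0).toNat, Int.toNat_of_nonneg (by omega)⟩
  have hsN : s ≤ N := by omega
  obtain ⟨Th, hTh⟩ : ∃ Th : ℤ → ℤ, Th = fun X => (A.map (fun u => q ^ 2 * X - u)).prod *
      (B.map (fun u => q * X - u / q)).prod := ⟨_, rfl⟩
  have c2 : ∀ X : ℕ, (U.map (fun u => q ^ 2 * X - u)).prod =
      q ^ (n0 + N) * (Th X * ((X + s).descFactorial N : ℕ)) := by
    intro X
    rw [split_prod U (fun u => q ∣ u), split_prod (U.filter (fun u => q ∣ u)) (fun u => q ^ 2 ∣ u),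
      hC', ← hBd, ← hAd, Multiset.map_map]
    have e1 : ((Finset.Ico w0 (w0 + N)).val.map ((fun u => q ^ 2 * (X : ℤ) - u) ∘ fun w => q ^ 2 * w)).prod =
        (q ^ 2) ^ N * ((X + s).descFactorial N : ℕ) := by
      have : ((Finset.Ico w0 (w0 + N)).val.map ((fun u => q ^ 2 * (X : ℤ) - u) ∘ fun w => q ^ 2 * w)).prod =
          ∏ w ∈ Finset.Ico w0 (w0 + N), (q ^ 2 * ((X : ℤ) - w)) := by
        rw [Finset.prod]
        congr 1
        apply Multiset.map_congr rfl
        intro w _
        simp only [Function.comp]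
        ring
      rw [this, Finset.prod_mul_distrib, Finset.prod_const, Int.card_Ico, prod_Ico, cast_desc]
      have h3 : (w0 + (N : ℤ) - w0).toNat = N := by omega
      rw [h3]
      congr 1
      apply Finset.prod_congr rfl
      intro i _
      push_cast
      rw [hs]
      ring
    have e2 : (B.map (fun u => q ^ 2 * (X : ℤ) - u)).prod =
        q ^ B.card * (B.map (fun u => q * (X : ℤ) - u / q)).prod := by
      have : B.map (fun u => q ^ 2 * (X : ℤ) - u) = B.map (fun u => q * (q * (X : ℤ) - u / q)) := by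
        apply Multiset.map_congr rfl
        intro u hu
        rw [hBd] at hu
        have h3 := (Multiset.mem_filter.1 (Multiset.mem_filter.1 hu).1).2
        have h4 := Int.mul_ediv_cancel' h3
        linear_combination h4
      rw [this, Multiset.prod_map_mul, Multiset.map_const', Multiset.prod_replicate]
    rw [e1, e2, hTh, ← hcard]
    ring
  have hTh0 : ∀ X : ℤ, q ∣ Th X - Th 0 := by
    intro X
    apply Int.ModEq.dvd
    rw [hTh]
    refine Int.ModEq.mul (prod_modEq _ _ _ _ ?_) (prod_modEq _ _ _ _ ?_)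
    · intro u _
      rw [Int.modEq_iff_dvd]
      exact ⟨q * X, by ring⟩
    · intro u _
      rw [Int.modEq_iff_dvd]
      exact ⟨X, by ring⟩
  have hTh1 : ¬ q ∣ Th 0 := by
    rw [hTh]
    intro h
    rcases hqp.dvd_or_dvd h with h | h
    · obtain ⟨u, hu, hd⟩ := hqp.exists_mem_multiset_map_dvd h
      rw [hAd] at hu
      apply (Multiset.mem_filter.1 hu).2
      have : q ^ 2 * 0 - u = - u := by ring
      rw [this, dvd_neg] at hd
      exact hd
    · obtain ⟨u, hu, hd⟩ := hqp.exists_mem_multiset_map_dvd h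
      rw [hBd] at hu
      have h3 := (Multiset.mem_filter.1 (Multiset.mem_filter.1 hu).1).2
      apply (Multiset.mem_filter.1 hu).2
      have : q * 0 - u / q = - (u / q) := by ring
      rw [this, dvd_neg] at hd
      obtain ⟨v, hv⟩ := hd
      have h4 := Int.mul_ediv_cancel' h3
      exact ⟨v, by rw [← h4, hv]; ring⟩
  -- the sum
  intro hdiv
  have hE2 : 2 ≤ E := by omega
  obtain ⟨M', hM'⟩ : ∃ M', M' = p ^ (E - 1) := ⟨_, rfl⟩
  have hpE : p ^ (E + 1) = p ^ 2 * M' := by
    rw [hM', ← pow_add]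
    congr 1
    omega
  have hodd : Odd p := hp.odd_of_ne_two hp2
  have hM'odd : Odd M' := by
    rw [hM']
    exact hodd.pow
  rw [hpE] at hdiv
  have g1 := sum_mult (fun x => (-1 : ℤ) ^ x * (U.map (fun u => (x : ℤ) - u)).prod) (q ^ (E + 1)) (p ^ 2) M'
    (by have := hp.pos; positivity) (by
      intro x hx
      apply Dvd.dvd.mul_left
      apply c1
      intro h
      apply hx
      rw [hq] at h
      exact_mod_cast h)
  have g2 : q ^ (E + 1) ∣ ∑ X ∈ range M', (-1 : ℤ) ^ (p ^ 2 * X) *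
      (U.map (fun u => ((p ^ 2 * X : ℕ) : ℤ) - u)).prod := by
    have := dvd_sub hdiv g1
    simpa using this
  have g3 : ∀ X : ℕ, (-1 : ℤ) ^ (p ^ 2 * X) * (U.map (fun u => ((p ^ 2 * X : ℕ) : ℤ) - u)).prod =
      q ^ (n0 + N) * (Th 0 * ((-1 : ℤ) ^ X * ((X + s).descFactorial N : ℕ))) +
      (-1 : ℤ) ^ X * (q ^ (n0 + N) * ((Th X - Th 0) * ((X + s).descFactorial N : ℕ))) := by
    intro X
    have e1 : (-1 : ℤ) ^ (p ^ 2 * X) = (-1 : ℤ) ^ X := by
      rw [pow_mul]
      congr 1
      exact hodd.pow.neg_one_pow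
    have e2 : ((p ^ 2 * X : ℕ) : ℤ) = q ^ 2 * X := by
      rw [hq]
      push_cast
      ring
    rw [e1, e2, c2 X]
    ring
  have g4 : q ^ (E + 1) ∣ q ^ (n0 + N) * (Th 0 * ∑ X ∈ range M', (-1 : ℤ) ^ X *
      ((X + s).descFactorial N : ℕ)) := by
    rw [Finset.sum_congr rfl (fun X _ => g3 X), Finset.sum_add_distrib] at g2
    rw [Finset.mul_sum, Finset.mul_sum]
    refine (dvd_add_left ?_).1 g2
    apply Finset.dvd_sum
    intro X _
    apply Dvd.dvd.mul_left
    have e1 : E + 1 = (n0 + N) + (1 + ν) := by omega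
    rw [e1, pow_add q (n0 + N), pow_add q 1 ν, pow_one]
    apply mul_dvd_mul_left
    apply mul_dvd_mul (hTh0 X)
    have h3 : p ^ ν ∣ (X + s).descFactorial N := hν.trans (Nat.factorial_dvd_descFactorial _ _)
    rw [hq]
    exact_mod_cast h3
  have g5 : q ^ (ν + 1) ∣ ∑ X ∈ range M', (-1 : ℤ) ^ X * ((X + s).descFactorial N : ℕ) := by
    have e1 : E + 1 = (n0 + N) + (ν + 1) := by omega
    rw [e1, pow_add q (n0 + N)] at g4
    have h3 := (mul_dvd_mul_iff_left (pow_ne_zero (n0 + N) hqp.ne_zero)).1 g4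
    exact (hqp.pow_dvd_of_dvd_mul_left (ν + 1) hTh1 h3)
  have hqM' : q ^ (ν + 1) ∣ (M' : ℤ) := by
    rw [hM', hq]
    push_cast
    apply pow_dvd_pow
    omega
  -- shift
  have g6 : (-1 : ℤ) ^ s * ∑ X ∈ range M', (-1 : ℤ) ^ X * ((X + s).descFactorial N : ℕ) =
      ∑ z ∈ range (M' + s), (-1 : ℤ) ^ z * (z.descFactorial N : ℕ) := by
    rw [add_comm M' s, Finset.sum_range_add, Finset.mul_sum]
    have e1 : ∑ z ∈ range s, (-1 : ℤ) ^ z * (z.descFactorial N : ℕ) = 0 := by
      apply Finset.sum_eq_zero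
      intro z hz
      rw [Finset.mem_range] at hz
      rw [Nat.descFactorial_of_lt (by omega)]
      simp
    rw [e1, zero_add]
    apply Finset.sum_congr rfl
    intro X _
    rw [add_comm s X, pow_add]
    ring
  have g7 : q ^ (ν + 1) ∣ ∑ z ∈ range M', (-1 : ℤ) ^ z * (z.descFactorial N : ℕ) := by
    rw [Finset.sum_range_add] at g6
    have h3 : q ^ (ν + 1) ∣ ∑ x ∈ range s, (-1 : ℤ) ^ (M' + x) * ((M' + x).descFactorial N : ℕ) := by
      apply Finset.dvd_sum
      intro x hx
      rw [Finset.mem_range] at hx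
      apply Dvd.dvd.mul_left
      refine hqM'.trans ?_
      rw [cast_desc]
      have h4 := Finset.dvd_prod_of_mem (fun i : ℕ => (((M' + x : ℕ) : ℤ) - i))
        (Finset.mem_range.2 (by omega : x < N))
      have h5 : (((M' + x : ℕ) : ℤ) - x) = M' := by
        push_cast
        ring
      simp only [h5] at h4
      exact h4
    have h6 : q ^ (ν + 1) ∣ (-1 : ℤ) ^ s * ∑ X ∈ range M', (-1 : ℤ) ^ X * ((X + s).descFactorial N : ℕ) :=
      Dvd.dvd.mul_left g5 _
    rw [g6] at h6
    exact (dvd_add_left h3).1 h6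
  have g8 := hTK M' hM'odd N
  have g9 : q ^ (ν + 1) ∣ (N.factorial : ℤ) := by
    have h3 : q ^ (ν + 1) ∣ (-2 : ℤ) ^ N * ∑ z ∈ range M', (-1 : ℤ) ^ z * (z.descFactorial N : ℕ) :=
      Dvd.dvd.mul_left g7 _
    have h4 := hqM'.trans g8.dvd
    have h5 := dvd_add h4 h3
    simpa using h5
  apply hν'
  rw [hq] at g9
  exact_mod_cast g9

end Pool.Agent.H47.PM.PADC
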