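import Pool.Agent.H47.PM.Stm
import Pool.Agent.Helper923.HMertens

/-!
# Project PM, stub PRM: primes between `√P` and `P` with the right sum of reciprocals
-/

set_option autoImplicit false

namespace Pool.Agent.H47.PM.PRM

open Finset

lemma greedy (w : ℕ → ℝ) (S : Finset ℕ) (hw : ∀ p ∈ S, w p ≤ 1 / 8) (hS : 1 / 8 ≤ ∑ p ∈ S, w p) :
    ∃ Q ⊆ S, ∑ p ∈ Q, w p ≤ 1 / 4 ∧ 1 / 8 ≤ ∑ p ∈ Q, w p := by
  induction S using Finset.induction_on with
  | empty =>
    rw [Finset.sum_empty] at hS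
    norm_num at hS
  | insert a s ha ih =>
    by_cases h : 1 / 8 ≤ ∑ p ∈ s, w p
    · obtain ⟨Q, hQ, h1⟩ := ih (fun p hp => hw p (Finset.mem_insert_of_mem hp)) h
      exact ⟨Q, hQ.trans (Finset.subset_insert _ _), h1⟩
    · refine ⟨insert a s, subset_rfl, ?_, hS⟩
      rw [Finset.sum_insert ha]
      have := hw a (Finset.mem_insert_self _ _)
      linarith [not_le.1 h]

theorem t : Pool.Agent.H47.PM.PRM := by
  obtain ⟨C, hC0, hC⟩ := Pool.Agent.Helper923.HMertens.mertens_ratio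
  obtain ⟨a0, ha0⟩ := exists_nat_gt (Real.exp (2 * C + 1))
  refine ⟨(a0 + 10) ^ 2, fun P hP => ?_⟩
  set a := Nat.sqrt P with ha
  have h1 : a0 + 10 ≤ a := by
    rw [ha, Nat.le_sqrt']
    exact hP
  have h2 : a * a ≤ P := Nat.sqrt_le P
  have h3 : a ≤ P := Nat.sqrt_le_self P
  have ha1 : (1 : ℝ) < a := by exact_mod_cast (by omega : 1 < a)
  have hla : 2 * C + 1 < Real.log a := by
    rw [Real.lt_log_iff_exp_lt (by linarith)]
    refine ha0.trans_le ?_
    exact_mod_cast (by omega : a0 ≤ a)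
  have hla0 : 0 < Real.log a := by linarith
  have hratio : 2 ≤ Real.log P / Real.log a := by
    rw [le_div_iff₀ hla0]
    have : Real.log ((a : ℝ) ^ 2) ≤ Real.log P := by
      refine Real.log_le_log (by positivity) ?_
      rw [pow_two]
      exact_mod_cast h2
    rw [Real.log_pow] at this
    exact_mod_cast this
  have hlog2 : Real.log 2 ≤ Real.log (Real.log P / Real.log a) := Real.log_le_log (by norm_num) hratio
  have hm := (abs_le.1 (hC a P (by omega) h3)).1
  have hCa : C / Real.log a ≤ 1 / 2 := by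
    rw [div_le_iff₀ hla0]
    linarith
  have hsum : 1 / 8 ≤ ∑ p ∈ (Finset.Ioc a P).filter Nat.Prime, (1 : ℝ) / p := by
    have := Real.log_two_gt_d9
    linarith
  obtain ⟨Q, hQ, h4, h5⟩ := greedy (fun p => (1 : ℝ) / p) _ (fun p hp => by
    have hp' := Finset.mem_Ioc.1 (Finset.mem_filter.1 hp).1
    have : (8 : ℝ) ≤ p := by exact_mod_cast (by omega : 8 ≤ p)
    exact one_div_le_one_div_of_le (by norm_num) this) hsum
  refine ⟨Q, fun p hp => ?_, h4, h5⟩
  have hp' := Finset.mem_filter.1 (hQ hp)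
  have hp'' := Finset.mem_Ioc.1 hp'.1
  exact ⟨hp'.2, hp''.1, by omega, hp''.2⟩

end Pool.Agent.H47.PM.PRM
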