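import Pool.Agent.H47.PM.Stm

/-!
Project PM, stub SIEV: a simple sieve count.
-/

set_option autoImplicit false

namespace Pool.Agent.H47.PM

open Finset

/-- the number of the elements of a class in an interval -/
theorem SIEV.cnt (X : ℤ) (A : ℕ) (d : ℕ) (hd : 0 < d) (r : ℤ) :
    (A : ℝ) / d - 1 ≤ (((Finset.Ico X (X + A)).filter (fun y => (d : ℤ) ∣ y - r)).card : ℝ) ∧
    (((Finset.Ico X (X + A)).filter (fun y => (d : ℤ) ∣ y - r)).card : ℝ) ≤ (A : ℝ) / d + 1 := by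
  have h := Int.Ico_filter_modEq_card X (X + A) (r := (d : ℤ)) (by exact_mod_cast hd) r
  have e : (Finset.Ico X (X + A)).filter (fun y => (d : ℤ) ∣ y - r)
      = (Finset.Ico X (X + A)).filter (fun y => y ≡ r [ZMOD d]) := by
    ext y
    rw [Finset.mem_filter, Finset.mem_filter, Int.modEq_comm, Int.modEq_iff_dvd]
  rw [e]
  set N : ℕ := ((Finset.Ico X (X + A)).filter (fun y => y ≡ r [ZMOD d])).card with hN
  set u : ℤ := ⌈((X : ℤ) + (A : ℤ) - (r : ℤ) : ℚ) / ((d : ℤ) : ℚ)⌉ with hu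
  set w : ℤ := ⌈((X : ℤ) - (r : ℤ) : ℚ) / ((d : ℤ) : ℚ)⌉ with hw
  have hdq : (0 : ℚ) < ((d : ℤ) : ℚ) := by exact_mod_cast hd
  have h' : (N : ℤ) = max (u - w) 0 := by
    rw [hN, h, hu, hw]
    push_cast
    rfl
  have u1 : ((X : ℤ) + (A : ℤ) - (r : ℤ) : ℚ) / ((d : ℤ) : ℚ) ≤ u := Int.le_ceil _
  have u2 : (u : ℚ) < ((X : ℤ) + (A : ℤ) - (r : ℤ) : ℚ) / ((d : ℤ) : ℚ) + 1 := Int.ceil_lt_add_one _
  have w1 : ((X : ℤ) - (r : ℤ) : ℚ) / ((d : ℤ) : ℚ) ≤ w := Int.le_ceil _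
  have w2 : (w : ℚ) < ((X : ℤ) - (r : ℤ) : ℚ) / ((d : ℤ) : ℚ) + 1 := Int.ceil_lt_add_one _
  have e1 : ((X : ℤ) + (A : ℤ) - (r : ℤ) : ℚ) / ((d : ℤ) : ℚ)
      = ((X : ℤ) - (r : ℤ) : ℚ) / ((d : ℤ) : ℚ) + ((A : ℕ) : ℚ) / ((d : ℕ) : ℚ) := by
    push_cast
    ring
  rw [e1] at u1 u2
  have hA0 : (0 : ℚ) ≤ ((A : ℕ) : ℚ) / ((d : ℕ) : ℚ) := by positivity
  have k1 : ((A : ℕ) : ℚ) / ((d : ℕ) : ℚ) - 1 ≤ (N : ℚ) := by
    have h1 : (u - w : ℤ) ≤ (N : ℤ) := by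
      rw [h']
      exact le_max_left _ _
    have h2 : ((u - w : ℤ) : ℚ) ≤ ((N : ℤ) : ℚ) := by exact_mod_cast h1
    push_cast at h2
    linarith
  have k2 : (N : ℚ) ≤ ((A : ℕ) : ℚ) / ((d : ℕ) : ℚ) + 1 := by
    rcases le_total (u - w) 0 with h3 | h3
    · have h4 : (N : ℤ) = 0 := by rw [h', max_eq_right h3]
      have h5 : (N : ℚ) = 0 := by exact_mod_cast h4
      rw [h5]
      linarith
    · have h4 : (N : ℤ) = u - w := by rw [h', max_eq_left h3]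
      have h5 : (N : ℚ) = (u : ℚ) - w := by exact_mod_cast h4
      rw [h5]
      linarith
  have c1 : ((((A : ℕ) : ℚ) / ((d : ℕ) : ℚ) - 1 : ℚ) : ℝ) ≤ ((N : ℚ) : ℝ) := by exact_mod_cast k1
  have c2 : ((N : ℚ) : ℝ) ≤ ((((A : ℕ) : ℚ) / ((d : ℕ) : ℚ) + 1 : ℚ) : ℝ) := by exact_mod_cast k2
  push_cast at c1 c2
  exact ⟨c1, c2⟩

theorem SIEV.t : SIEV := by
  intro X A d R r t hd hR hsum hA
  set I : Finset ℤ := Finset.Ico X (X + A) with hI
  set S0 : Finset ℤ := I.filter (fun y => (d : ℤ) ∣ y - r) with hS0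
  set T : Finset ℤ := I.filter (fun y => (d : ℤ) ∣ y - r ∧ ∀ q ∈ R, ¬ (q : ℤ) ∣ y - t q) with hT
  set Sq : ℕ → Finset ℤ := fun q => I.filter (fun y => (d : ℤ) ∣ y - r ∧ (q : ℤ) ∣ y - t q) with hSq
  have hsub : S0 ⊆ T ∪ R.biUnion Sq := by
    intro y hy
    rw [hS0, Finset.mem_filter] at hy
    rw [Finset.mem_union, Finset.mem_biUnion]
    by_cases h : ∀ q ∈ R, ¬ (q : ℤ) ∣ y - t q
    · left
      rw [hT, Finset.mem_filter]
      exact ⟨hy.1, hy.2, h⟩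
    · right
      push Not at h
      obtain ⟨q, hq, h⟩ := h
      refine ⟨q, hq, ?_⟩
      simp only [hSq, Finset.mem_filter]
      exact ⟨hy.1, hy.2, h⟩
  have hcard : (S0.card : ℝ) ≤ T.card + ∑ q ∈ R, ((Sq q).card : ℝ) := by
    have h1 := Finset.card_le_card hsub
    have h2 := Finset.card_union_le T (R.biUnion Sq)
    have h3 := Finset.card_biUnion_le (s := R) (t := Sq)
    have h4 : S0.card ≤ T.card + ∑ q ∈ R, (Sq q).card := by omega
    exact_mod_cast h4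
  have hd' : (0 : ℝ) < d := by exact_mod_cast hd
  have hq1 : ∀ q ∈ R, ((Sq q).card : ℝ) ≤ (A : ℝ) / d * (1 / q) + 1 := by
    intro q hq
    obtain ⟨hq0, hcop⟩ := hR q hq
    have hq' : (0 : ℝ) < q := by exact_mod_cast hq0
    rcases (Sq q).eq_empty_or_nonempty with h | ⟨y0, hy0⟩
    · rw [h, Finset.card_empty]
      push_cast
      positivity
    · have h1 : Sq q ⊆ I.filter (fun y => ((d * q : ℕ) : ℤ) ∣ y - y0) := by
        intro y hy
        simp only [hSq, Finset.mem_filter] at hy hy0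
        rw [Finset.mem_filter]
        refine ⟨hy.1, ?_⟩
        have e1 : (d : ℤ) ∣ y - y0 := by
          have := dvd_sub hy.2.1 hy0.2.1
          have e : y - r - (y0 - r) = y - y0 := by ring
          rwa [e] at this
        have e2 : (q : ℤ) ∣ y - y0 := by
          have := dvd_sub hy.2.2 hy0.2.2
          have e : y - t q - (y0 - t q) = y - y0 := by ring
          rwa [e] at this
        push_cast
        exact IsCoprime.mul_dvd (Nat.isCoprime_iff_coprime.2 hcop.symm) e1 e2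
      have h2 := Finset.card_le_card h1
      have h3 := (SIEV.cnt X A (d * q) (Nat.mul_pos hd hq0) y0).2
      have h4 : ((Sq q).card : ℝ) ≤ ((I.filter (fun y => ((d * q : ℕ) : ℤ) ∣ y - y0)).card : ℝ) := by
        exact_mod_cast h2
      have h5 : (A : ℝ) / ((d * q : ℕ) : ℝ) = (A : ℝ) / d * (1 / q) := by
        push_cast
        field_simp
      rw [h5] at h3
      linarith
  have h1 := (SIEV.cnt X A d hd r).1
  have h2 : ∑ q ∈ R, ((Sq q).card : ℝ) ≤ (A : ℝ) / d * (∑ q ∈ R, (1 / (q : ℝ))) + R.card := by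
    refine (Finset.sum_le_sum hq1).trans (le_of_eq ?_)
    rw [Finset.sum_add_distrib, ← Finset.mul_sum]
    simp
  have hAd : 0 ≤ (A : ℝ) / d := by positivity
  have h3 : (A : ℝ) / d * (∑ q ∈ R, (1 / (q : ℝ))) ≤ (A : ℝ) / d * (1 / 4) :=
    mul_le_mul_of_nonneg_left hsum hAd
  have h4 : (R.card : ℝ) + 1 ≤ (A : ℝ) / d / 4 := by
    have h5 : ((4 * d * (R.card + 1) : ℕ) : ℝ) ≤ (A : ℝ) := by exact_mod_cast hA
    push_cast at h5
    rw [div_div, le_div_iff₀ (by positivity)]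
    linarith
  have h6 : (A : ℝ) / (2 * d) = (A : ℝ) / d / 2 := by
    field_simp
  rw [h6]
  linarith

end Pool.Agent.H47.PM
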