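import Pool.Agent.H47.PM.Stm

set_option autoImplicit false

namespace Pool.Agent.H47.PM.TRI

open Finset Pool.Agent.H47.PM

/-- extension by zero -/
def ext (n h : ℕ) (L : Finset (Fin n)) (a : L → Fin (h + 1)) (i : Fin n) : ℕ :=
  if hi : i ∈ L then (a ⟨i, hi⟩ : ℕ) else 0

lemma ext_le (n h : ℕ) (L : Finset (Fin n)) (a : L → Fin (h + 1)) (i : Fin n) :
    ext n h L a i ≤ h := by
  unfold ext
  split_ifs with hi
  · exact Nat.lt_succ_iff.mp (a ⟨i, hi⟩).2
  · exact Nat.zero_le _

lemma NN_congr (n h : ℕ) (a a' : Fin n → ℕ) (C : Finset (Fin n)) (hc : ∀ c ∈ C, a c = a' c) :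
    NN n h a C = NN n h a' C := by
  unfold NN
  refine Nat.card_congr (Equiv.subtypeEquivRight ?_)
  intro f
  constructor
  · rintro ⟨h1, h2⟩
    exact ⟨h1, fun c => by rw [← hc c c.2]; exact h2 c⟩
  · rintro ⟨h1, h2⟩
    exact ⟨h1, fun c => by rw [hc c c.2]; exact h2 c⟩

lemma NN_zero (n h : ℕ) (a : Fin n → ℕ) (C : Finset (Fin n)) (c : Fin n) (hc : c ∈ C)
    (h0 : a c = 0) : NN n h a C = 0 := by
  unfold NN
  have : IsEmpty {f : C → Fin h // Function.Injective f ∧ ∀ c, (f c : ℕ) < a c} := by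
    refine ⟨fun f => ?_⟩
    have := f.2.2 ⟨c, hc⟩
    simp only [h0] at this
    exact absurd this (Nat.not_lt_zero _)
  exact Nat.card_of_isEmpty

lemma NN_card (n h : ℕ) (a : Fin n → ℕ) (C : Finset (Fin n)) (hc : h < C.card) :
    NN n h a C = 0 := by
  unfold NN
  have : IsEmpty {f : C → Fin h // Function.Injective f ∧ ∀ c, (f c : ℕ) < a c} := by
    refine ⟨fun f => ?_⟩
    have := Fintype.card_le_of_injective f.1 f.2.1
    simp only [Fintype.card_coe, Fintype.card_fin] at this
    omega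
  exact Nat.card_of_isEmpty

lemma NN_single (n h : ℕ) (a : Fin n → ℕ) (l : Fin n) (hl : a l ≤ h) :
    NN n h a {l} = a l := by
  unfold NN
  have e : {f : ({l} : Finset (Fin n)) → Fin h // Function.Injective f ∧ ∀ c, (f c : ℕ) < a c} ≃
      Fin (a l) :=
    { toFun := fun f => ⟨f.1 ⟨l, mem_singleton_self l⟩, f.2.2 ⟨l, mem_singleton_self l⟩⟩
      invFun := fun k => ⟨fun _ => ⟨k, lt_of_lt_of_le k.2 hl⟩, by
        constructor
        · intro x y _
          apply Subtype.ext
          rw [mem_singleton.mp x.2, mem_singleton.mp y.2]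
        · intro c
          rw [mem_singleton.mp c.2]
          exact k.2⟩
      left_inv := by
        intro f
        apply Subtype.ext
        funext c
        have : c = ⟨l, mem_singleton_self l⟩ := Subtype.ext (mem_singleton.mp c.2)
        apply Fin.ext
        rw [this]
      right_inv := by
        intro k
        apply Fin.ext
        rfl }
  rw [Nat.card_congr e, Nat.card_eq_fintype_card, Fintype.card_fin]

lemma fin_set (n : ℕ) : {q : ℤ | ∃ A : Matrix (Fin n) (Fin n) ℤ,
    (∀ i j, A i j = 1 ∨ A i j = -1) ∧ A.permanent = q}.Finite := by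
  have h1 : {A : Fin n → Fin n → ℤ | ∀ i, A i ∈ {b : Fin n → ℤ | ∀ j, b j ∈ ({1, -1} : Set ℤ)}}.Finite :=
    Set.Finite.pi' (fun i => Set.Finite.pi' (fun j => by simp))
  refine (h1.image (fun A : Fin n → Fin n → ℤ => Matrix.permanent (Matrix.of A))).subset ?_
  rintro q ⟨A, hA, rfl⟩
  refine ⟨A, ?_, rfl⟩
  intro i j
  rcases hA i j with h | h
  · left; exact h
  · right; exact h

lemma dvd_of (E : ℕ) (p : ℕ) (hp : p.Prime) (d S : ℤ) (h : ℕ) (hh : h < p) (hd : d ≠ 0)
    (hdl : |d| ≤ h) (hdiv : (p : ℤ) ^ (E + 1) ∣ d * S) : (p : ℤ) ^ (E + 1) ∣ S := by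
  have hpp : Prime (p : ℤ) := Nat.prime_iff_prime_int.mp hp
  have hnd : ¬ (p : ℤ) ∣ d := by
    intro hc
    have h1 := Int.le_of_dvd (abs_pos.mpr hd) ((dvd_abs _ _).mpr hc)
    have h2 : (h : ℤ) < p := by exact_mod_cast hh
    linarith
  have hcop : IsCoprime ((p : ℤ) ^ (E + 1)) d := by
    apply IsCoprime.pow_left
    exact (Prime.coprime_iff_not_dvd hpp).mpr hnd
  exact hcop.dvd_of_dvd_mul_left hdiv

theorem inj (hE : EXP) (n h : ℕ) (lam : Fin n → ℕ) (hlam : Monotone lam)
    (hl : ∀ i, lam i + h ≤ n) (L : Finset (Fin n)) (p E : Fin n → ℕ)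
    (hp : ∀ l ∈ L, (p l).Prime ∧ h < p l ∧ 2 < p l)
    (ha : ∀ l ∈ L, ∀ C ⊆ L, 2 ≤ C.card → C.card ≤ h → ∀ x : ℤ,
      (p l : ℤ) ^ (E l + 1) ∣ FF n lam C x)
    (hb : ∀ l ∈ L, ∀ c ∈ L, c < l → ∀ x : ℤ, (p l : ℤ) ^ (E l + 1) ∣ FF n lam {c} x)
    (hc : ∀ l ∈ L, ¬ (p l : ℤ) ^ (E l + 1) ∣
      ∑ x ∈ range (p l ^ (E l + 1)), (-1 : ℤ) ^ x * FF n lam {l} x) :
    Function.Injective (fun a : L → Fin (h + 1) => (mat n lam (ext n h L a)).permanent) := by
  intro a a' haa
  by_contra hne
  simp only at haa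
  set b := ext n h L a with hbdef
  set b' := ext n h L a' with hbdef'
  have hbl : ∀ i, b i ≤ h := ext_le n h L a
  have hbl' : ∀ i, b' i ≤ h := ext_le n h L a'
  have hb0 : ∀ i, i ∉ L → b i = 0 := by
    intro i hi; rw [hbdef]; unfold ext; rw [dif_neg hi]
  have hb0' : ∀ i, i ∉ L → b' i = 0 := by
    intro i hi; rw [hbdef']; unfold ext; rw [dif_neg hi]
  have hD : (L.filter (fun l => b l ≠ b' l)).Nonempty := by
    by_contra hcon
    rw [Finset.not_nonempty_iff_eq_empty] at hcon
    apply hne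
    funext i
    have : (i : Fin n) ∉ L.filter (fun l => b l ≠ b' l) := by rw [hcon]; exact Finset.notMem_empty _
    rw [Finset.mem_filter] at this
    push Not at this
    have h2 := this i.2
    rw [hbdef, hbdef'] at h2
    unfold ext at h2
    rw [dif_pos i.2, dif_pos i.2] at h2
    exact Fin.ext h2
  obtain ⟨l, hlD, hlmax⟩ : ∃ l ∈ L.filter (fun l => b l ≠ b' l),
      ∀ c ∈ L.filter (fun l => b l ≠ b' l), c ≤ l :=
    ⟨_, Finset.max'_mem _ hD, fun c hc => Finset.le_max' _ c hc⟩
  rw [Finset.mem_filter] at hlD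
  obtain ⟨hlL, hldiff⟩ := hlD
  obtain ⟨hpp, hhp, h2p⟩ := hp l hlL
  have hodd : Odd (p l) := hpp.odd_of_ne_two (by omega)
  set M := p l ^ (E l + 1) with hM
  have hMo : Odd M := hodd.pow
  have e1 := hE n h lam b hlam hl hbl M hMo
  have e2 := hE n h lam b' hlam hl hbl' M hMo
  rw [haa] at e1
  have e3 := e1.symm.trans e2
  have hcop : IsCoprime (M : ℤ) ((-2 : ℤ) ^ n) := by
    apply IsCoprime.pow_right
    rw [IsCoprime.neg_right_iff]
    have : Nat.Coprime M 2 := Nat.coprime_two_right.mpr hMo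
    exact_mod_cast (Nat.isCoprime_iff_coprime.mpr this)
  have e4 := e3.symm.dvd
  rw [← mul_sub] at e4
  have e5 := hcop.dvd_of_dvd_mul_left e4
  -- the difference of the two sums
  have e6 : (∑ x ∈ range M, (-1 : ℤ) ^ x * ∑ C : Finset (Fin n), (NN n h b C : ℤ) * FF n lam C x) -
      (∑ x ∈ range M, (-1 : ℤ) ^ x * ∑ C : Finset (Fin n), (NN n h b' C : ℤ) * FF n lam C x) =
      ∑ C : Finset (Fin n), ∑ x ∈ range M,
        (-1 : ℤ) ^ x * (((NN n h b C : ℤ) - NN n h b' C) * FF n lam C x) := by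
    rw [Finset.sum_comm, ← Finset.sum_sub_distrib]
    refine Finset.sum_congr rfl (fun x _ => ?_)
    rw [← mul_sub, ← Finset.sum_sub_distrib, Finset.mul_sum]
    refine Finset.sum_congr rfl (fun C _ => ?_)
    ring
  rw [e6] at e5
  have key : ∀ C : Finset (Fin n), C ≠ {l} → ∀ x : ℤ,
      (M : ℤ) ∣ ((NN n h b C : ℤ) - NN n h b' C) * FF n lam C x := by
    intro C hC x
    by_cases hCL : C ⊆ L
    · rcases Nat.lt_or_ge h C.card with hcard | hcard
      · rw [NN_card n h b C hcard, NN_card n h b' C hcard]; simp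
      · rcases Nat.lt_or_ge C.card 2 with h2 | h2
        · rcases Nat.lt_or_ge C.card 1 with h1 | h1
          · have : C = ∅ := Finset.card_eq_zero.mp (by omega)
            subst this
            rw [NN_congr n h b b' ∅ (by simp)]; simp
          · obtain ⟨c, rfl⟩ := Finset.card_eq_one.mp (show C.card = 1 by omega)
            have hcL : c ∈ L := hCL (Finset.mem_singleton_self c)
            have hcl : c ≠ l := fun h => hC (by rw [h])
            rcases lt_or_gt_of_ne hcl with hlt | hgt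
            · have := hb l hlL c hcL hlt x
              rw [hM]
              push_cast
              exact Dvd.dvd.mul_left this _
            · have : b c = b' c := by
                by_contra hcon
                have := hlmax c (Finset.mem_filter.mpr ⟨hcL, hcon⟩)
                exact absurd this (not_le.mpr hgt)
              rw [NN_congr n h b b' {c} (by
                intro d hd
                rw [Finset.mem_singleton.mp hd]
                exact this)]
              simp
        · have := ha l hlL C hCL h2 hcard x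
          rw [hM]
          push_cast
          exact Dvd.dvd.mul_left this _
    · obtain ⟨c, hcC, hcL⟩ := Finset.not_subset.mp hCL
      rw [NN_zero n h b C c hcC (hb0 c hcL), NN_zero n h b' C c hcC (hb0' c hcL)]; simp
  rw [← Finset.add_sum_erase _ _ (Finset.mem_univ {l})] at e5
  have e7 : (M : ℤ) ∣ ∑ C ∈ (Finset.univ : Finset (Finset (Fin n))).erase {l}, ∑ x ∈ range M,
        (-1 : ℤ) ^ x * (((NN n h b C : ℤ) - NN n h b' C) * FF n lam C x) := by
    refine Finset.dvd_sum (fun C hC => Finset.dvd_sum (fun x _ => ?_))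
    exact Dvd.dvd.mul_left (key C (Finset.ne_of_mem_erase hC) x) _
  have e8 := (dvd_add_left e7).mp e5
  rw [NN_single n h b l (hbl l), NN_single n h b' l (hbl' l)] at e8
  have e9 : ∑ x ∈ range M, (-1 : ℤ) ^ x * (((b l : ℤ) - b' l) * FF n lam {l} x) =
      ((b l : ℤ) - b' l) * ∑ x ∈ range M, (-1 : ℤ) ^ x * FF n lam {l} x := by
    rw [Finset.mul_sum]
    refine Finset.sum_congr rfl (fun x _ => ?_)
    ring
  rw [e9] at e8
  refine hc l hlL ?_
  refine dvd_of (E l) (p l) hpp ((b l : ℤ) - b' l) _ h hhp ?_ ?_ ?_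
  · intro h0
    apply hldiff
    have : (b l : ℤ) = b' l := by linarith
    exact_mod_cast this
  · have h1 := hbl l
    have h2 := hbl' l
    rw [abs_le]
    constructor <;> omega
  · have : ((p l : ℤ)) ^ (E l + 1) = (M : ℤ) := by rw [hM]; push_cast; rfl
    rw [this]
    exact e8

theorem t : EXP → TRI := by
  intro hE n h lam hlam hl L p E hp ha hb hc
  have hinj := inj hE n h lam hlam hl L p E hp ha hb hc
  have hcard : Set.ncard (Set.range (fun a : L → Fin (h + 1) =>
      (mat n lam (ext n h L a)).permanent)) = (h + 1) ^ L.card := by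
    rw [← Set.image_univ, Set.ncard_image_of_injective _ hinj, Set.ncard_univ,
      Nat.card_eq_fintype_card]
    simp
  rw [← hcard]
  refine Set.ncard_le_ncard ?_ (fin_set n)
  rintro q ⟨a, rfl⟩
  refine ⟨mat n lam (ext n h L a), ?_, rfl⟩
  intro i j
  unfold mat
  split_ifs
  · right; rfl
  · left; rfl

end Pool.Agent.H47.PM.TRI
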