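import Pool.Agent.H47.PM.TK
import Pool.Agent.H47.PM.EXP
import Pool.Agent.H47.PM.CNT
import Pool.Agent.H47.PM.BRD
import Pool.Agent.H47.PM.CNI
import Pool.Agent.H47.PM.TRI
import Pool.Agent.H47.PM.PADB
import Pool.Agent.H47.PM.PADC
import Pool.Agent.H47.PM.LST
import Pool.Agent.H47.PM.SIEV
import Pool.Agent.H47.PM.ARI
import Pool.Agent.H47.PM.PRM
import Pool.Agent.H47.PM.NST

set_option autoImplicit false

namespace Pool.Agent.H47.PM.Fin

open Finset

/-- the number of the values of the permanent on the `n × n` matrices with entries `1` and `-1` -/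
noncomputable def r (n : ℕ) : ℕ :=
  Set.ncard {q : ℤ | ∃ A : Matrix (Fin n) (Fin n) ℤ, (∀ i j, A i j = 1 ∨ A i j = -1) ∧ A.permanent = q}

theorem lower : ∃ N : ℕ, ∀ n : ℕ, N ≤ n → (n : ℝ) ^ ((n : ℝ) / 6400) ≤ (r n : ℝ) := by
  have hTRI : TRI := TRI.t (EXP.t (BRD.t TK.t) (CNI.t NST.t))
  have hCNT : CNT := CNT.t LST.t PADB.t (PADC.t TK.t)
  have hARI : ARI := ARI.t SIEV.t
  obtain ⟨P0, hP0⟩ := PRM.t
  refine ⟨(max P0 100 + 1) ^ 8, fun n hn => ?_⟩
  -- the largest `P` with `P ^ 8 ≤ n`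
  set P := Nat.findGreatest (fun P => P ^ 8 ≤ n) n with hPdef
  have hn1 : max P0 100 + 1 ≤ n := le_trans (Nat.le_self_pow (by norm_num) _) hn
  have hP1 : P ^ 8 ≤ n := Nat.findGreatest_spec (P := fun P => P ^ 8 ≤ n) (m := 0) (Nat.zero_le _) (by simp)
  have hP2 : max P0 100 + 1 ≤ P := Nat.le_findGreatest hn1 hn
  have hP3 : n < (P + 1) ^ 8 := by
    by_contra hcon
    have h1 : P + 1 ≤ n := le_trans (Nat.le_self_pow (by norm_num) _) (not_lt.1 hcon)
    have h2 : P + 1 ≤ P := Nat.le_findGreatest h1 (not_lt.1 hcon)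
    omega
  have hPP0 : P0 ≤ P := le_trans (le_max_left P0 100) (by omega)
  have hP100 : 100 ≤ P := le_trans (le_max_right P0 100) (by omega)
  obtain ⟨Q, hQ, hQ1, hQ2⟩ := hP0 P hPP0
  have hsqrt : Nat.sqrt P ≤ P := Nat.sqrt_le_self P
  obtain ⟨A, B, m, N, ν, D, hsum, hcount⟩ := hARI (Nat.sqrt P) P Q hP100 hsqrt hQ hQ1 hQ2 n hP1
  obtain ⟨lam, L, p, E, hmono, hlam, hL, hp, ha, hb, hc⟩ := hCNT _ P A B Q m N ν D n hsum
  have hfin := hTRI n (Nat.sqrt P) lam hmono hlam L p E hp ha hb hc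
  change (Nat.sqrt P + 1) ^ L.card ≤ r n at hfin
  have hn0 : (0 : ℝ) < n := by exact_mod_cast (by omega : 0 < n)
  have hh : (n : ℝ) ≤ ((Nat.sqrt P + 1 : ℕ) : ℝ) ^ 16 := by
    have h1 : P + 1 ≤ (Nat.sqrt P + 1) ^ 2 := by
      have := Nat.lt_succ_sqrt P
      rw [pow_two]
      exact this
    have h2 : n ≤ (Nat.sqrt P + 1) ^ 16 := by
      refine hP3.le.trans ?_
      rw [show (16 : ℕ) = 2 * 8 by norm_num, pow_mul]
      exact Nat.pow_le_pow_left h1 8
    exact_mod_cast h2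
  have hb1 : (1 : ℝ) ≤ ((Nat.sqrt P + 1 : ℕ) : ℝ) := by exact_mod_cast Nat.succ_pos _
  have hcard : (n : ℝ) / 400 ≤ (L.card : ℝ) := by rw [hL]; exact hcount
  calc (n : ℝ) ^ ((n : ℝ) / 6400) ≤ (((Nat.sqrt P + 1 : ℕ) : ℝ) ^ 16) ^ ((n : ℝ) / 6400) :=
        Real.rpow_le_rpow hn0.le hh (by positivity)
    _ = ((Nat.sqrt P + 1 : ℕ) : ℝ) ^ ((n : ℝ) / 400) := by
        rw [← Real.rpow_natCast, ← Real.rpow_mul (by positivity)]
        congr 1
        push_cast
        ring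
    _ ≤ ((Nat.sqrt P + 1 : ℕ) : ℝ) ^ (L.card : ℝ) := Real.rpow_le_rpow_of_exponent_le hb1 hcard
    _ = (((Nat.sqrt P + 1) ^ L.card : ℕ) : ℝ) := by rw [Real.rpow_natCast]; push_cast; ring
    _ ≤ (r n : ℝ) := by exact_mod_cast hfin

theorem upper (n : ℕ) : r n ≤ 2 * n.factorial + 1 := by
  have hsub : {q : ℤ | ∃ A : Matrix (Fin n) (Fin n) ℤ, (∀ i j, A i j = 1 ∨ A i j = -1) ∧
      A.permanent = q} ⊆ ((Finset.Icc (-(n.factorial : ℤ)) (n.factorial : ℤ) : Finset ℤ) : Set ℤ) := by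
    rintro q ⟨A, hA, rfl⟩
    have h1 : |A.permanent| ≤ (n.factorial : ℤ) := by
      unfold Matrix.permanent
      refine (abs_sum_le_sum_abs _ _).trans ?_
      have h2 : ∀ σ ∈ (univ : Finset (Equiv.Perm (Fin n))), |∏ i, A (σ i) i| ≤ 1 := by
        intro σ _
        rw [abs_prod]
        refine (prod_eq_one fun i _ => ?_).le
        rcases hA (σ i) i with h | h <;> rw [h] <;> simp
      refine (sum_le_card_nsmul _ _ 1 h2).trans ?_
      rw [card_univ, Fintype.card_perm, Fintype.card_fin]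
      simp
    rw [coe_Icc]
    exact abs_le.1 h1
  unfold r
  refine (Set.ncard_le_ncard hsub (Finset.finite_toSet _)).trans ?_
  rw [Set.ncard_coe_finset, Int.card_Icc]
  omega

theorem theta : (fun n : ℕ => Real.log (r n)) =Θ[Filter.atTop] (fun n : ℕ => (n : ℝ) * Real.log n) := by
  obtain ⟨N, hN⟩ := lower
  constructor
  · refine Asymptotics.IsBigO.of_bound 2 ?_
    filter_upwards [Filter.eventually_ge_atTop (max N 3)] with n hn
    have hn3 : 3 ≤ n := (le_max_right _ _).trans hn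
    have hnN : N ≤ n := (le_max_left _ _).trans hn
    have hn0 : (0 : ℝ) < n := by exact_mod_cast (by omega : 0 < n)
    have hlog : 0 ≤ Real.log n := Real.log_natCast_nonneg n
    have h1 : (1 : ℝ) ≤ (r n : ℝ) := le_trans (Real.one_le_rpow (by exact_mod_cast (by omega : 1 ≤ n))
      (by positivity)) (hN n hnN)
    have h2 : (r n : ℝ) ≤ (n : ℝ) ^ (n + 1) := by
      have h3 : r n ≤ n ^ (n + 1) := by
        refine (upper n).trans ?_
        have h4 := Nat.factorial_le_pow n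
        have h5 : 0 < n.factorial := Nat.factorial_pos n
        calc 2 * n.factorial + 1 ≤ 3 * n.factorial := by omega
          _ ≤ n * n ^ n := Nat.mul_le_mul hn3 h4
          _ = n ^ (n + 1) := by rw [pow_succ]; ring
      exact_mod_cast h3
    rw [Real.norm_of_nonneg (Real.log_nonneg h1), Real.norm_of_nonneg (by positivity)]
    calc Real.log (r n) ≤ Real.log ((n : ℝ) ^ (n + 1)) := Real.log_le_log (by linarith) h2
      _ = ((n + 1 : ℕ) : ℝ) * Real.log n := Real.log_pow _ _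
      _ ≤ 2 * ((n : ℝ) * Real.log n) := by
        have : ((n + 1 : ℕ) : ℝ) ≤ 2 * n := by exact_mod_cast (by omega : n + 1 ≤ 2 * n)
        nlinarith
  · refine Asymptotics.IsBigO.of_bound 6400 ?_
    filter_upwards [Filter.eventually_ge_atTop (max N 3)] with n hn
    have hn3 : 3 ≤ n := (le_max_right _ _).trans hn
    have hnN : N ≤ n := (le_max_left _ _).trans hn
    have hn0 : (0 : ℝ) < n := by exact_mod_cast (by omega : 0 < n)
    have hlog : 0 ≤ Real.log n := Real.log_natCast_nonneg n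
    have h1 : (1 : ℝ) ≤ (n : ℝ) ^ ((n : ℝ) / 6400) :=
      Real.one_le_rpow (by exact_mod_cast (by omega : 1 ≤ n)) (by positivity)
    have h2 := Real.log_le_log (by linarith) (hN n hnN)
    rw [Real.log_rpow hn0] at h2
    rw [Real.norm_of_nonneg (Real.log_nonneg (h1.trans (hN n hnN))), Real.norm_of_nonneg (by positivity)]
    linarith

end Pool.Agent.H47.PM.Fin
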