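import Mathlib

/-!
# Project PM (MP_596cf1_co): the number `r_n` of distinct permanents of `n × n` sign matrices is at
least `n ^ (c n)`

(Known, probably: `r_n ≥ exp (c n)` from Hunter-Kwan-Sauermann 2025. New here: `log r_n` has the exact
order `n log n`.)

OVERVIEW. Base matrix: column `i` has `-1` in the first `lam i` rows (Ferrers), `lam` monotone,
`lam i + h ≤ n`; in the last `h` rows of some special columns `l ∈ L` we put `a l ≤ h` entries `-1`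
(the last `a l` rows). For odd `M` the permanent is
`(-2)^n ∑_{x<M} (-1)^x ∑_C N(a, C) F(C, x)` modulo `M` (EXP = BRD + CNI), where `F(C, x)` is a product of
linear factors (rook theory of Ferrers boards) and `N(a, C)` is the number of the injections of `C`
into the free rows. If for every special column `l` there is a prime `p > h` such that modulo
`p ^ (E + 1)` all terms with `|C| ≥ 2` and with `C = {c}`, `c < l`, vanish, but not the sum for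
`C = {l}`, then all `(h + 1) ^ |L|` permanents are different (TRI). Columns with
`v i = i - lam i = p + 1` have this property for the prime `p`, for a suitable choice of the
multiplicities `m y = #{i | v i = y}` (PADB, PADC, LST, CNT, SIEV, ARI, PRM).

Stubs: prove `theorem Pool.Agent.H47.PM.<Stub>.t : Pool.Agent.H47.PM.<Stub>` (with the hypotheses
named below, if any) in `Pool/Agent/H47/PM/<Stub>.lean`. -/

set_option autoImplicit false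

namespace Pool.Agent.H47.PM

open Finset

/-- the matrix: column `i` has `-1` in the first `lam i` rows and in the last `a i` rows -/
def mat (n : ℕ) (lam a : Fin n → ℕ) : Matrix (Fin n) (Fin n) ℤ :=
  fun r i => if (r : ℕ) < lam i ∨ n ≤ (r : ℕ) + a i then -1 else 1

/-- `v i = i - lam i` -/
def vv (n : ℕ) (lam : Fin n → ℕ) (i : Fin n) : ℤ := (i : ℤ) - lam i

/-- the number of the injective functions `f : C → Fin h` with `f c < a c` -/
noncomputable def NN (n h : ℕ) (a : Fin n → ℕ) (C : Finset (Fin n)) : ℕ :=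
  Nat.card {f : C → Fin h // Function.Injective f ∧ ∀ c, (f c : ℕ) < a c}

/-- `∏ (x - v i + #{c ∈ C, c < i})` over the `i ∉ C` -/
def FF (n : ℕ) (lam : Fin n → ℕ) (C : Finset (Fin n)) (x : ℤ) : ℤ :=
  ∏ i ∈ univ \ C, (x - vv n lam i + ((C.filter (fun c => c < i)).card : ℤ))

/-- TK (helper47 does this). `(-2)^k ∑_{x<M} (-1)^x (x)_k ≡ k!` modulo odd `M`.
Proof: `T k = ∑_{x<M} (-1)^x (x)_k` satisfies `2 T k + k T (k-1) = ∑ (-1)^x ((x)_k + (x+1)_k)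
= (0)_k + (M)_k ≡ 0` for `k ≥ 1`, and `T 0 = 1`. -/
def TK : Prop := ∀ (M : ℕ), Odd M → ∀ k : ℕ,
  (-2 : ℤ) ^ k * ∑ x ∈ range M, (-1 : ℤ) ^ x * (x.descFactorial k : ℤ) ≡ (k.factorial : ℤ)
    [ZMOD (M : ℤ)]

/-- BRD, `TK → BRD`. For any board `B` (`B i` = set of the rows with `-1` in column `i`).
Proof. Expand `∏_i (1 - 2 [σ i ∈ B i])`:
`per = ∑_S (-2)^|S| #{σ : σ i ∈ B i for i ∈ S}` and
`#{σ : σ i ∈ B i for i ∈ S} = #{τ : S → rows injective, τ i ∈ B i} (n - |S|)!`.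
On the other hand the `g` on the right, sorted by `S = {i | g i = inl _}`, are pairs of an injective
`τ : S → rows`, `τ i ∈ B i` and an injective map from the complement of `S` to `Fin x`, so their number is
`∑_S #τ (x)_{n - |S|}`. Now use TK with `k = n - |S|`: `(-2)^n = (-2)^|S| (-2)^(n-|S|)`. -/
def BRD : Prop := ∀ (n : ℕ) (B : Fin n → Finset (Fin n)) (M : ℕ), Odd M →
  (Matrix.of (fun r i : Fin n => if r ∈ B i then (-1 : ℤ) else 1)).permanent ≡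
    (-2) ^ n * ∑ x ∈ range M, (-1 : ℤ) ^ x *
      (Nat.card {g : Fin n → Fin n ⊕ Fin x // Function.Injective g ∧
        ∀ i r, g i = Sum.inl r → r ∈ B i} : ℤ) [ZMOD (M : ℤ)]

/-- NST. The number of the injections into nested sets. `A i`, `i : Fin k`, is an increasing sequence of
finite sets; the number of the injective `f` with `f i ∈ A i` is `∏ (|A i| - i)` (in `ℤ`).
Proof: induction on `k` with `Fin.snoc`/`Fin.init`: for the last value there are `|A k| - k` choices, as the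
`k` earlier values are all in `A k`. (If there is an earlier `f` at all, then `k ≤ |A k|`.) -/
def NST : Prop := ∀ (k : ℕ) (α : Type) [DecidableEq α] [Fintype α] (A : Fin k → Finset α), Monotone A →
  (Nat.card {f : Fin k → α // Function.Injective f ∧ ∀ i, f i ∈ A i} : ℤ) =
    ∏ i : Fin k, (((A i).card : ℤ) - i)

/-- CNI, `NST → CNI`. The number of the `g` in BRD for the board of `mat`.
Proof. Sort the `g` by `C = {i | g i = inl r, lam i ≤ r}` (then `n ≤ r + a i`: the value is in the last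
`a i` rows). On `C` one has an injective map to the last `h` rows, `r = n - 1 - f c`, `f c < a c`: these
are counted by `NN`. Outside of `C` the values are in the nested sets
`A i = {inl r | r < lam i} ∪ {inr _}` with `lam i + x` elements, which are disjoint from the last `h`
rows; by NST (reindex the complement of `C` in increasing order) their number is the product of the
`lam i + x - #{j < i, j ∉ C} = x - (i - lam i) + #{c ∈ C, c < i}`, `i ∉ C`. -/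
def CNI : Prop := ∀ (n h : ℕ) (lam a : Fin n → ℕ), Monotone lam → (∀ i, lam i + h ≤ n) →
  (∀ i, a i ≤ h) → ∀ x : ℕ,
  (Nat.card {g : Fin n → Fin n ⊕ Fin x // Function.Injective g ∧
    ∀ i r, g i = Sum.inl r → ((r : ℕ) < lam i ∨ n ≤ (r : ℕ) + a i)} : ℤ) =
    ∑ C : Finset (Fin n), (NN n h a C : ℤ) * FF n lam C x

/-- EXP (from BRD and CNI; helper47 does this) -/
def EXP : Prop := ∀ (n h : ℕ) (lam a : Fin n → ℕ), Monotone lam → (∀ i, lam i + h ≤ n) →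
  (∀ i, a i ≤ h) → ∀ M : ℕ, Odd M →
  (mat n lam a).permanent ≡ (-2) ^ n * ∑ x ∈ range M, (-1 : ℤ) ^ x *
    ∑ C : Finset (Fin n), (NN n h a C : ℤ) * FF n lam C x [ZMOD (M : ℤ)]

/-- TRI, `EXP → TRI`. Triangular systems give many permanents.
Proof. For `a : L → {0, …, h}` (extended by `0`) consider `mat n lam a`. They are sign matrices. If
`a ≠ a'`, let `l` be the largest element of `L` with `a l ≠ a' l`, `p = p l`, `M = p ^ (E l + 1)` (odd).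
In the difference of the two expressions of EXP modulo `M`: `C` not contained in `L` contributes `0`
(`NN = 0`, as `a c = 0`), `|C| > h` too (`NN = 0`), `C = ∅` cancels, `2 ≤ |C| ≤ h` is `0` modulo `M` by
(a), `C = {c}` has `NN = a c` and cancels for `c > l`, is `0` modulo `M` for `c < l` by (b). What is left
is `(-2)^n (a l - a' l) ∑_x (-1)^x FF {l} x`, with `0 < |a l - a' l| ≤ h < p`, so not divisible by
`M = p ^ (E + 1)` by (c). So the permanents are different; the set of values is finite. -/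
def TRI : Prop := ∀ (n h : ℕ) (lam : Fin n → ℕ), Monotone lam → (∀ i, lam i + h ≤ n) →
  ∀ (L : Finset (Fin n)) (p E : Fin n → ℕ), (∀ l ∈ L, (p l).Prime ∧ h < p l ∧ 2 < p l) →
  (∀ l ∈ L, ∀ C ⊆ L, 2 ≤ C.card → C.card ≤ h → ∀ x : ℤ, (p l : ℤ) ^ (E l + 1) ∣ FF n lam C x) →
  (∀ l ∈ L, ∀ c ∈ L, c < l → ∀ x : ℤ, (p l : ℤ) ^ (E l + 1) ∣ FF n lam {c} x) →
  (∀ l ∈ L, ¬ (p l : ℤ) ^ (E l + 1) ∣
    ∑ x ∈ range (p l ^ (E l + 1)), (-1 : ℤ) ^ x * FF n lam {l} x) →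
  (h + 1) ^ L.card ≤ Set.ncard {q : ℤ | ∃ A : Matrix (Fin n) (Fin n) ℤ,
    (∀ i j, A i j = 1 ∨ A i j = -1) ∧ A.permanent = q}

/-- PADB. Divisibility of `∏_{u ∈ U} (x - u)` by `p ^ (E + 1)`, for all integers `x`.
Proof. If `p ∤ x`: the factors divisible by `p` are enough. If `p ∣ x`, `p² ∤ x`: the factors with
`p ∣ u` are divisible by `p`, those with `p² ∣ x - u` (a subset) by `p²`. If `p² ∣ x = p² X`: the factors with
`p ∣ u` are divisible by `p`; the factors with `u = p² w`, `w0 ≤ w < w0 + N` are `p² (X - w)`, and the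
product of the `N` consecutive integers `X - w` is divisible by `N!` and so by `p ^ ν`; so in this case the
exponent is at least `card (U.filter (p ∣ u)) + N + ν`. -/
def PADB : Prop := ∀ (p : ℕ), p.Prime → ∀ (U : Multiset ℤ) (N ν E : ℕ) (w0 : ℤ),
  (∀ x : ℤ, ¬ (p : ℤ) ∣ x → E + 1 ≤ (U.filter (fun u => (p : ℤ) ∣ x - u)).card) →
  (∀ x : ℤ, (p : ℤ) ∣ x → ¬ (p : ℤ) ^ 2 ∣ x →
    E + 1 ≤ (U.filter (fun u => (p : ℤ) ∣ u)).card +
      (U.filter (fun u => (p : ℤ) ^ 2 ∣ x - u)).card) →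
  (∀ w : ℤ, w0 ≤ w → w < w0 + N → (p : ℤ) ^ 2 * w ∈ U) →
  p ^ ν ∣ N.factorial →
  E + 1 ≤ (U.filter (fun u => (p : ℤ) ∣ u)).card + N + ν →
  ∀ x : ℤ, (p : ℤ) ^ (E + 1) ∣ (U.map (fun u => x - u)).prod

/-- PADC, `TK → PADC`. The exact valuation of the alternating sum.
Proof. Let `E = n0 + N + ν`, `n0 = card (U.filter (p ∣ u))`, `M = p ^ (E + 1)`. The terms with `p ∤ x` or
`p² ∤ x` are `0` modulo `M` (as in PADB). For `x = p² X`, `0 ≤ X < p ^ (E - 1)`, the term is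
`(-1)^X p ^ (n0 - N) p ^ (2 N) Θ(X) ∏_{w0 ≤ w < w0 + N} (X - w)`, where `Θ(X)` is the product of the
`p² X - u`, `p ∤ u`, and of the `p X - u / p`, `p ∣ u`, `p² ∤ u`; `Θ(X) ≡ Θ(0)` modulo `p`, and
`p ∤ Θ(0)`. As `p ^ ν` divides the product of `N` consecutive integers, the sum is
`p ^ (n0 + N) Θ(0) ∑_{X < p^(E-1)} (-1)^X ∏_w (X - w)` modulo `p ^ (n0 + N + ν + 1)`. Shift: put
`f(z) = z (z - 1) ⋯ (z - N + 1)`, so `∏_w (X - w) = f(X - w0)`; as `w0 ≤ 0 ≤ w0 + N` and `f` vanishes at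
`0, …, N - 1`, the sum `∑_{X < M'} (-1)^X f(X - w0)` is `± ∑_{z < M'} (-1)^z f(z)` modulo `M'` for odd
`M'` (here `M' = p ^ (E - 1)`; the terms `z ∈ [0, -w0)` are `0` and those with `z ∈ [M', M' - w0)` are
`0` modulo `M'`, as `f (z) ≡ f (z - M')`), and by TK `(-2)^N ∑_{z < M'} (-1)^z f(z) ≡ N!` modulo `M'`. Now
`E - 1 ≥ ν + 1` if `n0 + N ≥ 2`; so `p ^ (ν + 1)` does not divide the sum. (Hypothesis `2 ≤ n0 + N`.) -/
def PADC : Prop := ∀ (p : ℕ), p.Prime → p ≠ 2 → ∀ (U : Multiset ℤ) (N ν E : ℕ) (w0 : ℤ),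
  E = (U.filter (fun u => (p : ℤ) ∣ u)).card + N + ν →
  2 ≤ (U.filter (fun u => (p : ℤ) ∣ u)).card + N →
  (∀ x : ℤ, ¬ (p : ℤ) ∣ x → E + 1 ≤ (U.filter (fun u => (p : ℤ) ∣ x - u)).card) →
  (∀ x : ℤ, (p : ℤ) ∣ x → ¬ (p : ℤ) ^ 2 ∣ x →
    E + 1 ≤ (U.filter (fun u => (p : ℤ) ∣ u)).card +
      (U.filter (fun u => (p : ℤ) ^ 2 ∣ x - u)).card) →
  U.filter (fun u => (p : ℤ) ^ 2 ∣ u) = (Finset.Ico w0 (w0 + N)).val.map (fun w => (p : ℤ) ^ 2 * w) →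
  w0 ≤ 0 → 0 ≤ w0 + N →
  p ^ ν ∣ N.factorial → ¬ p ^ (ν + 1) ∣ N.factorial →
  ¬ (p : ℤ) ^ (E + 1) ∣
    ∑ x ∈ range (p ^ (E + 1)), (-1 : ℤ) ^ x * (U.map (fun u => (x : ℤ) - u)).prod

/-- LST. From multiplicities to `lam`.
Proof. Let `v : Fin n → ℤ` be the monotone sequence in which `y` occurs `m y` times (for example the sorted
list `(List.range (A + B + 1)).flatMap (fun k => List.replicate (m (k - A)) (k - A))`). As all `m y ≥ 1`,
`v (i + 1) ≤ v i + 1` and `v i ≤ i - A ≤ i`, so `lam i = i - v i` is a natural number, monotone, and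
`v (n - 1) = B` gives `lam i ≤ lam (n - 1) = n - 1 - B`. -/
def LST : Prop := ∀ (A B n : ℕ) (m : ℤ → ℕ),
  (∀ y ∈ Finset.Icc (-(A : ℤ)) B, 1 ≤ m y) → ∑ y ∈ Finset.Icc (-(A : ℤ)) B, m y = n →
  ∃ lam : Fin n → ℕ, Monotone lam ∧ (∀ i, lam i + (B + 1) ≤ n) ∧ Monotone (vv n lam) ∧
    (∀ i, vv n lam i ∈ Finset.Icc (-(A : ℤ)) B) ∧
    ∀ y ∈ Finset.Icc (-(A : ℤ)) B, (univ.filter (fun i => vv n lam i = y)).card = m y

/-- `c_p + s_p + N_p + ν_p` -/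
noncomputable def tot (A B : ℕ) (m : ℤ → ℕ) (N ν : ℕ → ℕ) (p : ℕ) : ℕ :=
  ∑ y ∈ (Finset.Icc (-(A : ℤ)) p).filter (fun y => (p : ℤ) ∣ y), m y +
  ∑ y ∈ (Finset.Icc ((p : ℤ) + 2) B).filter (fun y => (p : ℤ) ∣ y - 1), m y +
  (m (p + 1) - 1) + N p + ν p

/-- the data of the construction -/
structure Dat (h P A B : ℕ) (Q : Finset ℕ) (m : ℤ → ℕ) (N ν : ℕ → ℕ) : Prop where
  prm : ∀ p ∈ Q, p.Prime ∧ h < p ∧ 2 < p ∧ p ≤ P
  hB : P + 2 ≤ B
  hA : P ^ 2 ≤ A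
  hh : h ≤ B + 1
  pos : ∀ y ∈ Finset.Icc (-(A : ℤ)) B, 1 ≤ m y
  mid : ∀ y ∈ Finset.Icc (0 : ℤ) (P + 1), (∀ p ∈ Q, y ≠ p + 1) → m y = 1
  headsq : ∀ p ∈ Q, ∀ y ∈ Finset.Icc (-(A : ℤ)) (-1), (p : ℤ) ^ 2 ∣ y → m y = 1
  tail1 : ∀ p ∈ Q, ∀ y ∈ Finset.Icc ((P : ℤ) + 2) B, (p : ℤ) ∣ y - 1 → m y = 1
  nn : ∀ p ∈ Q, N p = ((Finset.Ico (-(A : ℤ)) B).filter (fun w => (p : ℤ) ^ 2 ∣ w)).card
  nu1 : ∀ p ∈ Q, p ^ ν p ∣ (N p).factorial
  nu2 : ∀ p ∈ Q, ¬ p ^ (ν p + 1) ∣ (N p).factorial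
  head : ∀ p ∈ Q, ∀ r : ℤ, ¬ (p : ℤ) ∣ r → tot A B m N ν p ≤
    ∑ y ∈ (Finset.Icc (-(A : ℤ)) (-1)).filter (fun y => (p : ℤ) ∣ y - r), m y
  tail : ∀ p ∈ Q, ∀ j : ℕ, 2 ≤ j → j ≤ h → tot A B m N ν p ≤
    ∑ y ∈ (Finset.Icc ((P : ℤ) + 2) B).filter (fun y => (p : ℤ) ∣ y - j), m y
  sec : ∀ p ∈ Q, ∀ r : ℤ, (p : ℤ) ∣ r → ¬ (p : ℤ) ^ 2 ∣ r → N p + ν p + 1 ≤
    ∑ y ∈ (Finset.Icc (-(A : ℤ)) (-1)).filter (fun y => (p : ℤ) ^ 2 ∣ y - r), m y +
      ((Finset.Ico (0 : ℤ) B).filter (fun w => (p : ℤ) ^ 2 ∣ w - r)).card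

/-- CNT (helper47 does this), `LST → PADB → PADC → CNT` -/
def CNT : Prop := ∀ (h P A B : ℕ) (Q : Finset ℕ) (m : ℤ → ℕ) (N ν : ℕ → ℕ),
  Dat h P A B Q m N ν → ∀ n : ℕ, ∑ y ∈ Finset.Icc (-(A : ℤ)) B, m y = n →
  ∃ (lam : Fin n → ℕ) (L : Finset (Fin n)) (p E : Fin n → ℕ), Monotone lam ∧
    (∀ i, lam i + h ≤ n) ∧ L.card = ∑ p ∈ Q, (m (p + 1) - 1) ∧
    (∀ l ∈ L, (p l).Prime ∧ h < p l ∧ 2 < p l) ∧
    (∀ l ∈ L, ∀ C ⊆ L, 2 ≤ C.card → C.card ≤ h → ∀ x : ℤ, (p l : ℤ) ^ (E l + 1) ∣ FF n lam C x) ∧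
    (∀ l ∈ L, ∀ c ∈ L, c < l → ∀ x : ℤ, (p l : ℤ) ^ (E l + 1) ∣ FF n lam {c} x) ∧
    (∀ l ∈ L, ¬ (p l : ℤ) ^ (E l + 1) ∣
      ∑ x ∈ range (p l ^ (E l + 1)), (-1 : ℤ) ^ x * FF n lam {l} x)

/-- SIEV. A simple sieve count. Proof: the number of the `y` in `[X, X + A)` with `d ∣ y - r` is at least
`A / d - 1`; those with `q ∣ y - t q` in addition are at most `A / (d q) + 1` (one class modulo `d q`). So the
number in question is at least `(A / d) (1 - ∑ 1/q) - 1 - |R| ≥ (3/4) A / d - 1 - |R| ≥ A / (2 d)`. -/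
def SIEV : Prop := ∀ (X : ℤ) (A d : ℕ) (R : Finset ℕ) (r : ℤ) (t : ℕ → ℤ), 0 < d →
  (∀ q ∈ R, 0 < q ∧ q.Coprime d) → ∑ q ∈ R, (1 / (q : ℝ)) ≤ 1 / 4 → 4 * d * (R.card + 1) ≤ A →
  (A : ℝ) / (2 * d) ≤ (((Finset.Ico X (X + A)).filter (fun y => (d : ℤ) ∣ y - r ∧
    ∀ q ∈ R, ¬ (q : ℤ) ∣ y - t q)).card : ℝ)

/-- ARI, `SIEV → ARI`. The choice of the parameters.
Proof. `A = P^4`, `B = A + P + 1`, `K = n / (3 A)` (so `K ≥ 40`), `s_p = K * (A / (4 p))`,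
* `y ∈ [-A, -1]`: `m y = 1` if `p² ∣ y` for some `p ∈ Q`, otherwise `2` if `p ∣ y` for some `p ∈ Q`,
  otherwise `K`, except for `m (-1)`, which is chosen such that `∑ m y = n`;
* `y ∈ [0, P + 1]`: `m (p + 1) = 1 + s_p` for `p ∈ Q`, otherwise `1`;
* `y ∈ [P + 2, B]`: `m y = 1` if `p ∣ y - 1` for some `p ∈ Q`, otherwise `K`.
`N p` is as in `nn` and `ν p` is the exponent of `p` in `(N p)!`, `ν p ≤ N p / (p - 1)`.
`∑_p s_p ≤ K A / 16`, so `∑_{y ≠ -1} m y ≤ 2 A K + K A / 16 + P + 2 ≤ n - K`, and `m (-1) ≥ K`.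
head: by SIEV (`d = p`, `R = Q.erase p`, `t = 0`) there are at least `A / (2 p)` numbers `y ∈ [-A, -1]`,
`y ≡ r` modulo `p`, with `m y ≥ K`; so the sum is at least `K A / (2 p)`.
tail: the same with `r = j`, `t = 1` (`j ≢ 1` modulo `p` as `2 ≤ j ≤ h < p`).
`tot ≤ 2 (A / p + 1) + 2 + ((A + P) / p + 1) + s_p + 2 N p ≤ 4 A / p + 10 + K A / (4 p)`, where
`N p ≤ (2 A + P + 1) / p² + 1` and `p ≥ 11`; as `K ≥ 40` this is at most `K A / (2 p)`.
sec: the sum is at least `#{w ∈ [-A, B) : p² ∣ w - r} + #{y ∈ [-A, -1] : p² ∣ y - r, no q² ∣ y, q ∈ Q}`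
(in the second set `m y ≥ 2`; note `p ∣ y`, `p² ∤ y`); the first number is at least `N p - 1`, the second
at least `A / (2 p²)` by SIEV (`d = p²`, `R` = squares of the other primes), and
`ν p ≤ N p / (p - 1) ≤ A / (4 p²) + 1`. -/
def ARI : Prop := ∀ (h P : ℕ) (Q : Finset ℕ), 100 ≤ P → h ≤ P →
  (∀ p ∈ Q, p.Prime ∧ h < p ∧ 11 ≤ p ∧ p ≤ P) →
  ∑ p ∈ Q, (1 / (p : ℝ)) ≤ 1 / 4 → 1 / 8 ≤ ∑ p ∈ Q, (1 / (p : ℝ)) →
  ∀ n : ℕ, P ^ 8 ≤ n → ∃ (A B : ℕ) (m : ℤ → ℕ) (N ν : ℕ → ℕ), Dat h P A B Q m N ν ∧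
    ∑ y ∈ Finset.Icc (-(A : ℤ)) B, m y = n ∧
    (n : ℝ) / 400 ≤ ((∑ p ∈ Q, (m (p + 1) - 1) : ℕ) : ℝ)

/-- PRM. Primes between `√P` and `P` with the right sum of reciprocals.
Proof. By Mertens (library: `Pool.Agent.Helper923.HMertens.mertens_ratio`, or Mathlib's Chebyshev bounds,
or a dyadic sum with the lower bound for `π(2x) - π(x)`) the sum of `1/p` over `√P < p ≤ P` is at least
`1/4` for large `P` (it tends to `log 2`); all terms are small, so a subset has its sum between `1/8` and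
`1/4`. -/
def PRM : Prop := ∃ P0 : ℕ, ∀ P : ℕ, P0 ≤ P → ∃ Q : Finset ℕ,
  (∀ p ∈ Q, p.Prime ∧ Nat.sqrt P < p ∧ 11 ≤ p ∧ p ≤ P) ∧
  ∑ p ∈ Q, (1 / (p : ℝ)) ≤ 1 / 4 ∧ 1 / 8 ≤ ∑ p ∈ Q, (1 / (p : ℝ))

end Pool.Agent.H47.PM
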