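import Pool.Agent.H47.PM.Stm

set_option autoImplicit false

namespace Pool.Agent.H47.PM.TK

open Finset

theorem step (x k : ℕ) : (((x + 1).descFactorial (k + 1) : ℕ) : ℤ) =
    (x.descFactorial (k + 1) : ℤ) + (k + 1) * (x.descFactorial k : ℤ) := by
  rw [Nat.succ_descFactorial_succ, Nat.descFactorial_succ]
  rcases Nat.lt_or_ge x k with h | h
  · rw [Nat.descFactorial_of_lt h]
    simp
  · push_cast [Nat.cast_sub h]
    ring

theorem tele (f : ℕ → ℤ) (M : ℕ) :
    ∑ x ∈ range M, (-1 : ℤ) ^ x * (f x + f (x + 1)) = f 0 - (-1) ^ M * f M := by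
  induction M with
  | zero => simp
  | succ M ih =>
    rw [sum_range_succ, ih]
    ring

theorem rec (M : ℕ) (hM : Odd M) (k : ℕ) :
    2 * ∑ x ∈ range M, (-1 : ℤ) ^ x * (x.descFactorial (k + 1) : ℤ) +
      (k + 1) * ∑ x ∈ range M, (-1 : ℤ) ^ x * (x.descFactorial k : ℤ) =
      (M.descFactorial (k + 1) : ℤ) := by
  have h := tele (fun x => (x.descFactorial (k + 1) : ℤ)) M
  have h2 : ∑ x ∈ range M, (-1 : ℤ) ^ x * (((x.descFactorial (k + 1) : ℕ) : ℤ) +
      (((x + 1).descFactorial (k + 1) : ℕ) : ℤ)) =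
      2 * ∑ x ∈ range M, (-1 : ℤ) ^ x * (x.descFactorial (k + 1) : ℤ) +
      (k + 1) * ∑ x ∈ range M, (-1 : ℤ) ^ x * (x.descFactorial k : ℤ) := by
    rw [mul_sum, mul_sum, ← sum_add_distrib]
    refine sum_congr rfl fun x _ => ?_
    rw [step]
    ring
  rw [← h2, h, hM.neg_one_pow]
  simp

theorem t : TK := by
  intro M hM k
  induction k with
  | zero =>
    have h : ∀ M : ℕ, Odd M → ∑ x ∈ range M, (-1 : ℤ) ^ x = 1 := by
      intro M hM
      obtain ⟨j, rfl⟩ := hM
      induction j with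
      | zero => simp
      | succ j ih =>
        rw [show 2 * (j + 1) + 1 = 2 * j + 1 + 1 + 1 by ring, sum_range_succ, sum_range_succ, ih]
        have h1 : (-1 : ℤ) ^ (2 * j) = 1 := Even.neg_one_pow ⟨j, by ring⟩
        rw [pow_succ, show 2 * j + 1 + 1 = 2 * j + 2 by ring, pow_add, h1]
        norm_num
    simp only [pow_zero, one_mul, Nat.descFactorial_zero, Nat.cast_one, mul_one, Nat.factorial_zero]
    rw [h M hM]
  | succ k ih =>
    have h := rec M hM k
    have hd : (M : ℤ) ∣ (M.descFactorial (k + 1) : ℤ) := by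
      cases M with
      | zero => exact absurd hM (by decide)
      | succ M =>
        rw [Nat.succ_descFactorial_succ]
        exact_mod_cast Dvd.intro _ rfl
    have h3 : (-2 : ℤ) ^ (k + 1) * ∑ x ∈ range M, (-1 : ℤ) ^ x * (x.descFactorial (k + 1) : ℤ) =
        (k + 1) * ((-2 : ℤ) ^ k * ∑ x ∈ range M, (-1 : ℤ) ^ x * (x.descFactorial k : ℤ)) -
          (-2 : ℤ) ^ k * (M.descFactorial (k + 1) : ℤ) := by
      rw [← h]
      ring
    rw [h3]
    have h4 : (-2 : ℤ) ^ k * (M.descFactorial (k + 1) : ℤ) ≡ 0 [ZMOD (M : ℤ)] :=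
      (Int.modEq_zero_iff_dvd.2 (hd.mul_left _))
    have h5 := (ih.mul_left ((k : ℤ) + 1)).sub h4
    refine h5.trans ?_
    rw [Nat.factorial_succ]
    push_cast
    rw [sub_zero]

end Pool.Agent.H47.PM.TK
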